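import Pool.Agent.W599.SA.Near

/-!
# A set of automorphisms with bounded traces is finite modulo inner automorphisms
-/

open Matrix Topology Filter

open scoped Matrix.Norms.Operator

namespace Pool.Agent.W599.SA

variable {Γ : Subgroup SL2}

theorem exists_sl2_of_gl (g : GL (Fin 2) ℝ) : ∃ m : SL2, ∀ X : SL2, ∀ i j,
    |(m * X * m⁻¹) i j| = |(g.1 * (X : Matrix (Fin 2) (Fin 2) ℝ) * (g⁻¹).1) i j| := by
  obtain ⟨a, ha⟩ : ∃ a, g.1 0 0 = a := ⟨_, rfl⟩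
  obtain ⟨b, hb⟩ : ∃ a, g.1 0 1 = a := ⟨_, rfl⟩
  obtain ⟨c, hc⟩ : ∃ a, g.1 1 0 = a := ⟨_, rfl⟩
  obtain ⟨e, he⟩ : ∃ a, g.1 1 1 = a := ⟨_, rfl⟩
  obtain ⟨D, hD⟩ : ∃ D, a * e - b * c = D := ⟨_, rfl⟩
  have hdet : g.1.det = D := by rw [det_fin_two, ha, hb, hc, he, hD]
  have hD0 : D ≠ 0 := by
    rw [← hdet]
    exact (Matrix.isUnit_iff_isUnit_det _).1 g.isUnit |>.ne_zero
  have hinv : (g⁻¹).1 = D⁻¹ • !![e, -b; -c, a] := by
    rw [Matrix.coe_units_inv, Matrix.inv_def, hdet, adjugate_fin_two, ha, hb, hc, he,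
      Ring.inverse_eq_inv']
  have i00 : (g⁻¹).1 0 0 = D⁻¹ * e := by rw [hinv]; simp
  have i01 : (g⁻¹).1 0 1 = D⁻¹ * (-b) := by rw [hinv]; simp
  have i10 : (g⁻¹).1 1 0 = D⁻¹ * (-c) := by rw [hinv]; simp
  have i11 : (g⁻¹).1 1 1 = D⁻¹ * a := by rw [hinv]; simp
  have hprod : ∀ (X : SL2) i j, (g.1 * (X : Matrix (Fin 2) (Fin 2) ℝ) * (g⁻¹).1) i j =
      (g.1 i 0 * X 0 0 + g.1 i 1 * X 1 0) * (g⁻¹).1 0 j +
        (g.1 i 0 * X 0 1 + g.1 i 1 * X 1 1) * (g⁻¹).1 1 j := by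
    intro X i j
    rw [Matrix.mul_apply, Fin.sum_univ_two, Matrix.mul_apply, Matrix.mul_apply, Fin.sum_univ_two,
      Fin.sum_univ_two]
  rcases lt_or_gt_of_ne hD0 with hneg | hpos
  · set r := Real.sqrt (-D) with hr
    have hr2 : r ^ 2 = -D := Real.sq_sqrt (by linarith)
    have hr0 : r ≠ 0 := (Real.sqrt_pos.2 (by linarith)).ne'
    have hDr : D = -r ^ 2 := by linarith
    have hdm : (!![a / r, b / r; -c / r, -e / r] : Matrix (Fin 2) (Fin 2) ℝ).det = 1 := by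
      rw [det_fin_two_of]; field_simp; linarith
    obtain ⟨m, hm⟩ : ∃ m : SL2, m = ⟨!![a / r, b / r; -c / r, -e / r], hdm⟩ := ⟨_, rfl⟩
    have m00 : m 0 0 = a / r := by rw [hm]; rfl
    have m01 : m 0 1 = b / r := by rw [hm]; rfl
    have m10 : m 1 0 = -c / r := by rw [hm]; rfl
    have m11 : m 1 1 = -e / r := by rw [hm]; rfl
    obtain ⟨n00, n01, n10, n11⟩ := sl2_inv m
    refine ⟨m, fun X i j => ?_⟩
    rw [hprod]
    fin_cases i <;> fin_cases j <;> simp only [Fin.zero_eta, Fin.mk_one, Fin.isValue, sl2_mul,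
      n00, n01, n10, n11, m00, m01, m10, m11, ha, hb, hc, he, i00, i01, i10, i11, hDr]
    · congr 1; field_simp
    · rw [← abs_neg]; congr 1; field_simp; ring
    · rw [← abs_neg]; congr 1; field_simp; ring
    · congr 1; field_simp; ring
  · set r := Real.sqrt D with hr
    have hr2 : r ^ 2 = D := Real.sq_sqrt hpos.le
    have hr0 : r ≠ 0 := (Real.sqrt_pos.2 hpos).ne'
    have hDr : D = r ^ 2 := by linarith
    have hdm : (!![a / r, b / r; c / r, e / r] : Matrix (Fin 2) (Fin 2) ℝ).det = 1 := by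
      rw [det_fin_two_of]; field_simp; linarith
    obtain ⟨m, hm⟩ : ∃ m : SL2, m = ⟨!![a / r, b / r; c / r, e / r], hdm⟩ := ⟨_, rfl⟩
    have m00 : m 0 0 = a / r := by rw [hm]; rfl
    have m01 : m 0 1 = b / r := by rw [hm]; rfl
    have m10 : m 1 0 = c / r := by rw [hm]; rfl
    have m11 : m 1 1 = e / r := by rw [hm]; rfl
    obtain ⟨n00, n01, n10, n11⟩ := sl2_inv m
    refine ⟨m, fun X i j => ?_⟩
    rw [hprod]
    fin_cases i <;> fin_cases j <;> simp only [Fin.zero_eta, Fin.mk_one, Fin.isValue, sl2_mul,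
      n00, n01, n10, n11, m00, m01, m10, m11, ha, hb, hc, he, i00, i01, i10, i11, hDr] <;>
    · congr 1; field_simp

/-- Automorphisms with bounded traces are finite in number modulo inner automorphisms. -/
theorem aut_finite (hΓ : IsClosedSurfaceGroup Γ) (Θ : Set (MulAut Γ))
    (hbd : ∀ γ : Γ, ∃ C : ℝ, ∀ θ ∈ Θ, |tr (θ γ : Γ)| ≤ C) :
    ((fun φ : MulAut Γ => (φ : Out Γ)) '' Θ).Finite := by
  obtain ⟨S, -, hS⟩ := exists_generators hΓ
  obtain ⟨M₀, hM₀, hc⟩ := cocompact_bd hΓ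
  obtain ⟨M, hM⟩ := exists_bounded_conj (K := ℝ) (d := 2) (ι := S)
    (fun (θ : Θ) (s : S) => ((θ.1 (s : Γ) : Γ) : SL2).1) (by
      intro w hw
      clear hw
      obtain ⟨C, hC⟩ := hbd ((w.map (fun s : S => (s : Γ))).prod)
      refine ⟨C, fun θ => ?_⟩
      have h1 : word (fun s : S => ((θ.1 (s : Γ) : Γ) : SL2).1) w =
          ((θ.1 ((w.map (fun s : S => (s : Γ))).prod) : Γ) : SL2).1 := by
        clear hC
        induction w with
        | nil => simp [word]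
        | cons s w ih => rw [word_cons, ih, List.map_cons, List.prod_cons, map_mul]; rfl
      rw [h1, Matrix.trace_fin_two]
      exact hC θ.1 θ.2)
  set M' := max M 0 with hM'
  set B := 2 * (2 * M₀ * M') * M₀ with hB
  set G : Set Γ := {γ : Γ | Bd B γ} with hG
  have hGfin : G.Finite := finite_bd hΓ.discrete B
  set Ψ : Set (MulAut Γ) := {ψ | ∀ s ∈ S, ψ s ∈ G} with hΨ
  have hΨfin : Ψ.Finite := by
    have : Finite G := hGfin
    have hinj : Function.Injective (fun (ψ : Ψ) (s : S) => (⟨ψ.1 s, ψ.2 s s.2⟩ : G)) := by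
      intro ψ ψ' h
      apply Subtype.ext
      apply MulEquiv.ext
      intro γ
      obtain ⟨w, rfl⟩ := exists_word S hS γ
      induction w with
      | nil => simp
      | cons s w ih =>
        rw [List.map_cons, List.prod_cons, map_mul, map_mul, ih]
        congr 1
        exact congrArg Subtype.val (congrFun h s)
    exact Finite.of_injective _ hinj
  refine (hΨfin.image (fun φ : MulAut Γ => (φ : Out Γ))).subset ?_
  rintro _ ⟨θ, hθ, rfl⟩
  obtain ⟨g, hg⟩ := hM ⟨θ, hθ⟩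
  obtain ⟨m, hm⟩ := exists_sl2_of_gl g
  obtain ⟨γ₁, hγ₁, k, hk, hkk⟩ := hc m⁻¹
  refine ⟨MulAut.conj (⟨γ₁, hγ₁⟩⁻¹ : Γ) * θ, fun s hs => ?_, ?_⟩
  · show Bd B _
    have h1 : ((MulAut.conj (⟨γ₁, hγ₁⟩⁻¹ : Γ) * θ) s : SL2) =
        k * (m * (θ s : Γ) * m⁻¹) * k⁻¹ := by
      rw [MulAut.mul_apply, MulAut.conj_apply]
      simp only [Subgroup.coe_mul, Subgroup.coe_inv, inv_inv]
      have h2 : γ₁ = m⁻¹ * k⁻¹ := by rw [hkk]; group
      rw [h2]; group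
    rw [h1]
    refine (hk.mul ?_).mul hk.inv
    intro i j
    rw [hm]
    have h3 := entry_le_norm (g.1 * (((θ s : Γ) : SL2) : Matrix (Fin 2) (Fin 2) ℝ) * (g⁻¹).1) i j
    rw [← Real.norm_eq_abs]
    exact h3.trans ((hg ⟨s, hs⟩).trans (le_max_left _ _))
  · show ((MulAut.conj (⟨γ₁, hγ₁⟩⁻¹ : Γ) * θ : MulAut Γ) : Out Γ) = (θ : Out Γ)
    rw [eq_comm, QuotientGroup.eq]
    refine ⟨θ⁻¹ (⟨γ₁, hγ₁⟩⁻¹ : Γ), ?_⟩
    apply MulEquiv.ext
    intro γ
    rw [MulAut.conj_apply, MulAut.mul_apply, MulAut.mul_apply, MulAut.conj_apply, map_mul, map_mul,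
      MulAut.inv_apply_self, map_inv θ⁻¹ (⟨γ₁, hγ₁⟩⁻¹ : Γ)]

end Pool.Agent.W599.SA
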