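import Pool.Agent.W599.SA.LA

/-!
# Tuples of matrices with bounded traces of all words are conjugate to bounded tuples
-/

open Module Filter Topology Matrix

open scoped Matrix.Norms.Operator

namespace Pool.Agent.W599.SA

section bcl

variable {K : Type} [RCLike K] {d : ℕ} {ι : Type} [Fintype ι]

/-- the product of a word -/
def word (B : ι → Matrix (Fin d) (Fin d) K) (w : List ι) : Matrix (Fin d) (Fin d) K :=
  (w.map B).prod

theorem word_append (B : ι → Matrix (Fin d) (Fin d) K) (w w' : List ι) :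
    word B (w ++ w') = word B w * word B w' := by
  simp [word]

theorem word_cons (B : ι → Matrix (Fin d) (Fin d) K) (i : ι) (w : List ι) :
    word B (i :: w) = B i * word B w := by
  simp [word]

theorem word_smul (c : K) (B : ι → Matrix (Fin d) (Fin d) K) (w : List ι) :
    word (fun i => c • B i) w = c ^ w.length • word B w := by
  induction w with
  | nil => simp [word]
  | cons i w ih =>
    rw [word_cons, word_cons, ih, List.length_cons, smul_mul_assoc, mul_smul_comm, smul_smul,
      pow_succ, mul_comm c]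

theorem gl_inv_mul (g : GL (Fin d) K) : (g⁻¹).1 * g.1 = 1 := by
  rw [← Units.val_mul, inv_mul_cancel, Units.val_one]

theorem word_conj (g : GL (Fin d) K) (B : ι → Matrix (Fin d) (Fin d) K) (w : List ι) :
    word (fun i => g.1 * B i * (g⁻¹).1) w = g.1 * word B w * (g⁻¹).1 := by
  induction w with
  | nil =>
    simp only [word, List.map_nil, List.prod_nil, mul_one]
    rw [← Units.val_mul, mul_inv_cancel, Units.val_one]
  | cons i w ih =>
    rw [word_cons, word_cons, ih]
    calc g.1 * B i * (g⁻¹).1 * (g.1 * word B w * (g⁻¹).1) =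
        g.1 * B i * ((g⁻¹).1 * g.1) * (word B w * (g⁻¹).1) := by simp only [mul_assoc]
      _ = g.1 * (B i * word B w) * (g⁻¹).1 := by rw [gl_inv_mul]; simp only [mul_assoc, one_mul]

theorem trace_conj' (g : GL (Fin d) K) (B : Matrix (Fin d) (Fin d) K) :
    (g.1 * B * (g⁻¹).1).trace = B.trace := by
  rw [Matrix.trace_mul_comm, ← mul_assoc, gl_inv_mul, one_mul]

theorem continuous_word (w : List ι) :
    Continuous (fun B : ι → Matrix (Fin d) (Fin d) K => word B w) := by
  induction w with
  | nil => simp only [word, List.map_nil, List.prod_nil]; exact continuous_const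
  | cons i w ih =>
    simp only [word_cons]
    exact (continuous_apply i).mul ih

theorem continuous_trace' :
    Continuous (fun B : Matrix (Fin d) (Fin d) K => B.trace) :=
  (Matrix.traceLinearMap (Fin d) K K).continuous_of_finiteDimensional

/-- change of basis -/
theorem exists_conj_basis (b : Basis (Fin d) K (Fin d → K)) : ∃ g : GL (Fin d) K,
    ∀ M : Matrix (Fin d) (Fin d) K, LinearMap.toMatrix b b (Matrix.toLin' M) =
      g.1 * M * (g⁻¹).1 := by
  refine ⟨⟨b.toMatrix (Pi.basisFun K (Fin d)), (Pi.basisFun K (Fin d)).toMatrix b,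
    Basis.toMatrix_mul_toMatrix_flip _ _, Basis.toMatrix_mul_toMatrix_flip _ _⟩, fun M => ?_⟩
  show _ = b.toMatrix (Pi.basisFun K (Fin d)) * M * (Pi.basisFun K (Fin d)).toMatrix b
  have h1 := basis_toMatrix_mul_linearMap_toMatrix_mul_basis_toMatrix b (Pi.basisFun K (Fin d)) b
    (Pi.basisFun K (Fin d)) (Matrix.toLin' M)
  rw [← h1, LinearMap.toMatrix_eq_toMatrix', LinearMap.toMatrix'_toLin']

theorem norm_lt_of_entries {J : Type*} [Fintype J] {M : Matrix J J K} {ε : ℝ} (hε : 0 < ε)
    (h : ∀ i j, ‖M i j‖ ≤ ε) : ‖M‖ ≤ Fintype.card J * ε := by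
  rw [Matrix.linfty_opNorm_def]
  have : ((Finset.univ : Finset J).sup fun i : J => ∑ j : J, ‖M i j‖₊) ≤
      (⟨Fintype.card J * ε, by positivity⟩ : NNReal) := by
    refine Finset.sup_le fun i _ => NNReal.coe_le_coe.1 ?_
    push_cast
    calc ∑ j, ‖M i j‖ ≤ ∑ _j : J, ε := Finset.sum_le_sum fun j _ => h i j
      _ = Fintype.card J * ε := by simp
  exact_mod_cast this

theorem entry_le_norm {J : Type*} [Fintype J] (M : Matrix J J K) (i j : J) : ‖M i j‖ ≤ ‖M‖ := by
  rw [Matrix.linfty_opNorm_def]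
  have h1 : ‖M i j‖₊ ≤ ∑ j : J, ‖M i j‖₊ :=
    Finset.single_le_sum (f := fun j => ‖M i j‖₊) (fun _ _ => zero_le) (Finset.mem_univ j)
  have h2 : ∑ j : J, ‖M i j‖₊ ≤ (Finset.univ : Finset J).sup fun i : J => ∑ j : J, ‖M i j‖₊ :=
    Finset.le_sup (f := fun i : J => ∑ j : J, ‖M i j‖₊) (Finset.mem_univ i)
  exact_mod_cast h1.trans h2

/-- A tuple all of whose words have trace `0` is conjugate to arbitrarily small tuples. -/
theorem exists_small (B : ι → Matrix (Fin d) (Fin d) K)
    (h : ∀ w : List ι, w ≠ [] → (word B w).trace = 0) (ε : ℝ) (hε : 0 < ε) :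
    ∃ g : GL (Fin d) K, ∀ i, ‖g.1 * B i * (g⁻¹).1‖ < ε := by
  set S : Set (Module.End K (Fin d → K)) :=
    {x | ∃ w : List ι, w ≠ [] ∧ Matrix.toLin' (word B w) = x} with hS
  set N := Submodule.span K S with hN
  have hmul : ∀ x ∈ N, ∀ y ∈ N, x * y ∈ N := by
    intro x hx y hy
    induction hx using Submodule.span_induction with
    | mem x hx =>
      obtain ⟨w, hw, rfl⟩ := hx
      induction hy using Submodule.span_induction with
      | mem y hy =>
        obtain ⟨w', hw', rfl⟩ := hy
        refine Submodule.subset_span ⟨w ++ w', by simp [hw], ?_⟩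
        rw [word_append, Matrix.toLin'_mul]; rfl
      | zero => rw [mul_zero]; exact N.zero_mem
      | add y z _ _ h1 h2 => rw [mul_add]; exact N.add_mem h1 h2
      | smul c y _ h1 => rw [mul_smul_comm]; exact N.smul_mem c h1
    | zero => rw [zero_mul]; exact N.zero_mem
    | add y z _ _ h1 h2 => rw [add_mul]; exact N.add_mem h1 h2
    | smul c y _ h1 => rw [smul_mul_assoc]; exact N.smul_mem c h1
  have htr : ∀ x ∈ N, LinearMap.trace K (Fin d → K) x = 0 := by
    intro x hx
    induction hx using Submodule.span_induction with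
    | mem x hx =>
      obtain ⟨w, hw, rfl⟩ := hx
      rw [Matrix.trace_toLin'_eq]; exact h w hw
    | zero => exact map_zero _
    | add y z _ _ h1 h2 => rw [map_add, h1, h2, add_zero]
    | smul c y _ h1 => rw [map_smul, h1, smul_zero]
  obtain ⟨b, hb⟩ := deg_zero d (Fin d → K) (by simp) (fun i => Matrix.toLin' (B i)) N
    (fun i => Submodule.subset_span ⟨[i], by simp, by simp [word]⟩) hmul
    (nilpotent_of_trace N hmul htr) Finset.univ (ε / (d + 1)) (by positivity)
  obtain ⟨g, hg⟩ := exists_conj_basis b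
  refine ⟨g, fun i => ?_⟩
  rw [← hg]
  have h1 := norm_lt_of_entries (M := LinearMap.toMatrix b b (Matrix.toLin' (B i)))
    (ε := ε / (d + 1)) (by positivity) (fun x y => by
      have := (hb i (Finset.mem_univ i) x y).le
      simpa using this)
  refine h1.trans_lt ?_
  rw [Fintype.card_fin, mul_div_assoc', div_lt_iff₀ (by positivity)]
  nlinarith

/-- Bounded conjugation: if the traces of all words are bounded along a family of tuples of
matrices, then all tuples of the family are conjugate to tuples in a bounded set. -/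
theorem exists_bounded_conj {X : Type} (A : X → ι → Matrix (Fin d) (Fin d) K)
    (h : ∀ w : List ι, w ≠ [] → ∃ C : ℝ, ∀ n, ‖(word (A n) w).trace‖ ≤ C) :
    ∃ M : ℝ, ∀ n, ∃ g : GL (Fin d) K, ∀ i,
      ‖g.1 * A n i * (g⁻¹).1‖ ≤ M := by
  by_contra hcon
  push Not at hcon
  set cj : GL (Fin d) K → (ι → Matrix (Fin d) (Fin d) K) → (ι → Matrix (Fin d) (Fin d) K) :=
    fun g B i => g.1 * B i * (g⁻¹).1 with hcj
  have hcjm : ∀ g g' B, cj g (cj g' B) = cj (g * g') B := by
    intro g g' B
    funext i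
    simp only [hcj, _root_.mul_inv_rev, Units.val_mul, mul_assoc]
  have hlow : ∀ m : ℕ, ∃ B : ι → Matrix (Fin d) (Fin d) K, ∃ t : ℝ, (m : ℝ) + 1 ≤ t ∧
      ‖B‖ = 1 ∧ (∀ g, 1 / 2 ≤ ‖cj g B‖) ∧ ∃ n, ∀ w, (word B w).trace =
        (((t⁻¹ : ℝ) : K)) ^ w.length * (word (A n) w).trace := by
    intro m
    obtain ⟨n, hn⟩ := hcon (m + 1)
    have hn' : ∀ g, (m : ℝ) + 1 ≤ ‖cj g (A n)‖ := by
      intro g
      obtain ⟨i, hi⟩ := hn g
      exact hi.le.trans (norm_le_pi_norm (cj g (A n)) i)
    set hh := ⨅ g, ‖cj g (A n)‖ with hhh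
    have hbdd : BddBelow (Set.range fun g => ‖cj g (A n)‖) := ⟨0, by
      rintro _ ⟨g, rfl⟩; exact norm_nonneg _⟩
    have hm : (m : ℝ) + 1 ≤ hh := le_ciInf hn'
    have hlt : hh < hh + 1 := by linarith
    obtain ⟨g, hg⟩ := exists_lt_of_ciInf_lt hlt
    set t := ‖cj g (A n)‖ with ht
    have htpos : 0 < t := by have := hn' g; have := Nat.cast_nonneg (α := ℝ) m; linarith
    have ht2 : t ≤ 2 * hh := by have := Nat.cast_nonneg (α := ℝ) m; linarith
    refine ⟨fun i => ((t⁻¹ : ℝ) : K) • cj g (A n) i, t, hn' g, ?_, ?_, n, ?_⟩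
    · have : (fun i => ((t⁻¹ : ℝ) : K) • cj g (A n) i) = ((t⁻¹ : ℝ) : K) • cj g (A n) := rfl
      rw [this, norm_smul, ← ht, RCLike.norm_ofReal, abs_of_pos (inv_pos.2 htpos),
        inv_mul_cancel₀ htpos.ne']
    · intro g'
      have : cj g' (fun i => ((t⁻¹ : ℝ) : K) • cj g (A n) i) =
          ((t⁻¹ : ℝ) : K) • cj (g' * g) (A n) := by
        rw [← hcjm]
        funext i
        simp only [hcj, Pi.smul_apply, mul_smul_comm, smul_mul_assoc]
      rw [this, norm_smul, RCLike.norm_ofReal, abs_of_pos (inv_pos.2 htpos)]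
      have h1 : hh ≤ ‖cj (g' * g) (A n)‖ := ciInf_le hbdd (g' * g)
      rw [inv_mul_eq_div, le_div_iff₀ htpos]
      linarith
    · intro w
      rw [word_smul, Matrix.trace_smul, smul_eq_mul]
      congr 1
      simp only [hcj]
      rw [word_conj, trace_conj']
  choose B t ht hB1 hB2 n hn using hlow
  haveI : ProperSpace (ι → Matrix (Fin d) (Fin d) K) := FiniteDimensional.proper_rclike K _
  obtain ⟨B₀, -, φ, hφ, hlim⟩ := (isCompact_closedBall (0 : ι → Matrix (Fin d) (Fin d) K) 1).tendsto_subseq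
    (x := B) (fun m => by rw [mem_closedBall_zero_iff, hB1 m])
  have htr0 : ∀ w : List ι, w ≠ [] → (word B₀ w).trace = 0 := by
    intro w hw
    obtain ⟨C, hC⟩ := h w hw
    have h1 : Tendsto (fun m => (word (B (φ m)) w).trace) atTop (𝓝 (word B₀ w).trace) :=
      ((continuous_trace'.comp (continuous_word w)).tendsto B₀).comp hlim
    have h2 : Tendsto (fun m => (word (B (φ m)) w).trace) atTop (𝓝 0) := by
      rw [tendsto_zero_iff_norm_tendsto_zero]
      have hC0 : 0 ≤ C := (norm_nonneg _).trans (hC (n 0))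
      have hup : ∀ m, ‖(word (B (φ m)) w).trace‖ ≤ C * (1 / ((m : ℝ) + 1)) := by
        intro m
        rw [hn, norm_mul, norm_pow, RCLike.norm_ofReal]
        have htpos : 0 < t (φ m) := by
          have := ht (φ m); have := Nat.cast_nonneg (α := ℝ) (φ m); linarith
        rw [abs_of_pos (inv_pos.2 htpos), mul_comm]
        have hm : (m : ℝ) + 1 ≤ t (φ m) := by
          have h1 := ht (φ m)
          have h2 : (m : ℝ) ≤ φ m := by exact_mod_cast hφ.id_le m
          linarith
        have hle : (t (φ m))⁻¹ ≤ 1 / ((m : ℝ) + 1) := by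
          rw [← one_div]
          exact one_div_le_one_div_of_le (by positivity) hm
        have hle1 : (t (φ m))⁻¹ ≤ 1 := by
          refine hle.trans ?_
          rw [div_le_one (by positivity)]
          have := Nat.cast_nonneg (α := ℝ) m
          linarith
        have hpw : (t (φ m))⁻¹ ^ w.length ≤ (t (φ m))⁻¹ := by
          have h3 : 1 ≤ w.length := by
            rcases w with _ | ⟨i, w⟩
            · exact absurd rfl hw
            · simp
          calc (t (φ m))⁻¹ ^ w.length ≤ (t (φ m))⁻¹ ^ 1 :=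
                pow_le_pow_of_le_one (inv_pos.2 htpos).le hle1 h3
            _ = _ := pow_one _
        exact mul_le_mul (hC _) (hpw.trans hle) (by positivity) hC0
      refine squeeze_zero (fun _ => norm_nonneg _) hup ?_
      have := tendsto_one_div_add_atTop_nhds_zero_nat (𝕜 := ℝ)
      simpa using this.const_mul C
    exact tendsto_nhds_unique h1 h2
  obtain ⟨g, hg⟩ := exists_small B₀ htr0 (1 / 2) (by norm_num)
  have hg' : ‖cj g B₀‖ < 1 / 2 := by
    rw [pi_norm_lt_iff (by norm_num)]
    exact hg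
  have hcont : Continuous (fun B => ‖cj g B‖) := by
    refine continuous_norm.comp (continuous_pi fun i => ?_)
    exact (continuous_const.mul (continuous_apply i)).mul continuous_const
  have h1 : Tendsto (fun m => ‖cj g (B (φ m))‖) atTop (𝓝 ‖cj g B₀‖) := (hcont.tendsto B₀).comp hlim
  have h2 : 1 / 2 ≤ ‖cj g B₀‖ := ge_of_tendsto' h1 fun m => hB2 _ g
  linarith

end bcl

end Pool.Agent.W599.SA
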