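import Mathlib

/-!
# Simple Anosov representations of closed surface groups: definitions

A closed oriented hyperbolic surface is `S = Γ \ ℍ`, where `Γ ≅ π₁(S)` is a discrete, torsion-free,
cocompact subgroup of `SL(2, ℝ)` (the holonomy of a closed hyperbolic surface lifts from
`PSL(2, ℝ)` to `SL(2, ℝ)`).  We identify the unit tangent bundle of `ℍ` with
`PSL(2, ℝ) = SL(2, ℝ) / {1, -1}`: the class of `g` is the image under `g` of the unit tangent vector
at `I` pointing upwards.  So `T¹S = Γ \ SL(2, ℝ) / {1, -1}` and the geodesic flow is the right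
multiplication by `flow t = diag (exp (t / 2), exp (- t / 2))`.  A subset of `T¹S`, or a section over
it, is given by its preimage in `SL(2, ℝ)`.
-/

open Matrix UpperHalfPlane Topology

namespace Pool.Agent.W599.SA

/-- The group `SL(2, ℝ)`. -/
abbrev SL2 : Type := Matrix.SpecialLinearGroup (Fin 2) ℝ

/-- The matrix `diag (exp (t / 2), exp (- t / 2))`; right multiplication by it is the geodesic flow
at time `t`. -/
noncomputable def flow (t : ℝ) : SL2 :=
  ⟨!![Real.exp (t / 2), 0; 0, Real.exp (-(t / 2))], by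
    rw [det_fin_two_of, ← Real.exp_add]; simp⟩

/-- `Γ` is a discrete, torsion-free, cocompact subgroup of `SL(2, ℝ)`, that is, the fundamental group
of the closed hyperbolic surface `Γ \ ℍ`. -/
structure IsClosedSurfaceGroup (Γ : Subgroup SL2) : Prop where
  discrete : DiscreteTopology Γ
  torsionFree : ∀ γ ∈ Γ, ∀ n : ℕ, n ≠ 0 → γ ^ n = 1 → γ = 1
  cocompact : ∃ K : Set SL2, IsCompact K ∧ ∀ g : SL2, ∃ γ ∈ Γ, ∃ k ∈ K, g = γ * k

/-- The unit tangent vector `g` is tangent to a simple closed geodesic of `S = Γ \ ℍ`: for some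
`T > 0` the orbit of the geodesic flow through the class of `g` in `T¹S` is closed with period `T`,
and its projection to `S` is injective modulo `T`. -/
def TangentToSimpleClosed (Γ : Subgroup SL2) (g : SL2) : Prop :=
  ∃ T : ℝ, 0 < T ∧ (∃ γ ∈ Γ, γ * g = g * flow T ∨ γ * g = -(g * flow T)) ∧
    ∀ s t : ℝ, ∀ γ ∈ Γ, γ • ((g * flow s) • I) = (g * flow t) • I → ∃ n : ℤ, t - s = n * T

/-- The (preimage in `SL(2, ℝ)` of the) Birman-Series set: the closure of the union of all simple
closed geodesics. -/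
def BirmanSeries (Γ : Subgroup SL2) : Set SL2 := closure {g | TangentToSimpleClosed Γ g}

/-- `P` is a continuous splitting `E^u ⊕ E^s`, with `rank E^u = k`, invariant under the flow, of the
restriction to the Birman-Series set of the flat bundle of `ρ`.  The bundle is the quotient of
`SL(2, ℝ) × ℂ^d` by `(g, v) ~ (γ g, ρ(γ) v)`, `(g, v) ~ (-g, v)`, and the flow is
`(g, v) ↦ (g * flow t, v)`.  The splitting is given by the projections `P g` with image `E^u` and
kernel `E^s`. -/
structure IsSplitting (Γ : Subgroup SL2) {d : ℕ} (k : ℕ) (ρ : Γ →* Matrix.SpecialLinearGroup (Fin d) ℂ)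
    (P : SL2 → Matrix (Fin d) (Fin d) ℂ) : Prop where
  continuous : ContinuousOn P (BirmanSeries Γ)
  idem : ∀ g ∈ BirmanSeries Γ, P g * P g = P g
  rank : ∀ g ∈ BirmanSeries Γ, (P g).rank = k
  equivariant : ∀ g ∈ BirmanSeries Γ, ∀ γ : Γ,
    P (γ * g) = (ρ γ : Matrix (Fin d) (Fin d) ℂ) * P g * ((ρ γ)⁻¹ : Matrix.SpecialLinearGroup (Fin d) ℂ)
  neg : ∀ g ∈ BirmanSeries Γ, P (-g) = P g
  flow_invariant : ∀ g ∈ BirmanSeries Γ, ∀ t : ℝ, P (g * flow t) = P g

/-- `N` is a norm on `ℂ^d`. -/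
structure IsNorm {d : ℕ} (N : (Fin d → ℂ) → ℝ) : Prop where
  nonneg : ∀ v, 0 ≤ N v
  eq_zero : ∀ v, N v = 0 → v = 0
  smul : ∀ (c : ℂ) v, N (c • v) = ‖c‖ * N v
  add_le : ∀ v w, N (v + w) ≤ N v + N w

/-- `N` is a continuous metric on the restriction to the Birman-Series set of the flat bundle
of `ρ`. -/
structure IsMetric (Γ : Subgroup SL2) {d : ℕ} (ρ : Γ →* Matrix.SpecialLinearGroup (Fin d) ℂ)
    (N : SL2 → (Fin d → ℂ) → ℝ) : Prop where
  norm : ∀ g ∈ BirmanSeries Γ, IsNorm (N g)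
  continuous : ContinuousOn (fun p : SL2 × (Fin d → ℂ) => N p.1 p.2) (BirmanSeries Γ ×ˢ Set.univ)
  equivariant : ∀ g ∈ BirmanSeries Γ, ∀ (γ : Γ) v,
    N (γ * g) ((ρ γ : Matrix (Fin d) (Fin d) ℂ) *ᵥ v) = N g v
  neg : ∀ g ∈ BirmanSeries Γ, ∀ v, N (-g) v = N g v

/-- `ρ` is simple `k`-Anosov: the restriction of its flat bundle to the Birman-Series set has a
dominated splitting of rank `k`. -/
def IsSimpleAnosov (Γ : Subgroup SL2) {d : ℕ} (k : ℕ) (ρ : Γ →* Matrix.SpecialLinearGroup (Fin d) ℂ) :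
    Prop :=
  ∃ (P : SL2 → Matrix (Fin d) (Fin d) ℂ) (N : SL2 → (Fin d → ℂ) → ℝ) (C c : ℝ),
    IsSplitting Γ k ρ P ∧ IsMetric Γ ρ N ∧ 0 < C ∧ 0 < c ∧
      ∀ g ∈ BirmanSeries Γ, ∀ v w : Fin d → ℂ, v ≠ 0 → w ≠ 0 → P g *ᵥ v = v → P g *ᵥ w = 0 →
        ∀ t : ℝ, 0 ≤ t →
          N (g * flow t) w / N g w ≤ C * Real.exp (-c * t) * (N (g * flow t) v / N g v)

/-- The character variety `χ(Γ, SL(d, ℂ))`: the space of characters `γ ↦ tr ρ(γ)` of the
representations `ρ : Γ → SL(d, ℂ)`, with the topology of pointwise convergence.  (Two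
representations have the same image in the GIT quotient of `Hom(Γ, SL(d, ℂ))` if and only if they
have the same character, and the trace functions generate the ring of invariants.) -/
def CharVar (Γ : Subgroup SL2) (d : ℕ) : Type :=
  {x : Γ → ℂ // ∃ ρ : Γ →* Matrix.SpecialLinearGroup (Fin d) ℂ,
    ∀ γ, x γ = (ρ γ : Matrix (Fin d) (Fin d) ℂ).trace}

instance (Γ : Subgroup SL2) (d : ℕ) : TopologicalSpace (CharVar Γ d) :=
  inferInstanceAs (TopologicalSpace (Subtype _))

/-- The action of the automorphisms of `Γ` on the character variety by precomposition. -/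
def twist {Γ : Subgroup SL2} {d : ℕ} (φ : MulAut Γ) (x : CharVar Γ d) : CharVar Γ d :=
  ⟨fun γ => x.1 (φ⁻¹ γ), by
    obtain ⟨ρ, hρ⟩ := x.2
    exact ⟨ρ.comp (φ⁻¹ : MulAut Γ).toMonoidHom, fun γ => hρ _⟩⟩

/-- The mapping class group `Mod(S) = Out(Γ)`. -/
abbrev Out (Γ : Subgroup SL2) : Type := MulAut Γ ⧸ (MulAut.conj : Γ →* MulAut Γ).range

/-- `U` is a domain of discontinuity: an open subset of the character variety, invariant under the
mapping class group, on which the mapping class group acts properly discontinuously (for each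
compact subset `K` of `U` only finitely many mapping classes `φ` satisfy `φ K ∩ K ≠ ∅`). -/
structure IsDomainOfDiscontinuity (Γ : Subgroup SL2) (d : ℕ) (U : Set (CharVar Γ d)) : Prop where
  isOpen : IsOpen U
  invariant : ∀ (φ : MulAut Γ), ∀ x ∈ U, twist φ x ∈ U
  discontinuous : ∀ K : Set (CharVar Γ d), K ⊆ U → IsCompact K →
    ((fun φ : MulAut Γ => (φ : Out Γ)) '' {φ | ∃ x ∈ K, twist φ x ∈ K}).Finite

/-- The simple `k`-Anosov domain: the set of the points of the character variety given by simple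
`k`-Anosov representations. -/
def simpleAnosovDomain (Γ : Subgroup SL2) (d k : ℕ) : Set (CharVar Γ d) :=
  {x | ∃ ρ : Γ →* Matrix.SpecialLinearGroup (Fin d) ℂ, IsSimpleAnosov Γ k ρ ∧
    ∀ γ, x.1 γ = (ρ γ : Matrix (Fin d) (Fin d) ℂ).trace}

end Pool.Agent.W599.SA
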