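import Pool.Agent.W599.SA.Defs

/-!
# Discrete cocompact subgroups of `SL(2, ℝ)`
-/

open Matrix Topology

namespace Pool.Agent.W599.SA

/-- all entries are at most `M` in absolute value -/
def Bd (M : ℝ) (g : SL2) : Prop := ∀ i j, |g i j| ≤ M

theorem sl2_det (g : SL2) : g 0 0 * g 1 1 - g 0 1 * g 1 0 = 1 := by
  have := g.2
  rwa [det_fin_two] at this

theorem sl2_inv (g : SL2) : (g⁻¹ : SL2) 0 0 = g 1 1 ∧ (g⁻¹ : SL2) 0 1 = - g 0 1 ∧
    (g⁻¹ : SL2) 1 0 = - g 1 0 ∧ (g⁻¹ : SL2) 1 1 = g 0 0 := by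
  have h : ((g⁻¹ : SL2) : Matrix (Fin 2) (Fin 2) ℝ) = adjugate g := Matrix.SpecialLinearGroup.coe_inv g
  rw [adjugate_fin_two] at h
  refine ⟨?_, ?_, ?_, ?_⟩ <;> · rw [h]; simp

theorem sl2_mul (g h : SL2) (i j : Fin 2) : (g * h) i j = g i 0 * h 0 j + g i 1 * h 1 j := by
  rw [Matrix.SpecialLinearGroup.coe_mul, Matrix.mul_apply, Fin.sum_univ_two]

theorem Bd.inv {M : ℝ} {g : SL2} (h : Bd M g) : Bd M g⁻¹ := by
  obtain ⟨h1, h2, h3, h4⟩ := sl2_inv g
  intro i j
  fin_cases i <;> fin_cases j <;> simp only [Fin.zero_eta, Fin.mk_one, Fin.isValue]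
  · rw [h1]; exact h _ _
  · rw [h2, abs_neg]; exact h _ _
  · rw [h3, abs_neg]; exact h _ _
  · rw [h4]; exact h _ _

theorem Bd.mul {M N : ℝ} {g h : SL2} (hg : Bd M g) (hh : Bd N h) : Bd (2 * M * N) (g * h) := by
  intro i j
  rw [sl2_mul]
  have hM : 0 ≤ M := (abs_nonneg _).trans (hg 0 0)
  calc |g i 0 * h 0 j + g i 1 * h 1 j| ≤ |g i 0 * h 0 j| + |g i 1 * h 1 j| := abs_add_le _ _
    _ ≤ M * N + M * N := by
      rw [abs_mul, abs_mul]
      exact add_le_add (mul_le_mul (hg _ _) (hh _ _) (abs_nonneg _) hM)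
        (mul_le_mul (hg _ _) (hh _ _) (abs_nonneg _) hM)
    _ = 2 * M * N := by ring

theorem Bd.mono {M N : ℝ} {g : SL2} (h : Bd M g) (hMN : M ≤ N) : Bd N g :=
  fun i j => (h i j).trans hMN

theorem Bd.neg {M : ℝ} {g : SL2} (h : Bd M g) : Bd M (-g) := by
  intro i j
  rw [Matrix.SpecialLinearGroup.coe_neg, Matrix.neg_apply, abs_neg]
  exact h i j

theorem continuous_entry (i j : Fin 2) : Continuous (fun g : SL2 => g i j) :=
  (continuous_apply j).comp ((continuous_apply i).comp continuous_subtype_val)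

theorem bd_of_compact {K : Set SL2} (hK : IsCompact K) : ∃ M : ℝ, 1 ≤ M ∧ ∀ k ∈ K, Bd M k := by
  have h : ∀ i j : Fin 2, ∃ C, ∀ k ∈ K, ‖k i j‖ ≤ C := fun i j =>
    hK.exists_bound_of_continuousOn (continuous_entry i j).continuousOn
  choose C hC using h
  refine ⟨1 + ∑ i, ∑ j, |C i j|, by
    have : 0 ≤ ∑ i, ∑ j, |C i j| := Finset.sum_nonneg fun _ _ => Finset.sum_nonneg fun _ _ =>
      abs_nonneg _
    linarith, fun k hk i j => ?_⟩
  have h1 : |k i j| ≤ |C i j| := ((hC i j k hk).trans (le_abs_self _))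
  have h2 : |C i j| ≤ ∑ j, |C i j| :=
    Finset.single_le_sum (f := fun j => |C i j|) (fun _ _ => abs_nonneg _) (Finset.mem_univ j)
  have h3 : ∑ j, |C i j| ≤ ∑ i, ∑ j, |C i j| :=
    Finset.single_le_sum (f := fun i => ∑ j, |C i j|)
      (fun _ _ => Finset.sum_nonneg fun _ _ => abs_nonneg _) (Finset.mem_univ i)
  linarith

theorem isCompact_bd (M : ℝ) : IsCompact {g : SL2 | Bd M g} := by
  have h1 : IsCompact (Set.pi Set.univ fun _ : Fin 2 => Set.pi Set.univ fun _ : Fin 2 =>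
      Set.Icc (-M) M : Set (Fin 2 → Fin 2 → ℝ)) :=
    isCompact_univ_pi fun _ => isCompact_univ_pi fun _ => isCompact_Icc
  have h2 : IsClosedEmbedding ((↑) : SL2 → Matrix (Fin 2) (Fin 2) ℝ) :=
    Matrix.SpecialLinearGroup.isClosedEmbedding_val
  have h3 := h2.isCompact_preimage (K := (Set.pi Set.univ fun _ : Fin 2 => Set.pi Set.univ
    fun _ : Fin 2 => Set.Icc (-M) M : Set (Fin 2 → Fin 2 → ℝ))) h1
  have h4 : {g : SL2 | Bd M g} = ((↑) : SL2 → Matrix (Fin 2) (Fin 2) ℝ) ⁻¹'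
      (Set.pi Set.univ fun _ : Fin 2 => Set.pi Set.univ
    fun _ : Fin 2 => Set.Icc (-M) M : Set (Fin 2 → Fin 2 → ℝ)) := by
    refine Set.ext fun g => ⟨fun h i _ j _ => abs_le.1 (h i j), fun h i j => abs_le.2 ?_⟩
    exact h i (Set.mem_univ _) j (Set.mem_univ _)
  rw [h4]
  exact h3

variable {Γ : Subgroup SL2}

theorem finite_bd (hΓ : DiscreteTopology Γ) (M : ℝ) : {γ : Γ | Bd M γ}.Finite := by
  have h1 : IsClosed (Γ : Set SL2) := Subgroup.isClosed_of_discrete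
  have h2 : IsCompact {γ : Γ | Bd M γ} :=
    h1.isClosedEmbedding_subtypeVal.isCompact_preimage (isCompact_bd M)
  exact h2.finite_of_discrete

theorem cocompact_bd (hΓ : IsClosedSurfaceGroup Γ) : ∃ M : ℝ, 1 ≤ M ∧ ∀ g : SL2,
    ∃ γ ∈ Γ, ∃ k : SL2, Bd M k ∧ g = γ * k := by
  obtain ⟨K, hK, hc⟩ := hΓ.cocompact
  obtain ⟨M, hM, hb⟩ := bd_of_compact hK
  refine ⟨M, hM, fun g => ?_⟩
  obtain ⟨γ, hγ, k, hk, h⟩ := hc g
  exact ⟨γ, hγ, k, hb k hk, h⟩

/-! ### `SL(2, ℝ)` is connected -/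

/-- upper unipotent -/
def up (x : ℝ) : SL2 := ⟨!![1, x; 0, 1], by simp [det_fin_two_of]⟩

/-- lower unipotent -/
def lo (x : ℝ) : SL2 := ⟨!![1, 0; x, 1], by simp [det_fin_two_of]⟩

@[simp] theorem up00 (x : ℝ) : (up x) 0 0 = 1 := rfl
@[simp] theorem up01 (x : ℝ) : (up x) 0 1 = x := rfl
@[simp] theorem up10 (x : ℝ) : (up x) 1 0 = 0 := rfl
@[simp] theorem up11 (x : ℝ) : (up x) 1 1 = 1 := rfl
@[simp] theorem lo00 (x : ℝ) : (lo x) 0 0 = 1 := rfl
@[simp] theorem lo01 (x : ℝ) : (lo x) 0 1 = 0 := rfl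
@[simp] theorem lo10 (x : ℝ) : (lo x) 1 0 = x := rfl
@[simp] theorem lo11 (x : ℝ) : (lo x) 1 1 = 1 := rfl

theorem sl2_ext {g h : SL2} (h00 : g 0 0 = h 0 0) (h01 : g 0 1 = h 0 1) (h10 : g 1 0 = h 1 0)
    (h11 : g 1 1 = h 1 1) : g = h := by
  refine Matrix.SpecialLinearGroup.ext _ _ fun i j => ?_
  fin_cases i <;> fin_cases j <;> assumption

theorem continuous_up : Continuous up := by
  refine continuous_induced_rng.2 (continuous_matrix fun i j => ?_)
  show Continuous fun x => (up x) i j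
  fin_cases i <;> fin_cases j <;> simp [up, continuous_const, continuous_id']

theorem continuous_lo : Continuous lo := by
  refine continuous_induced_rng.2 (continuous_matrix fun i j => ?_)
  show Continuous fun x => (lo x) i j
  fin_cases i <;> fin_cases j <;> simp [lo, continuous_const, continuous_id']

theorem exists_factor (g : SL2) (hc : g 1 0 ≠ 0) :
    g = up ((g 0 0 - 1) / g 1 0) * lo (g 1 0) * up ((g 1 1 - 1) / g 1 0) := by
  have hd := sl2_det g
  refine sl2_ext ?_ ?_ ?_ ?_ <;>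
    simp only [sl2_mul, up00, up01, up10, up11, lo00, lo01, lo10, lo11] <;> field_simp <;> linarith

theorem connected_sl2 : ConnectedSpace SL2 := by
  have hcont : Continuous (fun p : ℝ × ℝ × ℝ × ℝ => up p.1 * lo p.2.1 * up p.2.2.1 * lo p.2.2.2) :=
    (((continuous_up.comp continuous_fst).mul
      (continuous_lo.comp (continuous_fst.comp continuous_snd))).mul
      (continuous_up.comp (continuous_fst.comp (continuous_snd.comp continuous_snd)))).mul
      (continuous_lo.comp (continuous_snd.comp (continuous_snd.comp continuous_snd)))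
  refine Function.Surjective.connectedSpace (f := fun p : ℝ × ℝ × ℝ × ℝ =>
    up p.1 * lo p.2.1 * up p.2.2.1 * lo p.2.2.2) ?_ hcont
  intro g
  by_cases hc : g 1 0 = 0
  · have hlo : lo 1 * lo (-1) = 1 := by
      refine sl2_ext ?_ ?_ ?_ ?_ <;> rw [sl2_mul] <;> simp
    set g' := g * lo 1 with hg'
    have h1 : g' 1 0 = g 1 1 := by rw [hg', sl2_mul, hc]; simp
    have hd := sl2_det g
    rw [hc, mul_zero, sub_zero] at hd
    have hne : g' 1 0 ≠ 0 := by
      rw [h1]; intro h0; rw [h0, mul_zero] at hd; exact zero_ne_one hd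
    refine ⟨((g' 0 0 - 1) / g' 1 0, g' 1 0, (g' 1 1 - 1) / g' 1 0, -1), ?_⟩
    simp only
    rw [← exists_factor g' hne, hg', mul_assoc, hlo, mul_one]
  · refine ⟨((g 0 0 - 1) / g 1 0, g 1 0, (g 1 1 - 1) / g 1 0, 0), ?_⟩
    simp only
    rw [← exists_factor g hc]
    have : lo 0 = 1 := by
      refine sl2_ext ?_ ?_ ?_ ?_ <;> simp
    rw [this, mul_one]

/-- A discrete cocompact subgroup is finitely generated. -/
theorem exists_generators (hΓ : IsClosedSurfaceGroup Γ) :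
    ∃ S : Finset Γ, (∀ s ∈ S, s⁻¹ ∈ S) ∧ Submonoid.closure (S : Set Γ) = ⊤ := by
  classical
  obtain ⟨M, hM, hc⟩ := cocompact_bd hΓ
  set U : Set SL2 := {g | ∀ i j, |g i j| < M + 1} with hU
  have hUo : IsOpen U := by
    have : U = ⋂ i : Fin 2, ⋂ j : Fin 2, {g : SL2 | |g i j| < M + 1} := by
      ext g; simp [hU]
    rw [this]
    exact isOpen_iInter_of_finite fun i => isOpen_iInter_of_finite fun j =>
      isOpen_lt (continuous_abs.comp (continuous_entry i j)) continuous_const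
  have hUb : ∀ g ∈ U, Bd (M + 1) g := fun g hg i j => (hg i j).le
  have hUk : ∀ k, Bd M k → k ∈ U := fun k hk i j => by have := hk i j; linarith
  set S := (finite_bd hΓ.discrete (2 * (M + 1) * (M + 1))).toFinset with hS
  have hSm : ∀ γ : Γ, γ ∈ S ↔ Bd (2 * (M + 1) * (M + 1)) γ := fun γ => by simp [hS]
  have hSinv : ∀ s ∈ S, s⁻¹ ∈ S := by
    intro s hs
    rw [hSm] at hs ⊢
    exact hs.inv
  refine ⟨S, hSinv, ?_⟩
  set P := Submonoid.closure (S : Set Γ) with hP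
  have hPinv : ∀ p ∈ P, p⁻¹ ∈ P := by
    intro p hp
    induction hp using Submonoid.closure_induction with
    | mem x hx => exact Submonoid.subset_closure (hSinv x hx)
    | one => rw [inv_one]; exact P.one_mem
    | mul x y _ _ h1 h2 => rw [_root_.mul_inv_rev]; exact P.mul_mem h2 h1
  have key : ∀ γ γ' : Γ, ∀ u ∈ U, ∀ u' ∈ U, (γ : SL2) * u = γ' * u' → γ ∈ P → γ' ∈ P := by
    intro γ γ' u hu u' hu' h hγ
    have h1 : ((γ⁻¹ * γ' : Γ) : SL2) = u * u'⁻¹ := by
      rw [Subgroup.coe_mul, Subgroup.coe_inv, eq_mul_inv_iff_mul_eq, mul_assoc, ← h]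
      group
    have h2 : γ⁻¹ * γ' ∈ S := by
      rw [hSm, h1]
      exact (hUb u hu).mul (hUb u' hu').inv
    have h3 : γ' = γ * (γ⁻¹ * γ') := by group
    rw [h3]
    exact P.mul_mem hγ (Submonoid.subset_closure h2)
  set O₁ : Set SL2 := ⋃ γ : Γ, ⋃ _ : γ ∈ P, (fun u => (γ : SL2) * u) '' U with hO₁
  set O₂ : Set SL2 := ⋃ γ : Γ, ⋃ _ : γ ∉ P, (fun u => (γ : SL2) * u) '' U with hO₂
  have ho : ∀ γ : Γ, IsOpen ((fun u => (γ : SL2) * u) '' U) := fun γ =>
    (Homeomorph.mulLeft (γ : SL2)).isOpenMap U hUo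
  have ho1 : IsOpen O₁ := isOpen_iUnion fun γ => isOpen_iUnion fun _ => ho γ
  have ho2 : IsOpen O₂ := isOpen_iUnion fun γ => isOpen_iUnion fun _ => ho γ
  have hcov : O₁ ∪ O₂ = Set.univ := by
    rw [Set.eq_univ_iff_forall]
    intro g
    obtain ⟨γ, hγ, k, hk, rfl⟩ := hc g
    by_cases hp : (⟨γ, hγ⟩ : Γ) ∈ P
    · left
      simp only [hO₁, Set.mem_iUnion]
      exact ⟨⟨γ, hγ⟩, hp, k, hUk k hk, rfl⟩
    · right
      simp only [hO₂, Set.mem_iUnion]
      exact ⟨⟨γ, hγ⟩, hp, k, hUk k hk, rfl⟩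
  have hdis : Disjoint O₁ O₂ := by
    rw [Set.disjoint_left]
    intro g h1 h2
    simp only [hO₁, hO₂, Set.mem_iUnion] at h1 h2
    obtain ⟨γ, hγ, u, hu, rfl⟩ := h1
    obtain ⟨γ', hγ', u', hu', h⟩ := h2
    exact hγ' (key γ γ' u hu u' hu' h.symm hγ)
  have hclosed : IsClopen O₁ := by
    refine ⟨?_, ho1⟩
    have : O₁ = O₂ᶜ := by
      apply Set.Subset.antisymm
      · exact Set.subset_compl_iff_disjoint_right.2 hdis
      · intro g hg
        have := Set.mem_univ g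
        rw [← hcov] at this
        exact this.resolve_right hg
    rw [this]
    exact ho2.isClosed_compl
  have hcon := connected_sl2
  have h1 : (1 : SL2) ∈ O₁ := by
    simp only [hO₁, Set.mem_iUnion]
    refine ⟨1, P.one_mem, 1, ?_, by simp⟩
    intro i j
    fin_cases i <;> fin_cases j <;> simp <;> linarith
  have huniv : O₁ = Set.univ := IsClopen.eq_univ hclosed ⟨1, h1⟩
  rw [eq_top_iff]
  intro γ _
  by_contra hγ
  have h2 : (γ : SL2) ∈ O₂ := by
    simp only [hO₂, Set.mem_iUnion]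
    refine ⟨γ, hγ, 1, ?_, by simp⟩
    intro i j
    fin_cases i <;> fin_cases j <;> simp <;> linarith
  exact Set.disjoint_left.1 hdis (by rw [huniv]; exact Set.mem_univ _) h2

end Pool.Agent.W599.SA
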