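import Pool.Agent.W599.SA.Fuchs

/-!
# Hyperbolic elements of a closed surface group
-/

open Matrix Topology UpperHalfPlane

namespace Pool.Agent.W599.SA

@[simp] theorem flow00 (t : ℝ) : (flow t) 0 0 = Real.exp (t / 2) := rfl
@[simp] theorem flow01 (t : ℝ) : (flow t) 0 1 = 0 := rfl
@[simp] theorem flow10 (t : ℝ) : (flow t) 1 0 = 0 := rfl
@[simp] theorem flow11 (t : ℝ) : (flow t) 1 1 = Real.exp (-(t / 2)) := rfl

theorem neg_apply' (g : SL2) (i j : Fin 2) : (-g) i j = -(g i j) := rfl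

theorem flow_add (s t : ℝ) : flow (s + t) = flow s * flow t := by
  refine sl2_ext ?_ ?_ ?_ ?_ <;>
    simp only [sl2_mul, flow00, flow01, flow10, flow11, mul_zero, zero_mul, add_zero, zero_add] <;>
    rw [← Real.exp_add] <;> congr 1 <;> ring

theorem flow_zero : flow 0 = 1 := by
  refine sl2_ext ?_ ?_ ?_ ?_ <;> simp

theorem flow_inv (t : ℝ) : (flow t)⁻¹ = flow (-t) := by
  rw [inv_eq_iff_mul_eq_one, ← flow_add]
  simp [flow_zero]

/-- the trace -/
def tr (g : SL2) : ℝ := g 0 0 + g 1 1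

theorem tr_mul_comm (g h : SL2) : tr (g * h) = tr (h * g) := by
  simp only [tr, sl2_mul]; ring

theorem tr_conj (g h : SL2) : tr (h⁻¹ * g * h) = tr g := by
  rw [tr_mul_comm, ← mul_assoc, mul_inv_cancel, one_mul]

theorem tr_neg (g : SL2) : tr (-g) = -tr g := by
  simp only [tr, neg_apply']; ring

theorem tr_flow (t : ℝ) : tr (flow t) = Real.exp (t / 2) + Real.exp (-(t / 2)) := rfl

/-- eigenvector -/
theorem exists_eigvec (g : SL2) (μ : ℝ) (hμ : μ ^ 2 - tr g * μ + 1 = 0) :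
    ∃ v0 v1 : ℝ, (v0 ≠ 0 ∨ v1 ≠ 0) ∧ g 0 0 * v0 + g 0 1 * v1 = μ * v0 ∧
      g 1 0 * v0 + g 1 1 * v1 = μ * v1 := by
  have hd := sl2_det g
  unfold tr at hμ
  by_cases h1 : g 0 1 = 0 ∧ g 0 0 = μ
  · by_cases h2 : g 1 0 = 0 ∧ g 1 1 = μ
    · exact ⟨1, 0, Or.inl one_ne_zero, by rw [h1.1, h1.2]; ring, by rw [h2.1]; ring⟩
    · refine ⟨μ - g 1 1, g 1 0, ?_, ?_, ?_⟩
      · by_contra hcon
        push Not at hcon
        exact h2 ⟨hcon.2, by linarith [hcon.1]⟩
      · rw [h1.1, h1.2]; ring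
      · ring
  · refine ⟨g 0 1, μ - g 0 0, ?_, ?_, ?_⟩
    · by_contra hcon
      push Not at hcon
      exact h1 ⟨hcon.1, by linarith [hcon.2]⟩
    · ring
    · linear_combination (-1 : ℝ) * hd - hμ

theorem exists_diag_pos (g : SL2) (hg : 2 < tr g) : ∃ (h : SL2) (T : ℝ), 0 < T ∧
    g * h = h * flow T := by
  set r := Real.sqrt (tr g ^ 2 - 4) with hr
  have hr2 : r ^ 2 = tr g ^ 2 - 4 := Real.sq_sqrt (by nlinarith)
  have hrpos : 0 < r := Real.sqrt_pos.2 (by nlinarith)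
  set l := (tr g + r) / 2 with hl
  set m := (tr g - r) / 2 with hm
  have hlm : l * m = 1 := by rw [hl, hm]; nlinarith
  have hl1 : 1 < l := by rw [hl]; linarith
  have hl0 : 0 < l := by linarith
  have hm' : m = l⁻¹ := eq_inv_of_mul_eq_one_right hlm
  obtain ⟨v0, v1, hv, hv0, hv1⟩ := exists_eigvec g l (by rw [hl]; nlinarith)
  obtain ⟨w0, w1, hw, hw0, hw1⟩ := exists_eigvec g m (by rw [hm]; nlinarith)
  have hlm' : l - m ≠ 0 := by rw [hl, hm]; intro h; linarith
  set D := v0 * w1 - v1 * w0 with hDdef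
  have hD : D ≠ 0 := by
    intro hD
    have e1 : (l - m) * (v0 * w0) = 0 := by
      linear_combination w0 * (-hv0) + v0 * hw0 - g 0 1 * hD
    have e2 : (l - m) * (v1 * w1) = 0 := by
      linear_combination w1 * (-hv1) + v1 * hw1 + g 1 0 * hD
    have f1 := (mul_eq_zero.1 e1).resolve_left hlm'
    have f2 := (mul_eq_zero.1 e2).resolve_left hlm'
    rcases hv with hv | hv
    · have g1 := (mul_eq_zero.1 f1).resolve_left hv
      have g2 : v0 * w1 = 0 := by rw [hDdef, g1] at hD; linarith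
      have g3 := (mul_eq_zero.1 g2).resolve_left hv
      rcases hw with hw | hw
      · exact hw g1
      · exact hw g3
    · have g1 := (mul_eq_zero.1 f2).resolve_left hv
      have g2 : v1 * w0 = 0 := by rw [hDdef, g1] at hD; linarith
      have g3 := (mul_eq_zero.1 g2).resolve_left hv
      rcases hw with hw | hw
      · exact hw g3
      · exact hw g1
  set T := 2 * Real.log l with hT
  have hT1 : Real.exp (T / 2) = l := by
    rw [hT, mul_div_cancel_left₀ _ (by norm_num : (2 : ℝ) ≠ 0), Real.exp_log hl0]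
  have hT2 : Real.exp (-(T / 2)) = m := by rw [Real.exp_neg, hT1, hm']
  refine ⟨⟨!![v0, w0 / D; v1, w1 / D], ?_⟩, T, ?_, ?_⟩
  · rw [det_fin_two_of]
    field_simp
    rw [hDdef]; ring
  · rw [hT]; have := Real.log_pos hl1; linarith
  · set h : SL2 := ⟨!![v0, w0 / D; v1, w1 / D], _⟩ with hh
    have h00 : h 0 0 = v0 := rfl
    have h01 : h 0 1 = w0 / D := rfl
    have h10 : h 1 0 = v1 := rfl
    have h11 : h 1 1 = w1 / D := rfl
    clear_value h
    refine sl2_ext ?_ ?_ ?_ ?_ <;>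
      simp only [sl2_mul, h00, h01, h10, h11, flow00, flow01, flow10, flow11, hT1, hT2, mul_zero,
        add_zero, zero_add]
    · rw [hv0]; ring
    · have : g 0 0 * (w0 / D) + g 0 1 * (w1 / D) = (g 0 0 * w0 + g 0 1 * w1) / D := by ring
      rw [this, hw0]; ring
    · rw [hv1]; ring
    · have : g 1 0 * (w0 / D) + g 1 1 * (w1 / D) = (g 1 0 * w0 + g 1 1 * w1) / D := by ring
      rw [this, hw1]; ring

theorem exists_diag (g : SL2) (hg : 2 < |tr g|) : ∃ (h : SL2) (T : ℝ), 0 < T ∧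
    (g * h = h * flow T ∨ g * h = -(h * flow T)) := by
  rcases lt_abs.1 hg with h1 | h1
  · obtain ⟨h, T, hT, h2⟩ := exists_diag_pos g h1
    exact ⟨h, T, hT, Or.inl h2⟩
  · obtain ⟨h, T, hT, h2⟩ := exists_diag_pos (-g) (by rw [tr_neg]; exact h1)
    refine ⟨h, T, hT, Or.inr ?_⟩
    rw [← h2, neg_mul, neg_neg]

/-- unipotent normal form -/
theorem exists_unip (g : SL2) (hg : tr g = 2) : ∃ (h : SL2) (x : ℝ), g * h = h * up x := by
  obtain ⟨v0, v1, hv, hv0, hv1⟩ := exists_eigvec g 1 (by rw [hg]; norm_num)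
  set D := v0 ^ 2 + v1 ^ 2 with hD
  have hDpos : 0 < D := by
    rw [hD]
    rcases hv with h | h <;> positivity
  have hd := sl2_det g
  unfold tr at hg
  set h : SL2 := ⟨!![v0, -v1 / D; v1, v0 / D], by
    rw [det_fin_two_of]; field_simp; rw [hD]; ring⟩ with hh
  have h00 : h 0 0 = v0 := rfl
  have h01 : h 0 1 = -v1 / D := rfl
  have h10 : h 1 0 = v1 := rfl
  have h11 : h 1 1 = v0 / D := rfl
  clear_value h
  set m := h⁻¹ * g * h with hm
  have hgm : g * h = h * m := by rw [hm]; group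
  have e0 : g * h = h * m := hgm
  -- entries of m
  have k1 : m 0 0 = 1 ∧ m 1 0 = 0 := by
    obtain ⟨i00, i01, i10, i11⟩ := sl2_inv h
    have a1 : (g * h) 0 0 = v0 := by rw [sl2_mul, h00, h10, hv0, one_mul]
    have a2 : (g * h) 1 0 = v1 := by rw [sl2_mul, h00, h10, hv1, one_mul]
    have hdh := sl2_det h
    constructor
    · rw [hm, mul_assoc, sl2_mul, a1, a2, i00, i01]
      rw [h00, h10] at hdh
      linarith
    · rw [hm, mul_assoc, sl2_mul, a1, a2, i10, i11, h00, h10]; ring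
  have hdm := sl2_det m
  have htm : tr m = tr g := by rw [hm, tr_conj]
  refine ⟨h, m 0 1, ?_⟩
  rw [hgm]
  congr 1
  refine sl2_ext ?_ ?_ ?_ ?_
  · rw [k1.1]; simp
  · simp
  · rw [k1.2]; simp
  · rw [k1.1, k1.2] at hdm
    rw [up11]; linarith

variable {Γ : Subgroup SL2}

/-- elements near the identity are trivial -/
theorem exists_disc (hΓ : DiscreteTopology Γ) : ∃ δ : ℝ, 0 < δ ∧ ∀ γ ∈ Γ,
    (∀ i j, |γ i j - (1 : SL2) i j| < δ) → γ = 1 := by
  have hfin := finite_bd hΓ 2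
  have h1 : ∀ᶠ δ : ℝ in nhdsWithin 0 (Set.Ioi 0), ∀ γ ∈ {γ : Γ | Bd 2 γ},
      (∀ i j, |(γ : SL2) i j - (1 : SL2) i j| < δ) → γ = 1 := by
    rw [Filter.eventually_all_finite hfin]
    intro γ _
    by_cases hγ : γ = 1
    · exact Filter.Eventually.of_forall fun _ _ => hγ
    · obtain ⟨i, j, hij⟩ : ∃ i j, (γ : SL2) i j ≠ (1 : SL2) i j := by
        by_contra hcon
        push Not at hcon
        exact hγ (Subtype.ext (Matrix.SpecialLinearGroup.ext _ _ hcon))
      have hpos : 0 < |(γ : SL2) i j - (1 : SL2) i j| := abs_pos.2 (sub_ne_zero.2 hij)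
      have := Ioo_mem_nhdsGT hpos
      filter_upwards [this] with δ hδ h
      exact absurd (h i j) (not_lt.2 hδ.2.le)
  have h2 : ∀ᶠ δ : ℝ in nhdsWithin 0 (Set.Ioi 0), 0 < δ ∧ δ < 1 := by
    filter_upwards [Ioo_mem_nhdsGT (zero_lt_one (α := ℝ))] with δ hδ using hδ
  obtain ⟨δ, hδ1, hδ2⟩ := (h1.and h2).exists
  refine ⟨δ, hδ2.1, fun γ hγ h => ?_⟩
  have hb : Bd 2 γ := by
    intro i j
    have h3 := h i j
    have h4 : |(1 : SL2) i j| ≤ 1 := by fin_cases i <;> fin_cases j <;> simp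
    have h5 : |γ i j| ≤ |γ i j - (1 : SL2) i j| + |(1 : SL2) i j| := by
      have := abs_add_le (γ i j - (1 : SL2) i j) ((1 : SL2) i j)
      simpa using this
    linarith [hδ2.2]
  have := hδ1 ⟨γ, hγ⟩ hb h
  exact congrArg Subtype.val this

theorem flow_neg_up (x t : ℝ) : flow (-t) * up x * flow t = up (x * Real.exp (-t)) := by
  refine sl2_ext ?_ ?_ ?_ ?_ <;>
    simp only [sl2_mul, flow00, flow01, flow10, flow11, mul_zero, zero_mul, add_zero, zero_add,
      up00, up01, up10, up11, mul_one]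
  · rw [← Real.exp_add, show -t / 2 + t / 2 = 0 by ring, Real.exp_zero]
  · have : Real.exp (-t) = Real.exp (-t / 2) * Real.exp (-(t / 2)) := by
      rw [← Real.exp_add]; congr 1; ring
    rw [this]; ring
  · rw [← Real.exp_add, show -(-t / 2) + -(t / 2) = 0 by ring, Real.exp_zero]

theorem conj_up (k : SL2) (y : ℝ) (i j : Fin 2) :
    (k * up y * k⁻¹) i j = (1 : SL2) i j + y * (k i 0 * (k⁻¹) 1 j) := by
  have h1 : (k * k⁻¹) i j = (1 : SL2) i j := by rw [mul_inv_cancel]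
  rw [sl2_mul] at h1
  rw [sl2_mul, sl2_mul, sl2_mul]
  simp only [up00, up01, up10, up11]
  rw [← h1]; ring

/-- There are no parabolic elements. -/
theorem not_unip (hΓ : IsClosedSurfaceGroup Γ) {γ : SL2} (hγ : γ ∈ Γ) (htr : tr γ = 2) :
    γ = 1 := by
  obtain ⟨δ, hδ, hdisc⟩ := exists_disc hΓ.discrete
  obtain ⟨M, hM, hc⟩ := cocompact_bd hΓ
  obtain ⟨h, x, hx⟩ := exists_unip γ htr
  -- large time
  obtain ⟨t, ht⟩ : ∃ t : ℝ, |x * Real.exp (-t)| * (M * M) < δ := by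
    have h1 : Filter.Tendsto (fun t : ℝ => |x * Real.exp (-t)| * (M * M)) Filter.atTop (𝓝 0) := by
      have h2 : Filter.Tendsto (fun t : ℝ => Real.exp (-t)) Filter.atTop (𝓝 0) :=
        Real.tendsto_exp_neg_atTop_nhds_zero
      have h3 := ((h2.const_mul x).abs).mul_const (M * M)
      simpa using h3
    obtain ⟨t, ht⟩ := (h1.eventually (gt_mem_nhds hδ)).exists
    exact ⟨t, ht⟩
  obtain ⟨η, hη, k, hk, hkk⟩ := hc (h * flow t)
  have e1 : η⁻¹ * γ * η = k * up (x * Real.exp (-t)) * k⁻¹ := by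
    have h1 : η = h * flow t * k⁻¹ := by rw [hkk]; group
    have h2 : γ = h * up x * h⁻¹ := by rw [← hx]; group
    rw [← flow_neg_up, h1, h2, ← flow_inv]
    group
  have h3 : η⁻¹ * γ * η = 1 := by
    apply hdisc _ (Γ.mul_mem (Γ.mul_mem (Γ.inv_mem hη) hγ) hη)
    intro i j
    rw [e1, conj_up, add_sub_cancel_left, abs_mul]
    refine lt_of_le_of_lt ?_ ht
    apply mul_le_mul_of_nonneg_left _ (abs_nonneg _)
    rw [abs_mul]
    exact mul_le_mul (hk _ _) (hk.inv _ _) (abs_nonneg _) (by linarith)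
  have h4 : γ = η * (η⁻¹ * γ * η) * η⁻¹ := by group
  rw [h4, h3]; group

theorem tr_sq (g : SL2) : tr (g ^ 2) = tr g ^ 2 - 2 := by
  have hd := sl2_det g
  rw [sq g]
  simp only [tr, sl2_mul]
  linear_combination (-2 : ℝ) * hd

/-- There are no elliptic elements. -/
theorem not_elliptic (hΓ : IsClosedSurfaceGroup Γ) {γ : SL2} (hγ : γ ∈ Γ) (htr : |tr γ| < 2) :
    False := by
  set t := tr γ with ht
  have hd := sl2_det γ
  have hpow : ∀ n : ℕ, ∃ x y : ℝ, (∀ i j, (γ ^ n) i j = x * γ i j + y * (1 : SL2) i j) ∧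
      x ^ 2 + t * x * y + y ^ 2 = 1 := by
    intro n
    induction n with
    | zero => exact ⟨0, 1, fun i j => by simp, by ring⟩
    | succ n ih =>
      obtain ⟨x, y, h1, h2⟩ := ih
      refine ⟨t * x + y, -x, fun i j => ?_, by linear_combination h2⟩
      rw [pow_succ, sl2_mul, h1, h1]
      fin_cases i <;> fin_cases j <;> simp [ht, tr]
      · linear_combination (-x) * hd
      · ring
      · ring
      · linear_combination (-x) * hd
  set κ := 1 - |t| / 2 with hκ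
  have hκpos : 0 < κ := by rw [hκ]; linarith
  have hxy : ∀ x y : ℝ, x ^ 2 + t * x * y + y ^ 2 = 1 → |x| ≤ 1 / κ + 1 ∧ |y| ≤ 1 / κ + 1 := by
    intro x y h
    have h1 : κ * (x ^ 2 + y ^ 2) ≤ 1 := by
      have h2 : -(|t| * (x ^ 2 + y ^ 2) / 2) ≤ t * x * y := by
        have h3 : |t * x * y| ≤ |t| * (x ^ 2 + y ^ 2) / 2 := by
          rw [mul_assoc, abs_mul]
          have h4 : |x * y| ≤ (x ^ 2 + y ^ 2) / 2 := by
            rw [abs_le]; constructor <;> nlinarith [sq_nonneg (x + y), sq_nonneg (x - y)]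
          calc |t| * |x * y| ≤ |t| * ((x ^ 2 + y ^ 2) / 2) :=
                mul_le_mul_of_nonneg_left h4 (abs_nonneg _)
            _ = _ := by ring
        exact neg_le_of_abs_le h3
      rw [hκ]; nlinarith
    have h2 : x ^ 2 + y ^ 2 ≤ 1 / κ := by rw [le_div_iff₀ hκpos]; linarith
    have h3 : 0 ≤ 1 / κ := by positivity
    constructor
    · apply abs_le_of_sq_le_sq _ (by positivity)
      nlinarith [sq_nonneg y]
    · apply abs_le_of_sq_le_sq _ (by positivity)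
      nlinarith [sq_nonneg x]
  -- all powers lie in a finite set
  set B := (1 / κ + 1) * (∑ i, ∑ j, |γ i j|) + (1 / κ + 1) with hB
  have hall : ∀ n : ℕ, Bd B (γ ^ n) := by
    intro n i j
    obtain ⟨x, y, h1, h2⟩ := hpow n
    obtain ⟨hx, hy⟩ := hxy x y h2
    rw [h1]
    have h3 : |γ i j| ≤ ∑ i, ∑ j, |γ i j| := by
      have h4 : |γ i j| ≤ ∑ j, |γ i j| :=
        Finset.single_le_sum (f := fun j => |γ i j|) (fun _ _ => abs_nonneg _) (Finset.mem_univ j)
      have h5 : ∑ j, |γ i j| ≤ ∑ i, ∑ j, |γ i j| :=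
        Finset.single_le_sum (f := fun i => ∑ j, |γ i j|)
          (fun _ _ => Finset.sum_nonneg fun _ _ => abs_nonneg _) (Finset.mem_univ i)
      linarith
    have h4 : |(1 : SL2) i j| ≤ 1 := by fin_cases i <;> fin_cases j <;> simp
    have h6 : 0 ≤ 1 / κ + 1 := by positivity
    calc |x * γ i j + y * (1 : SL2) i j| ≤ |x| * |γ i j| + |y| * |(1 : SL2) i j| := by
          rw [← abs_mul, ← abs_mul]; exact abs_add_le _ _
      _ ≤ (1 / κ + 1) * (∑ i, ∑ j, |γ i j|) + (1 / κ + 1) * 1 :=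
          add_le_add (mul_le_mul hx h3 (abs_nonneg _) h6) (mul_le_mul hy h4 (abs_nonneg _) h6)
      _ = B := by rw [hB]; ring
  have hfin := finite_bd hΓ.discrete B
  have hmaps : ∀ n : ℕ, (⟨γ, hγ⟩ : Γ) ^ n ∈ {γ : Γ | Bd B γ} := by
    intro n
    show Bd B (((⟨γ, hγ⟩ : Γ) ^ n : Γ) : SL2)
    rw [SubmonoidClass.coe_pow]
    exact hall n
  obtain ⟨a, -, b, -, hab, hpab⟩ := Set.infinite_univ.exists_ne_map_eq_of_mapsTo
    (fun n _ => hmaps n) hfin
  have key : ∀ a b : ℕ, a < b → (⟨γ, hγ⟩ : Γ) ^ a = (⟨γ, hγ⟩ : Γ) ^ b → False := by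
    intro a b hab h
    have h1 : (⟨γ, hγ⟩ : Γ) ^ (b - a) = 1 := by
      have : (⟨γ, hγ⟩ : Γ) ^ b = (⟨γ, hγ⟩ : Γ) ^ a * (⟨γ, hγ⟩ : Γ) ^ (b - a) := by
        rw [← pow_add]; congr 1; omega
      rw [this] at h
      exact (mul_eq_left.1 h.symm)
    have h2 : γ ^ (b - a) = 1 := by
      have := congrArg Subtype.val h1
      simpa using this
    have h3 := hΓ.torsionFree γ hγ (b - a) (by omega) h2
    rw [ht, h3] at htr
    simp [tr] at htr
    norm_num at htr
  rcases lt_or_gt_of_ne hab with h | h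
  · exact key a b h hpab
  · exact key b a h hpab.symm

/-- All nontrivial elements are hyperbolic. -/
theorem two_lt_tr (hΓ : IsClosedSurfaceGroup Γ) {γ : SL2} (hγ : γ ∈ Γ) (h1 : γ ≠ 1) :
    2 < |tr γ| := by
  by_contra hcon
  push Not at hcon
  rcases lt_or_eq_of_le hcon with h | h
  · exact not_elliptic hΓ hγ h
  · have h2 : γ ^ 2 = 1 := by
      apply not_unip hΓ (Γ.pow_mem hγ 2)
      rw [tr_sq, ← sq_abs, h]; norm_num
    exact h1 (hΓ.torsionFree γ hγ 2 (by norm_num) h2)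

end Pool.Agent.W599.SA
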