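import Pool.Agent.W599.SA.Fuchs2

/-!
# Simple closed geodesics, transversal elements and the decomposition of hyperbolic elements
-/

open Matrix Topology UpperHalfPlane

namespace Pool.Agent.W599.SA

variable {Γ : Subgroup SL2}

theorem bd_flow {T R : ℝ} (hT : 0 ≤ T) (h : Real.exp (T / 2) ≤ R) : Bd R (flow T) := by
  have h1 : 1 ≤ Real.exp (T / 2) := Real.one_le_exp (by linarith)
  have h2 : Real.exp (-(T / 2)) ≤ 1 := Real.exp_le_one_iff.2 (by linarith)
  intro i j
  fin_cases i <;> fin_cases j <;> simp only [Fin.zero_eta, Fin.mk_one, Fin.isValue, flow00, flow01,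
    flow10, flow11, abs_zero, Real.abs_exp] <;> linarith

theorem exists_ne_one (hΓ : IsClosedSurfaceGroup Γ) : ∃ γ ∈ Γ, γ ≠ 1 := by
  by_contra hcon
  push Not at hcon
  obtain ⟨M, hM, hc⟩ := cocompact_bd hΓ
  obtain ⟨γ, hγ, k, hk, h⟩ := hc (flow (2 * Real.log (M + 1)))
  rw [hcon γ hγ, one_mul] at h
  have h1 := hk 0 0
  rw [← h, flow00, mul_div_cancel_left₀ _ (by norm_num : (2 : ℝ) ≠ 0),
    Real.exp_log (by linarith), abs_of_pos (by linarith)] at h1
  linarith

theorem tr_diag {g h : SL2} {T : ℝ} (hT : g * h = h * flow T ∨ g * h = -(h * flow T)) :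
    |tr g| = Real.exp (T / 2) + Real.exp (-(T / 2)) := by
  have h1 : tr g = tr (h⁻¹ * g * h) := (tr_conj g h).symm
  have hpos : 0 < Real.exp (T / 2) + Real.exp (-(T / 2)) := by positivity
  rcases hT with hT | hT
  · rw [h1, mul_assoc, hT, ← mul_assoc, inv_mul_cancel, one_mul, tr_flow, abs_of_pos hpos]
  · rw [h1, mul_assoc, hT, mul_neg, ← mul_assoc, inv_mul_cancel, one_mul, tr_neg, tr_flow, abs_neg,
      abs_of_pos hpos]

/-- conjugating a hyperbolic element into a bounded set -/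
theorem exists_conj_bd (hΓ : IsClosedSurfaceGroup Γ) {M : ℝ}
    (hc : ∀ g : SL2, ∃ γ ∈ Γ, ∃ k : SL2, Bd M k ∧ g = γ * k) {γ : SL2} (hγ : γ ∈ Γ) (h1 : γ ≠ 1) :
    ∃ η ∈ Γ, Bd (2 * (2 * M * |tr γ|) * M) (η⁻¹ * γ * η) := by
  obtain ⟨h, T, hT, hd⟩ := exists_diag γ (two_lt_tr hΓ hγ h1)
  have ht := tr_diag hd
  obtain ⟨η, hη, k, hk, hkk⟩ := hc h
  refine ⟨η, hη, ?_⟩
  have hfl : Bd |tr γ| (flow T) := bd_flow hT.le (by
    rw [ht]; have := Real.exp_pos (-(T / 2)); linarith)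
  have e1 : η = h * k⁻¹ := by rw [hkk]; group
  have hb := (hk.mul hfl).mul hk.inv
  rcases hd with hd | hd
  · have : η⁻¹ * γ * η = k * flow T * k⁻¹ := by
      rw [e1]
      calc (h * k⁻¹)⁻¹ * γ * (h * k⁻¹) = k * h⁻¹ * (γ * h) * k⁻¹ := by group
        _ = k * flow T * k⁻¹ := by rw [hd]; group
    rw [this]; exact hb
  · have : η⁻¹ * γ * η = -(k * flow T * k⁻¹) := by
      rw [e1]
      calc (h * k⁻¹)⁻¹ * γ * (h * k⁻¹) = k * h⁻¹ * (γ * h) * k⁻¹ := by group
        _ = -(k * flow T * k⁻¹) := by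
          rw [hd, mul_neg, neg_mul]
          congr 1
          group
    rw [this]; exact hb.neg

theorem exists_min_tr (hΓ : IsClosedSurfaceGroup Γ) : ∃ γ ∈ Γ, γ ≠ 1 ∧ ∀ η ∈ Γ, η ≠ 1 →
    |tr γ| ≤ |tr η| := by
  obtain ⟨M, hM, hc⟩ := cocompact_bd hΓ
  obtain ⟨γ₁, hγ₁, h1⟩ := exists_ne_one hΓ
  set B := 2 * (2 * M * |tr γ₁|) * M with hB
  set F : Set Γ := {γ : Γ | Bd B γ} ∩ {γ | γ ≠ 1} with hF
  have hfin : F.Finite := (finite_bd hΓ.discrete B).inter_of_left _
  have hmem : ∀ γ (hγ : γ ∈ Γ), γ ≠ 1 → |tr γ| ≤ |tr γ₁| → ∃ η ∈ F, tr η = tr γ := by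
    intro γ hγ h2 h3
    obtain ⟨η, hη, hb⟩ := exists_conj_bd hΓ hc hγ h2
    refine ⟨⟨η⁻¹ * γ * η, Γ.mul_mem (Γ.mul_mem (Γ.inv_mem hη) hγ) hη⟩, ⟨?_, ?_⟩, ?_⟩
    · refine hb.mono ?_
      rw [hB]
      gcongr
    · intro h4
      have h5 : η⁻¹ * γ * η = 1 := congrArg Subtype.val h4
      apply h2
      calc γ = η * (η⁻¹ * γ * η) * η⁻¹ := by group
        _ = 1 := by rw [h5]; group
    · exact tr_conj γ η
  obtain ⟨η₁, hη₁, -⟩ := hmem γ₁ hγ₁ h1 le_rfl
  obtain ⟨γ₀, hγ₀, hmin⟩ := hfin.exists_minimalFor (fun γ : Γ => |tr (γ : SL2)|) F ⟨η₁, hη₁⟩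
  refine ⟨γ₀, γ₀.2, fun h => hγ₀.2 (Subtype.ext h), fun η hη h2 => ?_⟩
  have hle1 : |tr (γ₀ : SL2)| ≤ |tr γ₁| := by
    obtain ⟨η', hη', he⟩ := hmem γ₁ hγ₁ h1 le_rfl
    rcases le_total |tr (γ₀ : SL2)| |tr (η' : SL2)| with h | h
    · rw [← he]; exact h
    · have := hmin hη' h
      rw [← he]; exact this
  rcases le_total |tr η| |tr γ₁| with h3 | h3
  · obtain ⟨η', hη', he⟩ := hmem η hη h2 h3
    rw [← he]
    rcases le_total |tr (γ₀ : SL2)| |tr (η' : SL2)| with h | h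
    · exact h
    · exact hmin hη' h
  · exact hle1.trans h3

/-- coordinates of an element mapping `I` to `exp u * I` -/
theorem smul_I_eq {m : SL2} {u : ℝ} (h : m • I = flow u • I) :
    m 0 0 = Real.exp u * m 1 1 ∧ m 0 1 = -(Real.exp u * m 1 0) := by
  have h1 := congrArg (fun z : ℍ => (z : ℂ)) h
  simp only [coe_specialLinearGroup_apply] at h1
  have hd := sl2_det m
  have hden : (m 1 0 : ℂ) * Complex.I + (m 1 1 : ℂ) ≠ 0 := by
    intro h0
    have e1 := congrArg Complex.re h0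
    have e2 := congrArg Complex.im h0
    simp at e1 e2
    rw [e1, e2] at hd
    norm_num at hd
  have hexp : Real.exp (u / 2) = Real.exp u * Real.exp (-(u / 2)) := by
    rw [← Real.exp_add]; congr 1; ring
  simp only [Algebra.algebraMap_self, RingHom.id_apply, coe_I, flow00,
    flow01, flow10, flow11, Complex.ofReal_zero, zero_mul, add_zero, zero_add] at h1
  rw [hexp] at h1
  have hepos := Real.exp_pos (-(u / 2))
  generalize Real.exp (-(u / 2)) = e at h1 hepos
  generalize Real.exp u = E at h1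
  have hne : (e : ℂ) ≠ 0 := by exact_mod_cast hepos.ne'
  rw [div_eq_div_iff hden hne] at h1
  have e1 := congrArg Complex.re h1
  have e2 := congrArg Complex.im h1
  simp at e1 e2
  constructor
  · have : (m 0 0 - E * m 1 1) * e = 0 := by linear_combination e2
    have := (mul_eq_zero.1 this).resolve_right hepos.ne'
    linarith
  · have : (m 0 1 + E * m 1 0) * e = 0 := by linear_combination e1
    have := (mul_eq_zero.1 this).resolve_right hepos.ne'
    linarith

theorem neg_smul' (g : SL2) (z : ℍ) : (-g) • z = g • z := by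
  apply UpperHalfPlane.ext
  rw [coe_specialLinearGroup_apply, coe_specialLinearGroup_apply]
  simp only [neg_apply', Algebra.algebraMap_self, RingHom.id_apply, Complex.ofReal_neg]
  rw [← neg_div_neg_eq]
  congr 1 <;> ring

theorem tr_le_of_smul_I {m : SL2} {u : ℝ} (h : m • I = flow u • I) :
    |tr m| ≤ Real.exp (u / 2) + Real.exp (-(u / 2)) := by
  obtain ⟨h1, h2⟩ := smul_I_eq h
  have hd := sl2_det m
  set E := Real.exp u with hE
  have hE2 : E = Real.exp (u / 2) ^ 2 := by rw [hE, ← Real.exp_nat_mul]; congr 1; push_cast; ring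
  set e := Real.exp (u / 2) with he
  have hepos : 0 < e := Real.exp_pos _
  have hem : Real.exp (-(u / 2)) = e⁻¹ := by rw [Real.exp_neg]
  rw [h1, h2] at hd
  have hdd : e ^ 2 * m 1 1 ^ 2 ≤ 1 := by
    rw [← hE2]; nlinarith [sq_nonneg (m 1 0), Real.exp_pos u]
  have hm : |e * m 1 1| ≤ 1 := by
    apply abs_le_of_sq_le_sq _ zero_le_one
    rw [mul_pow]; simpa using hdd
  rw [hem, tr, h1, hE2]
  have : e ^ 2 * m 1 1 + m 1 1 = (e + e⁻¹) * (e * m 1 1) := by field_simp
  rw [this, abs_mul, abs_of_pos (by positivity)]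
  calc (e + e⁻¹) * |e * m 1 1| ≤ (e + e⁻¹) * 1 := mul_le_mul_of_nonneg_left hm (by positivity)
    _ = e + e⁻¹ := mul_one _

theorem cosh_lt {a b : ℝ} (hab : |a| < b) :
    Real.exp (a / 2) + Real.exp (-(a / 2)) < Real.exp (b / 2) + Real.exp (-(b / 2)) := by
  have h1 : Real.cosh (a / 2) < Real.cosh (b / 2) := by
    rw [Real.cosh_lt_cosh, abs_div, abs_div]
    have : |b| = b := abs_of_pos (lt_of_le_of_lt (abs_nonneg _) hab)
    rw [this]
    gcongr
  rw [Real.cosh_eq, Real.cosh_eq] at h1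
  linarith

theorem zpow_flow {γ h : SL2} {T : ℝ} (hd : γ * h = h * flow T ∨ γ * h = -(h * flow T)) (n : ℤ) :
    γ ^ n * h = h * flow (n * T) ∨ γ ^ n * h = -(h * flow (n * T)) := by
  have hinv : γ⁻¹ * h = h * flow (-T) ∨ γ⁻¹ * h = -(h * flow (-T)) := by
    rcases hd with hd | hd
    · left
      rw [← flow_inv, eq_mul_inv_iff_mul_eq, mul_assoc, ← hd]; group
    · right
      have h1 : γ * (h * flow (-T)) = -h := by
        rw [← mul_assoc, hd, ← flow_inv, neg_mul, mul_assoc, mul_inv_cancel, mul_one]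
      rw [inv_mul_eq_iff_eq_mul, mul_neg, h1, neg_neg]
  induction n using Int.induction_on with
  | zero => left; simp [flow_zero]
  | succ n ih =>
    have e1 : flow (((n : ℤ) + 1 : ℤ) * T) = flow ((n : ℤ) * T) * flow T := by
      rw [← flow_add]; congr 1; push_cast; ring
    rw [_root_.zpow_add_one, e1, ← mul_assoc]
    have e2 : γ ^ (n : ℤ) * γ * h = γ ^ (n : ℤ) * (γ * h) := mul_assoc _ _ _
    rw [e2]
    rcases hd with hd | hd <;> rcases ih with ih | ih <;> rw [hd]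
    · left; rw [← mul_assoc, ih]
    · right; rw [← mul_assoc, ih, neg_mul]
    · right; rw [mul_neg, ← mul_assoc, ih]
    · left; rw [mul_neg, ← mul_assoc, ih, neg_mul, neg_neg]
  | pred n ih =>
    have e1 : flow ((-(n : ℤ) - 1 : ℤ) * T) = flow ((-(n : ℤ) : ℤ) * T) * flow (-T) := by
      rw [← flow_add]; congr 1; push_cast; ring
    rw [_root_.zpow_sub_one, e1, ← mul_assoc]
    have e2 : γ ^ (-(n : ℤ)) * γ⁻¹ * h = γ ^ (-(n : ℤ)) * (γ⁻¹ * h) := mul_assoc _ _ _
    rw [e2]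
    rcases hinv with hd | hd <;> rcases ih with ih | ih <;> rw [hd]
    · left; rw [← mul_assoc, ih]
    · right; rw [← mul_assoc, ih, neg_mul]
    · right; rw [mul_neg, ← mul_assoc, ih]
    · left; rw [mul_neg, ← mul_assoc, ih, neg_mul, neg_neg]

/-- There is a simple closed geodesic. -/
theorem exists_simple_closed (hΓ : IsClosedSurfaceGroup Γ) : ∃ (h γ : SL2) (T : ℝ), 0 < T ∧
    γ ∈ Γ ∧ (γ * h = h * flow T ∨ γ * h = -(h * flow T)) ∧ TangentToSimpleClosed Γ h := by
  obtain ⟨γ, hγ, h1, hmin⟩ := exists_min_tr hΓ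
  obtain ⟨h, T, hT, hd⟩ := exists_diag γ (two_lt_tr hΓ hγ h1)
  refine ⟨h, γ, T, hT, hγ, hd, T, hT, ⟨γ, hγ, hd⟩, fun s t η hη hst => ?_⟩
  set n : ℤ := round ((t - s) / T) with hn
  refine ⟨n, ?_⟩
  have hround : |(t - s) / T - n| ≤ 1 / 2 := abs_sub_round _
  set u := t - s - n * T with hu
  have hu2 : |u| ≤ T / 2 := by
    have : u = ((t - s) / T - n) * T := by rw [hu]; field_simp
    rw [this, abs_mul, abs_of_pos hT]
    nlinarith
  -- the modified element
  set η' := γ ^ (-n) * η with hη'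
  have hη'm : η' ∈ Γ := Γ.mul_mem (Γ.zpow_mem hγ _) hη
  have e1 : η' • (h * flow s) • I = (h * flow (t - n * T)) • I := by
    rw [hη', mul_smul, hst, ← mul_smul]
    have e2 : γ ^ (-n) * (h * flow t) = h * flow (t - n * T) ∨
        γ ^ (-n) * (h * flow t) = -(h * flow (t - n * T)) := by
      have e3 : flow (t - n * T) = flow ((-n : ℤ) * T) * flow t := by
        rw [← flow_add]; congr 1; push_cast; ring
      rw [← mul_assoc, e3, ← mul_assoc]
      rcases zpow_flow hd (-n) with h2 | h2 <;> rw [h2]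
      · left; rfl
      · right; rw [neg_mul]
    rcases e2 with e2 | e2 <;> rw [e2]
    rw [neg_smul']
  set m := (h * flow s)⁻¹ * η' * (h * flow s) with hm
  have e4 : m • I = flow u • I := by
    rw [hm, mul_smul, mul_smul, e1, ← mul_smul]
    congr 1
    have : flow u = flow (-s) * flow (t - n * T) := by
      rw [← flow_add]; congr 1; rw [hu]; ring
    rw [this, ← flow_inv]
    group
  have e5 := tr_le_of_smul_I e4
  have e6 : tr m = tr η' := tr_conj _ _
  by_cases h7 : η' = 1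
  · have h8 : m = 1 := by rw [hm, h7]; group
    rw [h8] at e4
    obtain ⟨f1, -⟩ := smul_I_eq e4
    have f2 : Real.exp u = 1 := by simpa using f1.symm
    have f3 : u = 0 := by rw [Real.exp_eq_one_iff] at f2; exact f2
    rw [hu] at f3
    linarith
  · exfalso
    have h8 := hmin η' hη'm h7
    rw [tr_diag hd, ← e6] at h8
    have h9 := cosh_lt (a := u) (b := T) (by linarith)
    linarith

/-- In a frame of a hyperbolic element, some element of the group is not upper triangular. -/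
theorem exists_lower_ne (hΓ : IsClosedSurfaceGroup Γ) {γ h : SL2} {T : ℝ} (hγ : γ ∈ Γ)
    (hT : 0 < T) (hd : γ * h = h * flow T ∨ γ * h = -(h * flow T)) :
    ∃ η ∈ Γ, (h⁻¹ * η * h) 1 0 ≠ 0 := by
  by_contra hcon
  push Not at hcon
  obtain ⟨M, hM, hc⟩ := cocompact_bd hΓ
  obtain ⟨Mh, hMh, hbh⟩ := bd_of_compact (K := {h}) isCompact_singleton
  have hh : Bd Mh h := hbh h rfl
  -- all elements are diagonal
  have hdiag : ∀ η ∈ Γ, (h⁻¹ * η * h) 0 1 = 0 := by
    intro η hη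
    by_contra hb
    set m := h⁻¹ * η * h with hm
    have hm10 : m 1 0 = 0 := hcon η hη
    obtain ⟨Mm, hMm, hbm⟩ := bd_of_compact (K := {m}) isCompact_singleton
    have hmb : Bd Mm m := hbm m rfl
    have key : ∀ n : ℕ, γ ^ (-(n : ℤ)) * η * γ ^ (n : ℤ) =
        h * (flow (-((n : ℤ) * T)) * m * flow ((n : ℤ) * T)) * h⁻¹ := by
      intro n
      have e0 : γ ^ (-(n : ℤ)) * η * γ ^ (n : ℤ) = (γ ^ (-(n : ℤ)) * h) * m * (γ ^ (-(n : ℤ)) * h)⁻¹ := by
        rw [hm]; group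
      rw [e0]
      have e1 : flow (-((n : ℤ) * T)) = flow (((-(n : ℤ) : ℤ)) * T) := by congr 1; push_cast; ring
      have e2 : flow ((n : ℤ) * T) = (flow (((-(n : ℤ) : ℤ)) * T))⁻¹ := by
        rw [flow_inv]; congr 1; push_cast; ring
      rw [e1, e2]
      rcases zpow_flow hd (-(n : ℤ)) with h2 | h2 <;> rw [h2]
      · group
      · have : ∀ x : SL2, (-x)⁻¹ = -x⁻¹ := by
          intro x
          rw [inv_eq_iff_mul_eq_one]
          rw [neg_mul_neg, mul_inv_cancel]
        rw [this, neg_mul, neg_mul_neg]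
        group
    have hent : ∀ n : ℕ, (flow (-((n : ℤ) * T)) * m * flow ((n : ℤ) * T)) 0 1 =
        m 0 1 * Real.exp (-(n * T)) ∧ Bd Mm (flow (-((n : ℤ) * T)) * m * flow ((n : ℤ) * T)) := by
      intro n
      have x00 : (flow (-((n : ℤ) * T)) * m * flow ((n : ℤ) * T)) 0 0 = m 0 0 := by
        simp only [sl2_mul, flow00, flow01, flow10, flow11, mul_zero, zero_mul, add_zero]
        rw [mul_comm, ← mul_assoc, ← Real.exp_add, show ((n : ℤ) * T) / 2 + -(((n : ℤ)) * T) / 2 = 0 by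
          ring, Real.exp_zero, one_mul]
      have x01 : (flow (-((n : ℤ) * T)) * m * flow ((n : ℤ) * T)) 0 1 =
          m 0 1 * Real.exp (-(n * T)) := by
        simp only [sl2_mul, flow00, flow01, flow10, flow11, mul_zero, zero_mul, add_zero, zero_add]
        have : Real.exp (-(n * T)) = Real.exp (-((n : ℤ) * T) / 2) *
            Real.exp (-(((n : ℤ) * T) / 2)) := by
          rw [← Real.exp_add]; congr 1; push_cast; ring
        rw [this]; ring
      have x10 : (flow (-((n : ℤ) * T)) * m * flow ((n : ℤ) * T)) 1 0 = 0 := by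
        simp only [sl2_mul, flow00, flow01, flow10, flow11, hm10, mul_zero, zero_mul, add_zero]
      have x11 : (flow (-((n : ℤ) * T)) * m * flow ((n : ℤ) * T)) 1 1 = m 1 1 := by
        simp only [sl2_mul, flow00, flow01, flow10, flow11, mul_zero, zero_mul, add_zero, zero_add]
        rw [mul_comm, ← mul_assoc, ← Real.exp_add,
          show -(((n : ℤ) * T) / 2) + -(-((n : ℤ) * T) / 2) = 0 by ring, Real.exp_zero, one_mul]
      refine ⟨x01, fun i j => ?_⟩
      fin_cases i <;> fin_cases j <;> simp only [Fin.zero_eta, Fin.mk_one, Fin.isValue]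
      · rw [x00]; exact hmb _ _
      · rw [x01, abs_mul, Real.abs_exp]
        have h1 : Real.exp (-(n * T)) ≤ 1 := Real.exp_le_one_iff.2 (by
          have : 0 ≤ (n : ℝ) * T := by positivity
          linarith)
        have h2 := hmb 0 1
        nlinarith [abs_nonneg (m 0 1), Real.exp_pos (-(n * T))]
      · rw [x10, abs_zero]; linarith
      · rw [x11]; exact hmb _ _
    have hmem : ∀ n : ℕ, γ ^ (-(n : ℤ)) * η * γ ^ (n : ℤ) ∈ Γ := fun n =>
      Γ.mul_mem (Γ.mul_mem (Γ.zpow_mem hγ _) hη) (Γ.zpow_mem hγ _)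
    have hfin := finite_bd hΓ.discrete (2 * (2 * Mh * Mm) * Mh)
    obtain ⟨a, -, b, -, hab, hpab⟩ := Set.infinite_univ.exists_ne_map_eq_of_mapsTo
      (f := fun n : ℕ => (⟨γ ^ (-(n : ℤ)) * η * γ ^ (n : ℤ), hmem n⟩ : Γ))
      (fun n _ => by
        show Bd _ (γ ^ (-(n : ℤ)) * η * γ ^ (n : ℤ))
        rw [key]
        exact (hh.mul (hent n).2).mul hh.inv) hfin
    have h5 : γ ^ (-(a : ℤ)) * η * γ ^ (a : ℤ) = γ ^ (-(b : ℤ)) * η * γ ^ (b : ℤ) :=
      congrArg Subtype.val hpab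
    rw [key, key, mul_left_inj, mul_right_inj] at h5
    have h6 := (hent a).1
    rw [h5, (hent b).1] at h6
    have h7 := mul_left_cancel₀ hb h6
    have h8 : (a : ℝ) * T = b * T := by
      have := Real.exp_injective h7
      linarith
    exact hab (by exact_mod_cast mul_right_cancel₀ hT.ne' h8)
  -- contradiction with cocompactness
  obtain ⟨η, hη, k, hk, hkk⟩ := hc (h * up ((2 * Mh * M) ^ 2 + 1))
  set x := (2 * Mh * M) ^ 2 + 1 with hx
  set m := h⁻¹ * η⁻¹ * h with hm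
  have hm01 : m 0 1 = 0 := hdiag _ (Γ.inv_mem hη)
  have hm10 : m 1 0 = 0 := hcon _ (Γ.inv_mem hη)
  have hdm := sl2_det m
  rw [hm01, zero_mul, sub_zero] at hdm
  have e1 : h⁻¹ * k = m * up x := by
    have : k = η⁻¹ * (h * up x) := by rw [hkk]; group
    rw [this, hm]; group
  have hb : Bd (2 * Mh * M) (h⁻¹ * k) := hh.inv.mul hk
  have b1 := hb 0 1
  have b2 := hb 1 1
  rw [e1, sl2_mul, hm01, up01, up11, zero_mul, add_zero] at b1
  rw [e1, sl2_mul, hm10, up01, up11, zero_mul, zero_add, mul_one] at b2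
  have hxpos : 0 < x := by rw [hx]; positivity
  have c1 : |m 0 0 * x| * |m 1 1| ≤ (2 * Mh * M) * (2 * Mh * M) :=
    mul_le_mul b1 b2 (abs_nonneg _) (by positivity)
  rw [← abs_mul, show m 0 0 * x * m 1 1 = (m 0 0 * m 1 1) * x by ring, hdm, one_mul,
    abs_of_pos hxpos, hx] at c1
  nlinarith

/-- In a frame of a hyperbolic element, some element of the group is not lower triangular. -/
theorem exists_upper_ne (hΓ : IsClosedSurfaceGroup Γ) {γ h : SL2} {T : ℝ} (hγ : γ ∈ Γ)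
    (hT : 0 < T) (hd : γ * h = h * flow T ∨ γ * h = -(h * flow T)) :
    ∃ η ∈ Γ, (h⁻¹ * η * h) 0 1 ≠ 0 := by
  set w : SL2 := ⟨!![0, -1; 1, 0], by rw [det_fin_two_of]; norm_num⟩ with hw
  have w00 : w 0 0 = 0 := rfl
  have w01 : w 0 1 = -1 := rfl
  have w10 : w 1 0 = 1 := rfl
  have w11 : w 1 1 = 0 := rfl
  clear_value w
  have hwf : ∀ t, flow (-t) * w = w * flow t := by
    intro t
    refine sl2_ext ?_ ?_ ?_ ?_ <;>
      simp only [sl2_mul, flow00, flow01, flow10, flow11, w00, w01, w10, w11, mul_zero, zero_mul,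
        add_zero, zero_add] <;> ring_nf
  have h1 := zpow_flow hd (-1)
  obtain ⟨η, hη, h2⟩ := exists_lower_ne hΓ (γ := γ⁻¹) (h := h * w) (T := T) (Γ.inv_mem hγ) hT (by
    rw [_root_.zpow_neg_one] at h1
    have e1 : ((-1 : ℤ) : ℝ) * T = -T := by push_cast; ring
    rw [e1] at h1
    rcases h1 with h1 | h1
    · left; rw [← mul_assoc, h1, mul_assoc, hwf, mul_assoc]
    · right; rw [← mul_assoc, h1, neg_mul, mul_assoc, hwf, mul_assoc])
  refine ⟨η, hη, fun h0 => h2 ?_⟩
  have e2 : (h * w)⁻¹ * η * (h * w) = w⁻¹ * (h⁻¹ * η * h) * w := by group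
  obtain ⟨i00, i01, i10, i11⟩ := sl2_inv w
  rw [e2]
  generalize h⁻¹ * η * h = m at h0
  simp only [sl2_mul, i10, i11, w10, w00, h0, w11]
  ring

end Pool.Agent.W599.SA
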