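import Pool.Agent.W599.SA.BCL
import Pool.Agent.W599.SA.Fuchs3

/-!
# Uniform growth near a sum of copies of the Fuchsian representation and trivial representations
-/

open Matrix Topology

open scoped Matrix.Norms.Operator

namespace Pool.Agent.W599.SA

/-- index type -/
abbrev J (p q : ℕ) : Type := (Fin p × Fin 2) ⊕ Fin q

/-- `p` copies of the standard representation of `SL(2, ℝ)` and `q` trivial ones -/
def Mo (p q : ℕ) (g : SL2) : Matrix (J p q) (J p q) ℂ :=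
  model (Fin p) (Fin q) (fun g : SL2 => (Matrix.of fun i j => ((g i j : ℝ) : ℂ))) (fun _ => 1) g

variable {p q : ℕ}

theorem Mo_mulVec_inl (g : SL2) (u : J p q → ℂ) (i : Fin p) (x : Fin 2) :
    (Mo p q g *ᵥ u) (Sum.inl (i, x)) =
      (g x 0 : ℂ) * u (Sum.inl (i, 0)) + (g x 1 : ℂ) * u (Sum.inl (i, 1)) := by
  simp only [Mo, model, mulVec, dotProduct, Fintype.sum_sum_type, fromBlocks_apply₁₁, of_apply,
    fromBlocks_apply₁₂, Matrix.zero_apply, zero_mul, Finset.sum_const_zero, add_zero,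
    Fintype.sum_prod_type, Fin.sum_univ_two, ite_mul, Finset.sum_add_distrib, Finset.sum_ite_eq,
    Finset.mem_univ, if_true]

theorem Mo_mulVec_inr (g : SL2) (u : J p q → ℂ) (k : Fin q) :
    (Mo p q g *ᵥ u) (Sum.inr k) = u (Sum.inr k) := by
  simp only [Mo, model, mulVec, dotProduct, Fintype.sum_sum_type, fromBlocks_apply₂₁, of_apply,
    fromBlocks_apply₂₂, Matrix.zero_apply, zero_mul, Finset.sum_const_zero, zero_add, ite_mul,
    Finset.sum_ite_eq, Finset.mem_univ, if_true, one_mul]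

theorem mat_ext {M N : Matrix (J p q) (J p q) ℂ} (h : ∀ u, M *ᵥ u = N *ᵥ u) : M = N :=
  Matrix.toLin'.injective (LinearMap.ext fun u => by
    rw [Matrix.toLin'_apply, Matrix.toLin'_apply]; exact h u)

theorem Mo_mul (g h : SL2) : Mo p q (g * h) = Mo p q g * Mo p q h := by
  refine mat_ext fun u => ?_
  rw [← Matrix.mulVec_mulVec]
  funext r
  rcases r with ⟨i, x⟩ | k
  · rw [Mo_mulVec_inl, Mo_mulVec_inl, Mo_mulVec_inl, Mo_mulVec_inl, sl2_mul, sl2_mul]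
    push_cast; ring
  · rw [Mo_mulVec_inr, Mo_mulVec_inr, Mo_mulVec_inr]

theorem Mo_one : Mo p q 1 = 1 := by
  refine mat_ext fun u => ?_
  rw [Matrix.one_mulVec]
  funext r
  rcases r with ⟨i, x⟩ | k
  · rw [Mo_mulVec_inl]
    fin_cases x <;> simp
  · rw [Mo_mulVec_inr]

theorem Mo_norm {M : ℝ} (hM : 1 ≤ M) {g : SL2} (hg : Bd M g) :
    ‖Mo p q g‖ ≤ Fintype.card (J p q) * M := by
  refine norm_lt_of_entries (by linarith) fun i j => ?_
  rcases i with ⟨i, x⟩ | i <;> rcases j with ⟨j, y⟩ | j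
  · simp only [Mo, model, fromBlocks_apply₁₁, of_apply]
    split_ifs
    · rw [Complex.norm_real]; exact hg x y
    · rw [norm_zero]; linarith
  · simp only [Mo, model, fromBlocks_apply₁₂, Matrix.zero_apply, norm_zero]; linarith
  · simp only [Mo, model, fromBlocks_apply₂₁, Matrix.zero_apply, norm_zero]; linarith
  · simp only [Mo, model, fromBlocks_apply₂₂, of_apply]
    split_ifs
    · rw [norm_one]; exact hM
    · rw [norm_zero]; linarith

/-- the sup norm is attained at a top coordinate -/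
def Cone (u : J p q → ℂ) : Prop := ∃ i, ∀ r, ‖u r‖ ≤ ‖u (Sum.inl (i, 0))‖

theorem Cone.norm_eq {u : J p q → ℂ} {i : Fin p} (h : ∀ r, ‖u r‖ ≤ ‖u (Sum.inl (i, 0))‖) :
    ‖u‖ = ‖u (Sum.inl (i, 0))‖ :=
  le_antisymm ((pi_norm_le_iff_of_nonneg (norm_nonneg _)).2 h) (norm_le_pi_norm u _)

theorem cone_step {τ : ℝ} (hτ : 4 ≤ Real.exp (τ / 2)) (X : Matrix (J p q) (J p q) ℂ)
    (hX : ‖X - Mo p q (flow τ)‖ ≤ 1) {u : J p q → ℂ} (hu : Cone u) :
    Cone (X *ᵥ u) ∧ 3 * ‖u‖ ≤ ‖X *ᵥ u‖ := by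
  obtain ⟨i, hi⟩ := hu
  have hn := Cone.norm_eq hi
  set a := ‖u‖ with ha
  have ha0 : 0 ≤ a := norm_nonneg _
  have herr : ∀ r, ‖(X *ᵥ u) r - (Mo p q (flow τ) *ᵥ u) r‖ ≤ a := by
    intro r
    have h1 : (X *ᵥ u) r - (Mo p q (flow τ) *ᵥ u) r = ((X - Mo p q (flow τ)) *ᵥ u) r := by
      rw [Matrix.sub_mulVec]; rfl
    rw [h1]
    calc ‖((X - Mo p q (flow τ)) *ᵥ u) r‖ ≤ ‖(X - Mo p q (flow τ)) *ᵥ u‖ := norm_le_pi_norm _ r
      _ ≤ ‖X - Mo p q (flow τ)‖ * ‖u‖ := Matrix.linfty_opNorm_mulVec _ _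
      _ ≤ 1 * a := mul_le_mul_of_nonneg_right hX ha0
      _ = a := one_mul a
  have htop : 3 * a ≤ ‖(X *ᵥ u) (Sum.inl (i, 0))‖ := by
    have h1 := herr (Sum.inl (i, 0))
    rw [Mo_mulVec_inl, flow00, flow01, Complex.ofReal_zero, zero_mul, add_zero] at h1
    have h2 : ‖((Real.exp (τ / 2) : ℝ) : ℂ) * u (Sum.inl (i, 0))‖ = Real.exp (τ / 2) * a := by
      rw [norm_mul, Complex.norm_real, Real.norm_eq_abs, Real.abs_exp, hn]
    have h3 := norm_sub_norm_le (((Real.exp (τ / 2) : ℝ) : ℂ) * u (Sum.inl (i, 0)))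
      ((X *ᵥ u) (Sum.inl (i, 0)))
    rw [norm_sub_rev, h2] at h3
    nlinarith
  have hrest : ∀ r, (∀ j, r ≠ Sum.inl (j, 0)) → ‖(X *ᵥ u) r‖ ≤ 2 * a := by
    intro r hr
    have h1 := herr r
    have h2 : ‖(Mo p q (flow τ) *ᵥ u) r‖ ≤ a := by
      rcases r with ⟨j, x⟩ | k
      · fin_cases x
        · exact absurd rfl (hr j)
        · simp only [Fin.mk_one, Fin.isValue]
          rw [Mo_mulVec_inl, flow10, flow11, Complex.ofReal_zero, zero_mul, zero_add, norm_mul,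
            Complex.norm_real, Real.norm_eq_abs, Real.abs_exp]
          have h3 : Real.exp (-(τ / 2)) ≤ 1 := by
            rw [Real.exp_neg]
            exact inv_le_one_of_one_le₀ (by linarith)
          have h4 : ‖u (Sum.inl (j, 1))‖ ≤ a := norm_le_pi_norm u _
          calc Real.exp (-(τ / 2)) * ‖u (Sum.inl (j, 1))‖ ≤ 1 * a :=
                mul_le_mul h3 h4 (norm_nonneg _) zero_le_one
            _ = a := one_mul a
      · rw [Mo_mulVec_inr]; exact norm_le_pi_norm u _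
    have h3 := norm_sub_norm_le ((X *ᵥ u) r) ((Mo p q (flow τ) *ᵥ u) r)
    linarith
  have hpne : Nonempty (Fin p) := ⟨i⟩
  obtain ⟨i', hi'⟩ := Finite.exists_max (fun j : Fin p => ‖(X *ᵥ u) (Sum.inl (j, 0))‖)
  refine ⟨⟨i', fun r => ?_⟩, htop.trans (norm_le_pi_norm _ _)⟩
  by_cases hr : ∃ j, r = Sum.inl (j, 0)
  · obtain ⟨j, rfl⟩ := hr
    exact hi' j
  · push Not at hr
    have h1 := hrest r hr
    have h2 := hi' i
    linarith

theorem cone_sign (u : J p q → ℂ) (s : SL2) (hs : s = 1 ∨ s = -1) :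
    (Cone u → Cone (Mo p q s *ᵥ u)) ∧ ‖Mo p q s *ᵥ u‖ = ‖u‖ := by
  have h1 : ∀ r, ‖(Mo p q s *ᵥ u) r‖ = ‖u r‖ := by
    intro r
    rcases hs with rfl | rfl
    · rw [Mo_one, one_mulVec]
    · rcases r with ⟨i, x⟩ | k
      · rw [Mo_mulVec_inl]
        fin_cases x <;> simp [neg_apply']
      · rw [Mo_mulVec_inr]
  refine ⟨fun ⟨i, hi⟩ => ⟨i, fun r => by rw [h1, h1]; exact hi r⟩, ?_⟩
  apply le_antisymm
  · exact (pi_norm_le_iff_of_nonneg (norm_nonneg _)).2 fun r => by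
      rw [h1]; exact norm_le_pi_norm u r
  · exact (pi_norm_le_iff_of_nonneg (norm_nonneg _)).2 fun r => by
      rw [← h1]; exact norm_le_pi_norm _ r

variable {Γ : Subgroup SL2}

/-- decomposition of a hyperbolic element into blocks -/
theorem exists_blocks {M : ℝ} (hc : ∀ g : SL2, ∃ γ ∈ Γ, ∃ k : SL2, Bd M k ∧ g = γ * k)
    {γ : Γ} {h : SL2} {T : ℝ}
    (hd : (γ : SL2) * h = h * flow T ∨ (γ : SL2) * h = -(h * flow T)) {n : ℕ} (hn : 1 ≤ n) :
    ∃ (e : ℕ → Γ) (k : ℕ → SL2) (s : SL2), (s = 1 ∨ s = -1) ∧ (∀ i, Bd M (k i)) ∧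
      (∀ i, i ≤ n → h * flow (i * (T / n)) = e i * k i) ∧ e n = γ * e 0 ∧ k n = k 0 * s := by
  choose e0 he0 k0 hk0 hek using fun i : ℕ => hc (h * flow (i * (T / n)))
  have hn0 : (n : ℝ) ≠ 0 := by positivity
  have h0 : h = e0 0 * k0 0 := by
    have := hek 0
    simpa [flow_zero] using this
  have hnn : n ≠ 0 := by omega
  obtain ⟨s, hs, hsd⟩ : ∃ s : SL2, (s = 1 ∨ s = -1) ∧ h * flow T = γ * h * s := by
    rcases hd with hd | hd
    · exact ⟨1, Or.inl rfl, by rw [hd, mul_one]⟩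
    · exact ⟨-1, Or.inr rfl, by rw [hd]; simp⟩
  refine ⟨fun i => if i = n then γ * ⟨e0 0, he0 0⟩ else ⟨e0 i, he0 i⟩,
    fun i => if i = n then k0 0 * s else k0 i, s, hs, fun i => ?_, fun i hi => ?_, ?_, ?_⟩
  · simp only
    split_ifs
    · rcases hs with rfl | rfl
      · rw [mul_one]; exact hk0 0
      · have : k0 0 * (-1 : SL2) = -(k0 0) := by simp
        rw [this]; exact (hk0 0).neg
    · exact hk0 i
  · simp only
    split_ifs with h1
    · subst h1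
      rw [mul_div_cancel₀ _ hn0, hsd]
      conv_lhs => rw [h0]
      simp only [Subgroup.coe_mul, mul_assoc]
    · exact hek i
  · simp only [if_true]
    rw [if_neg (Ne.symm hnn)]
  · simp only [if_true]
    rw [if_neg (Ne.symm hnn)]

/-- Uniform growth for all homomorphisms near the model. -/
theorem growth (hΓ : IsClosedSurfaceGroup Γ) (p q : ℕ) (hp : 0 < p) :
    ∃ (F : Finset Γ) (δ L : ℝ), 0 < δ ∧ 0 < L ∧
      ∀ R : Γ →* Matrix (J p q) (J p q) ℂ, (∀ γ ∈ F, ‖R γ - Mo p q γ‖ ≤ δ) →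
        ∀ (γ : Γ) (h : SL2) (T : ℝ), L ≤ T →
          ((γ : SL2) * h = h * flow T ∨ (γ : SL2) * h = -(h * flow T)) →
          ∃ n : ℕ, 1 ≤ n ∧ T ≤ L * (n + 1) ∧ ∃ P Q : Matrix (J p q) (J p q) ℂ,
            ∀ j : ℕ, (3 ^ n) ^ j ≤ ‖P * (R γ) ^ j * Q‖ := by
  obtain ⟨M, hM, hc⟩ := cocompact_bd hΓ
  set L : ℝ := 2 * Real.log 4 with hL
  have hLpos : 0 < L := by rw [hL]; have := Real.log_pos (show (1 : ℝ) < 4 by norm_num); linarith
  have hL4 : Real.exp (L / 2) = 4 := by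
    rw [hL, mul_div_cancel_left₀ _ (by norm_num : (2 : ℝ) ≠ 0), Real.exp_log (by norm_num)]
  set B := 2 * (2 * M * Real.exp L) * M with hB
  set c : ℝ := Fintype.card (J p q) * M with hcc
  have hcard : (1 : ℝ) ≤ Fintype.card (J p q) := by
    have : 0 < Fintype.card (J p q) := Fintype.card_pos_iff.2 ⟨Sum.inl (⟨0, hp⟩, 0)⟩
    exact_mod_cast this
  have hcpos : 0 < c := by rw [hcc]; positivity
  refine ⟨(finite_bd hΓ.discrete B).toFinset, 1 / (c * c), L, by positivity, hLpos, ?_⟩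
  intro R hR γ h T hT hd
  set n := ⌊T / L⌋₊ with hn
  have hn1 : 1 ≤ n := by
    rw [hn, Nat.one_le_floor_iff, le_div_iff₀ hLpos, one_mul]; exact hT
  have hnle : (n : ℝ) ≤ T / L := Nat.floor_le (div_nonneg (by linarith) hLpos.le)
  have hnlt : T / L < n + 1 := Nat.lt_floor_add_one _
  have hTpos : 0 < T := by linarith
  have hnpos : (0 : ℝ) < n := by exact_mod_cast hn1
  have hτ1 : L ≤ T / n := by
    rw [le_div_iff₀ hnpos]; rw [le_div_iff₀ hLpos] at hnle; linarith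
  have hτ2 : T / n ≤ 2 * L := by
    rw [div_le_iff₀ hnpos]
    rw [div_lt_iff₀ hLpos] at hnlt
    have : (1 : ℝ) ≤ n := by exact_mod_cast hn1
    nlinarith
  refine ⟨n, hn1, ?_, ?_⟩
  · rw [div_lt_iff₀ hLpos] at hnlt; linarith
  set τ := T / n with hτ
  obtain ⟨e, k, s, hs, hk, hek, hen, hkn⟩ := exists_blocks hc hd hn1
  -- the blocks
  have hblock : ∀ i, i < n → (((e i)⁻¹ * e (i + 1) : Γ) : SL2) = k i * flow τ * (k (i + 1))⁻¹ := by
    intro i hi
    have h1 := hek i hi.le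
    have h2 := hek (i + 1) hi
    have h3 : flow (((i + 1 : ℕ) : ℝ) * τ) = flow (i * τ) * flow τ := by
      rw [← flow_add]; congr 1; push_cast; ring
    rw [h3, ← mul_assoc, h1] at h2
    rw [Subgroup.coe_mul, Subgroup.coe_inv, inv_mul_eq_iff_eq_mul, ← mul_assoc, ← mul_assoc,
      eq_mul_inv_iff_mul_eq]
    exact h2.symm
  have hflow : Bd (Real.exp L) (flow τ) := bd_flow (by linarith) (Real.exp_le_exp.2 (by linarith))
  have hmem : ∀ i, i < n → ‖R ((e i)⁻¹ * e (i + 1)) - Mo p q ((e i)⁻¹ * e (i + 1) : Γ)‖ ≤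
      1 / (c * c) := by
    intro i hi
    apply hR
    rw [Set.Finite.mem_toFinset]
    show Bd B _
    rw [hblock i hi]
    exact ((hk i).mul hflow).mul (hk (i + 1)).inv
  have hX : ∀ i, i < n → ‖Mo p q (k i)⁻¹ * R ((e i)⁻¹ * e (i + 1)) * Mo p q (k (i + 1)) -
      Mo p q (flow τ)‖ ≤ 1 := by
    intro i hi
    have e1 : Mo p q (flow τ) = Mo p q (k i)⁻¹ * Mo p q ((e i)⁻¹ * e (i + 1) : Γ) *
        Mo p q (k (i + 1)) := by
      rw [hblock i hi, ← Mo_mul, ← Mo_mul]; congr 1; group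
    rw [e1, ← sub_mul, ← mul_sub]
    calc ‖Mo p q (k i)⁻¹ * (R ((e i)⁻¹ * e (i + 1)) - Mo p q ((e i)⁻¹ * e (i + 1) : Γ)) *
          Mo p q (k (i + 1))‖
        ≤ ‖Mo p q (k i)⁻¹ * (R ((e i)⁻¹ * e (i + 1)) - Mo p q ((e i)⁻¹ * e (i + 1) : Γ))‖ *
          ‖Mo p q (k (i + 1))‖ := norm_mul_le _ _
      _ ≤ (‖Mo p q (k i)⁻¹‖ * ‖R ((e i)⁻¹ * e (i + 1)) - Mo p q ((e i)⁻¹ * e (i + 1) : Γ)‖) *
          ‖Mo p q (k (i + 1))‖ := by gcongr; exact norm_mul_le _ _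
      _ ≤ (c * (1 / (c * c))) * c := by
        gcongr
        · exact Mo_norm hM (hk i).inv
        · exact hmem i hi
        · exact Mo_norm hM (hk (i + 1))
      _ = 1 := by field_simp
  -- the chain
  have hchain : ∀ i, i ≤ n → ∀ u : J p q → ℂ, Cone u →
      Cone ((Mo p q (k (n - i))⁻¹ * R ((e (n - i))⁻¹ * e n) * Mo p q (k n)) *ᵥ u) ∧
      3 ^ i * ‖u‖ ≤ ‖(Mo p q (k (n - i))⁻¹ * R ((e (n - i))⁻¹ * e n) * Mo p q (k n)) *ᵥ u‖ := by
    intro i
    induction i with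
    | zero =>
      intro _ u hu
      rw [Nat.sub_zero, inv_mul_cancel, map_one, mul_one, ← Mo_mul, inv_mul_cancel, Mo_one,
        one_mulVec, pow_zero, one_mul]
      exact ⟨hu, le_rfl⟩
    | succ i ih =>
      intro hi u hu
      obtain ⟨h1, h2⟩ := ih (by omega) u hu
      set m := n - (i + 1) with hm
      have hm1 : n - i = m + 1 := by omega
      rw [hm1] at h1 h2
      have hmn : m < n := by omega
      have e1 : Mo p q (k m)⁻¹ * R ((e m)⁻¹ * e n) * Mo p q (k n) =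
          (Mo p q (k m)⁻¹ * R ((e m)⁻¹ * e (m + 1)) * Mo p q (k (m + 1))) *
            (Mo p q (k (m + 1))⁻¹ * R ((e (m + 1))⁻¹ * e n) * Mo p q (k n)) := by
        have f1 : R ((e m)⁻¹ * e n) = R ((e m)⁻¹ * e (m + 1)) * R ((e (m + 1))⁻¹ * e n) := by
          rw [← map_mul]; congr 1; group
        have f2 : Mo p q (k (m + 1)) * Mo p q (k (m + 1))⁻¹ = 1 := by
          rw [← Mo_mul, mul_inv_cancel, Mo_one]
        rw [f1]
        calc Mo p q (k m)⁻¹ * (R ((e m)⁻¹ * e (m + 1)) * R ((e (m + 1))⁻¹ * e n)) * Mo p q (k n)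
            = Mo p q (k m)⁻¹ * R ((e m)⁻¹ * e (m + 1)) * 1 *
              (R ((e (m + 1))⁻¹ * e n) * Mo p q (k n)) := by rw [mul_one]; simp only [mul_assoc]
          _ = _ := by rw [← f2]; simp only [mul_assoc]
      rw [e1, ← mulVec_mulVec]
      obtain ⟨h3, h4⟩ := cone_step (τ := τ) (by
        rw [← hL4]; exact Real.exp_le_exp.2 (by linarith)) _ (hX m hmn) h1
      refine ⟨h3, ?_⟩
      calc (3 : ℝ) ^ (i + 1) * ‖u‖ = 3 * (3 ^ i * ‖u‖) := by ring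
        _ ≤ 3 * ‖(Mo p q (k (m + 1))⁻¹ * R ((e (m + 1))⁻¹ * e n) * Mo p q (k n)) *ᵥ u‖ := by
          gcongr
        _ ≤ _ := h4
  set A := Mo p q (k 0)⁻¹ * R (e 0)⁻¹ with hA
  set A' := R (e 0) * Mo p q (k 0) with hA'
  have hA'A : A' * A = 1 := by
    rw [hA, hA']
    calc R (e 0) * Mo p q (k 0) * (Mo p q (k 0)⁻¹ * R (e 0)⁻¹) =
        R (e 0) * (Mo p q (k 0) * Mo p q (k 0)⁻¹) * R (e 0)⁻¹ := by simp only [mul_assoc]
      _ = 1 := by
        rw [← Mo_mul, mul_inv_cancel, Mo_one, mul_one, ← map_mul, mul_inv_cancel, map_one]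
  have hZ : ∀ u : J p q → ℂ, Cone u → Cone ((A * R γ * A') *ᵥ u) ∧
      3 ^ n * ‖u‖ ≤ ‖(A * R γ * A') *ᵥ u‖ := by
    intro u hu
    obtain ⟨c1, c2⟩ := cone_sign u s hs
    have h1 := hchain n le_rfl _ (c1 hu)
    rw [Nat.sub_self, hen, hkn, c2, mulVec_mulVec] at h1
    have hss : s * s = 1 := by rcases hs with rfl | rfl <;> simp
    have e1 : Mo p q (k 0)⁻¹ * R ((e 0)⁻¹ * (γ * e 0)) * Mo p q (k 0 * s) * Mo p q s =
        A * R γ * A' := by
      rw [mul_assoc _ (Mo p q (k 0 * s)), ← Mo_mul, mul_assoc (k 0), hss, mul_one, map_mul, map_mul,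
        hA, hA']
      simp only [mul_assoc]
    rw [e1] at h1
    exact h1
  have hAA' : A * A' = 1 := by
    rw [hA, hA']
    calc Mo p q (k 0)⁻¹ * R (e 0)⁻¹ * (R (e 0) * Mo p q (k 0)) =
        Mo p q (k 0)⁻¹ * (R (e 0)⁻¹ * R (e 0)) * Mo p q (k 0) := by simp only [mul_assoc]
      _ = 1 := by
        rw [← map_mul, inv_mul_cancel, map_one, mul_one, ← Mo_mul, inv_mul_cancel, Mo_one]
  have hpow : ∀ j : ℕ, (A * R γ * A') ^ j = A * (R γ) ^ j * A' := by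
    intro j
    induction j with
    | zero => rw [pow_zero, pow_zero, mul_one, hAA']
    | succ j ih =>
      rw [pow_succ, ih, pow_succ]
      calc A * R γ ^ j * A' * (A * R γ * A') = A * R γ ^ j * (A' * A) * (R γ * A') := by
            simp only [mul_assoc]
        _ = _ := by rw [hA'A, mul_one]; simp only [mul_assoc]
  obtain ⟨u, hu, hu0⟩ : ∃ u : J p q → ℂ, Cone u ∧ 0 < ‖u‖ := by
    refine ⟨fun _ => 1, ⟨⟨0, hp⟩, fun r => le_rfl⟩, ?_⟩
    rw [norm_pos_iff]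
    intro h0
    have := congrFun h0 (Sum.inl (⟨0, hp⟩, 0))
    simp at this
  have hiter : ∀ j : ℕ, Cone ((A * R γ * A') ^ j *ᵥ u) ∧
      (3 ^ n) ^ j * ‖u‖ ≤ ‖(A * R γ * A') ^ j *ᵥ u‖ := by
    intro j
    induction j with
    | zero => rw [pow_zero, one_mulVec, pow_zero, one_mul]; exact ⟨hu, le_rfl⟩
    | succ j ih =>
      obtain ⟨h1, h2⟩ := hZ _ ih.1
      rw [mulVec_mulVec, ← pow_succ'] at h1 h2
      refine ⟨h1, ?_⟩
      calc ((3 : ℝ) ^ n) ^ (j + 1) * ‖u‖ = 3 ^ n * ((3 ^ n) ^ j * ‖u‖) := by ring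
        _ ≤ 3 ^ n * ‖(A * R γ * A') ^ j *ᵥ u‖ := by gcongr; exact ih.2
        _ ≤ _ := h2
  refine ⟨A, A', fun j => ?_⟩
  rw [← hpow]
  have h2 := (hiter j).2.trans (Matrix.linfty_opNorm_mulVec _ _)
  exact le_of_mul_le_mul_right h2 hu0

end Pool.Agent.W599.SA
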