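import Pool.Agent.H914R2.Core0

/-!
# Linear algebra: Engel type theorem and degeneration of families to their graded pieces
-/

open Module

namespace Pool.Agent.W599.SA

attribute [local instance 100] LieRing.ofAssociativeRing

section engel

variable {K V : Type*} [Field K] [AddCommGroup V] [Module K V] [Module.Finite K V]

/-- A nonunital algebra of endomorphisms all of whose members have trace `0` has a common kernel
vector. -/
theorem exists_common_kernel [Nontrivial V] (N : Submodule K (Module.End K V))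
    (hmul : ∀ x ∈ N, ∀ y ∈ N, x * y ∈ N) (hnil : ∀ x ∈ N, IsNilpotent x) :
    ∃ v : V, v ≠ 0 ∧ ∀ x ∈ N, x v = 0 := by
  let L : LieSubalgebra K (Module.End K V) :=
    { N with
      lie_mem' := by
        intro x y hx hy
        rw [LieRing.of_associative_ring_bracket]
        exact N.sub_mem (hmul x hx y hy) (hmul y hy x hx) }
  have hL : LieModule.IsNilpotent L V := by
    rw [LieModule.isNilpotent_iff_forall' (R := K)]
    intro x
    obtain ⟨k, hk⟩ := hnil x.1 x.2
    refine ⟨k, ?_⟩
    rw [← hk]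
    rfl
  have := LieModule.nontrivial_max_triv_of_isNilpotent K L V
  obtain ⟨⟨v, hv⟩, hv0⟩ := exists_ne (0 : LieModule.maxTrivSubmodule K L V)
  refine ⟨v, fun h => hv0 (Subtype.ext h), fun x hx => ?_⟩
  exact (LieModule.mem_maxTrivSubmodule (R := K) (L := L) (M := V) v).1 hv ⟨x, hx⟩

theorem nilpotent_of_trace [CharZero K] (N : Submodule K (Module.End K V))
    (hmul : ∀ x ∈ N, ∀ y ∈ N, x * y ∈ N) (htr : ∀ x ∈ N, LinearMap.trace K V x = 0) :
    ∀ x ∈ N, IsNilpotent x := by
  intro x hx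
  apply Pool.Agent.H914.isNilpotent_of_trace_pow
  intro r
  apply htr
  induction r with
  | zero => simpa using hx
  | succ r ih => rw [pow_succ]; exact hmul _ ih _ hx

end engel

section degeneration

/-- The family `T` of endomorphisms of `V` degenerates to the family `D` of matrices. -/
def Deg {K V R ι : Type*} [NormedField K] [AddCommGroup V] [Module K V] [Fintype ι]
    [DecidableEq ι] (T : R → Module.End K V) (D : R → Matrix ι ι K) : Prop :=
  ∀ (F : Finset R) (ε : ℝ), 0 < ε → ∃ b : Basis ι K V, ∀ r ∈ F, ∀ i j,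
    ‖LinearMap.toMatrix b b (T r) i j - D r i j‖ < ε

theorem Deg.reindex {K V R ι ι' : Type*} [NormedField K] [AddCommGroup V] [Module K V]
    [Fintype ι] [DecidableEq ι] [Fintype ι'] [DecidableEq ι'] {T : R → Module.End K V}
    {D : R → Matrix ι ι K} (h : Deg T D) (e : ι' ≃ ι) :
    Deg T (fun r => (D r).submatrix e e) := by
  intro F ε hε
  obtain ⟨b, hb⟩ := h F ε hε
  refine ⟨b.reindex e.symm, fun r hr i j => ?_⟩
  have := hb r hr (e i) (e j)
  simpa [LinearMap.toMatrix_apply, Matrix.submatrix_apply] using this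

theorem Deg.congr {K V R ι : Type*} [NormedField K] [AddCommGroup V] [Module K V]
    [Fintype ι] [DecidableEq ι] {T : R → Module.End K V}
    {D D' : R → Matrix ι ι K} (h : Deg T D) (e : ∀ r, D r = D' r) : Deg T D' := by
  have : D = D' := funext e
  rwa [← this]

/-- One step of the degeneration. -/
theorem Deg.step {K V R m n : Type*} [NontriviallyNormedField K] [AddCommGroup V] [Module K V]
    [Fintype m] [DecidableEq m] [Fintype n] [DecidableEq n] (T : R → Module.End K V)
    (W : Submodule K V) (hW : ∀ r, W ≤ W.comap (T r)) (bW : Basis m K W)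
    (D₁ : R → Matrix m m K) (hD₁ : ∀ r, ∀ j, T r (bW j) = ∑ i, D₁ r i j • (bW i : V))
    (D₂ : R → Matrix n n K) (hD₂ : Deg (fun r => W.mapQ W (T r) (hW r)) D₂) :
    Deg T (fun r => Matrix.fromBlocks (D₁ r) 0 0 (D₂ r)) := by
  intro F ε hε
  obtain ⟨bQ, hbQ⟩ := hD₂ F ε hε
  set B : Basis (m ⊕ n) K V := Basis.sumQuot bW bQ with hB
  -- bound for the entries
  obtain ⟨C, hC0, hC⟩ : ∃ C : ℝ, 0 < C ∧ ∀ r ∈ F, ∀ i j, ‖B.repr (T r (B j)) i‖ ≤ C := by
    classical
    refine ⟨1 + ∑ r ∈ F, ∑ i, ∑ j, ‖B.repr (T r (B j)) i‖, by positivity, fun r hr i j => ?_⟩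
    have h1 : ‖B.repr (T r (B j)) i‖ ≤ ∑ j, ‖B.repr (T r (B j)) i‖ :=
      Finset.single_le_sum (f := fun j => ‖B.repr (T r (B j)) i‖)
        (fun _ _ => norm_nonneg _) (Finset.mem_univ j)
    have h2 : ∑ j, ‖B.repr (T r (B j)) i‖ ≤ ∑ i, ∑ j, ‖B.repr (T r (B j)) i‖ :=
      Finset.single_le_sum (f := fun i => ∑ j, ‖B.repr (T r (B j)) i‖)
        (fun _ _ => Finset.sum_nonneg fun _ _ => norm_nonneg _) (Finset.mem_univ i)
    have h3 : ∑ i, ∑ j, ‖B.repr (T r (B j)) i‖ ≤ ∑ r ∈ F, ∑ i, ∑ j, ‖B.repr (T r (B j)) i‖ :=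
      Finset.single_le_sum (f := fun r => ∑ i, ∑ j, ‖B.repr (T r (B j)) i‖)
        (fun _ _ => Finset.sum_nonneg fun _ _ => Finset.sum_nonneg fun _ _ => norm_nonneg _) hr
    linarith
  obtain ⟨s, hs⟩ := NormedField.exists_lt_norm K (C / ε)
  have hs0 : s ≠ 0 := by
    rintro rfl
    rw [norm_zero] at hs
    exact absurd (div_pos hC0 hε) (not_lt.2 hs.le)
  set w : m ⊕ n → Kˣ := Sum.elim (fun _ => Units.mk0 s hs0) (fun _ => 1) with hw
  refine ⟨B.unitsSMul w, fun r hr i j => ?_⟩
  rw [LinearMap.toMatrix_apply, Basis.repr_unitsSMul, Basis.unitsSMul_apply]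
  simp only [Units.smul_def, map_smul, Finsupp.smul_apply, smul_eq_mul]
  rcases i with i | i <;> rcases j with j | j
  · have h1 : B.repr (T r (B (Sum.inl j))) (Sum.inl i) = D₁ r i j := by
      have hmem : T r (B (Sum.inl j)) ∈ W := by
        rw [hB, Basis.sumQuot_inl]; exact hW r (bW j).2
      rw [hB, Basis.sumQuot_repr_inl_of_mem _ _ _ (by rw [← hB]; exact hmem)]
      have h2 : (⟨T r (B (Sum.inl j)), hmem⟩ : W) = ∑ i, D₁ r i j • bW i := by
        apply Subtype.ext
        rw [Submodule.coe_sum]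
        simp only [hB, Basis.sumQuot_inl, Submodule.coe_smul]
        exact hD₁ r j
      have h3 : bW.repr ⟨T r (B (Sum.inl j)), hmem⟩ i = D₁ r i j := by
        rw [h2, map_sum, Finsupp.finsetSum_apply]
        simp [Finsupp.single_apply]
      exact h3
    rw [h1, Matrix.fromBlocks_apply₁₁]
    simp only [hw, Sum.elim_inl]
    rw [← mul_assoc, Units.inv_mul, one_mul, sub_self, norm_zero]
    exact hε
  · rw [Matrix.fromBlocks_apply₁₂]
    simp only [hw, Sum.elim_inl, Sum.elim_inr, Units.val_one, one_mul, Matrix.zero_apply, sub_zero,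
      Units.val_inv_eq_inv_val, Units.val_mk0, norm_mul, norm_inv]
    have h1 := hC r hr (Sum.inl i) (Sum.inr j)
    have hsp : 0 < ‖s‖ := norm_pos_iff.2 hs0
    rw [inv_mul_lt_iff₀ hsp]
    have : C < ‖s‖ * ε := by rwa [div_lt_iff₀ hε] at hs
    linarith
  · have h1 : B.repr (T r (B (Sum.inl j))) (Sum.inr i) = 0 := by
      rw [hB]
      apply Basis.sumQuot_repr_inr_of_mem
      rw [Basis.sumQuot_inl]; exact hW r (bW j).2
    rw [h1, Matrix.fromBlocks_apply₂₁]
    simpa using hε
  · have h1 : B.repr (T r (B (Sum.inr j))) (Sum.inr i) =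
        LinearMap.toMatrix bQ bQ (W.mapQ W (T r) (hW r)) i j := by
      rw [hB, Basis.sumQuot_repr_inr, LinearMap.toMatrix_apply, ← Basis.sumQuot_inr bW bQ j]
      rfl
    rw [h1, Matrix.fromBlocks_apply₂₂]
    simpa [hw] using hbQ r hr i j

/-- The line spanned by a nonzero vector has a basis indexed by `Unit`. -/
theorem exists_basis_span {K V : Type*} [Field K] [AddCommGroup V] [Module K V] {v : V}
    (hv : v ≠ 0) : ∃ b : Basis Unit K (K ∙ v), (b () : V) = v := by
  refine ⟨(Basis.singleton Unit K).map (LinearEquiv.toSpanNonzeroSingleton K V v hv), ?_⟩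
  simp

/-- The algebra induced on a quotient. -/
def quotAlg {K V : Type*} [Field K] [AddCommGroup V] [Module K V] (W : Submodule K V)
    (N : Submodule K (Module.End K V)) : Submodule K (Module.End K (V ⧸ W)) where
  carrier := {y | ∃ x ∈ N, ∀ u, y (W.mkQ u) = W.mkQ (x u)}
  add_mem' := by
    rintro y y' ⟨x, hx, h⟩ ⟨x', hx', h'⟩
    exact ⟨x + x', N.add_mem hx hx', fun u => by
      rw [LinearMap.add_apply, LinearMap.add_apply, h, h', map_add]⟩
  zero_mem' := ⟨0, N.zero_mem, fun u => by simp⟩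
  smul_mem' := by
    rintro c y ⟨x, hx, h⟩
    exact ⟨c • x, N.smul_mem c hx, fun u => by
      rw [LinearMap.smul_apply, LinearMap.smul_apply, h, map_smul]⟩

theorem quotAlg_mul {K V : Type*} [Field K] [AddCommGroup V] [Module K V] (W : Submodule K V)
    (N : Submodule K (Module.End K V)) (hmul : ∀ x ∈ N, ∀ y ∈ N, x * y ∈ N) :
    ∀ x ∈ quotAlg W N, ∀ y ∈ quotAlg W N, x * y ∈ quotAlg W N := by
  rintro y ⟨x, hx, h⟩ y' ⟨x', hx', h'⟩
  exact ⟨x * x', hmul x hx x' hx', fun u => by
    rw [Module.End.mul_apply, Module.End.mul_apply, h', h]⟩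

theorem quotAlg_nil {K V : Type*} [Field K] [AddCommGroup V] [Module K V] (W : Submodule K V)
    (N : Submodule K (Module.End K V)) (hnil : ∀ x ∈ N, IsNilpotent x) :
    ∀ x ∈ quotAlg W N, IsNilpotent x := by
  rintro y ⟨x, hx, h⟩
  obtain ⟨k, hk⟩ := hnil x hx
  refine ⟨k, ?_⟩
  have : ∀ (k : ℕ) u, (y ^ k) (W.mkQ u) = W.mkQ ((x ^ k) u) := by
    intro k
    induction k with
    | zero => intro u; simp
    | succ k ih =>
      intro u
      rw [pow_succ, pow_succ, Module.End.mul_apply, Module.End.mul_apply, h, ih]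
  refine LinearMap.ext fun u => ?_
  obtain ⟨u, rfl⟩ := W.mkQ_surjective u
  rw [this, hk]
  simp

/-- A family generating a nil algebra degenerates to `0`. -/
theorem deg_zero {K : Type*} [NontriviallyNormedField K] [CharZero K] {R : Type*} (n : ℕ) :
    ∀ (V : Type) [AddCommGroup V] [Module K V] [Module.Finite K V],
      finrank K V = n → ∀ (T : R → Module.End K V) (N : Submodule K (Module.End K V)),
      (∀ r, T r ∈ N) → (∀ x ∈ N, ∀ y ∈ N, x * y ∈ N) → (∀ x ∈ N, IsNilpotent x) →
      Deg T (fun _ => (0 : Matrix (Fin n) (Fin n) K)) := by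
  induction n with
  | zero =>
    intro V _ _ _ hn T N _ _ _ F ε hε
    exact ⟨(finBasisOfFinrankEq K V hn), fun r _ i => i.elim0⟩
  | succ n ih =>
    intro V _ _ _ hn T N hT hmul hnil
    have : Nontrivial V := nontrivial_of_finrank_pos (R := K) (by omega)
    obtain ⟨v, hv, hNv⟩ := exists_common_kernel N hmul hnil
    obtain ⟨bW, hbW⟩ := exists_basis_span (K := K) hv
    have hW : ∀ r, (K ∙ v) ≤ (K ∙ v).comap (T r) := by
      intro r
      rw [Submodule.span_le, Set.singleton_subset_iff]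
      show T r v ∈ (K ∙ v)
      rw [hNv _ (hT r)]
      exact Submodule.zero_mem _
    have hfr : finrank K (V ⧸ (K ∙ v)) = n := by
      have h1 := Submodule.finrank_quotient_add_finrank (K ∙ v)
      rw [finrank_span_singleton hv] at h1
      omega
    have h2 := ih (V ⧸ (K ∙ v)) hfr (fun r => (K ∙ v).mapQ (K ∙ v) (T r) (hW r))
      (quotAlg (K ∙ v) N) (fun r => ⟨T r, hT r, fun u => rfl⟩) (quotAlg_mul _ _ hmul)
      (quotAlg_nil _ _ hnil)
    have h3 := Deg.step T (K ∙ v) hW bW (fun _ => 0) (fun r j => by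
      obtain rfl : j = () := rfl
      rw [hbW, hNv _ (hT r)]
      simp) _ h2
    have e : Fin (n + 1) ≃ Unit ⊕ Fin n :=
      Fintype.equivOfCardEq (by simp [add_comm])
    refine (h3.reindex e).congr fun r => ?_
    ext i j
    rw [Matrix.submatrix_apply]
    rcases e i with a | a <;> rcases e j with b | b <;> rfl

end degeneration

section model

/-- `|ι|` copies of the two-dimensional representation `π` and `|κ|` copies of the
character `ε`. -/
def model {A : Type*} (ι κ : Type*) [DecidableEq ι] [DecidableEq κ]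
    (π : A → Matrix (Fin 2) (Fin 2) ℂ)
    (ε : A → ℂ) (a : A) : Matrix ((ι × Fin 2) ⊕ κ) ((ι × Fin 2) ⊕ κ) ℂ :=
  Matrix.fromBlocks (Matrix.of fun i j => if i.1 = j.1 then π a i.2 j.2 else 0) 0 0
    (Matrix.of fun i j => if i = j then ε a else 0)

theorem model_trace {A : Type*} (ι κ : Type*) [DecidableEq ι] [DecidableEq κ] [Fintype ι] [Fintype κ]
    (π : A → Matrix (Fin 2) (Fin 2) ℂ) (ε : A → ℂ) (a : A) :
    (model ι κ π ε a).trace = Fintype.card ι * (π a).trace + Fintype.card κ * ε a := by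
  simp [model, Matrix.trace, Matrix.diag, Fintype.sum_sum_type, Fintype.sum_prod_type]
  ring

variable {A : Type*} [Ring A] [Algebra ℂ A]

/-- the data: elements of `A` separating the matrix units of `π` and `ε` -/
structure Units2 (π : A →ₐ[ℂ] Matrix (Fin 2) (Fin 2) ℂ) (ε : A →ₐ[ℂ] ℂ) where
  e : Fin 2 → Fin 2 → A
  f : A
  he : ∀ i j, π (e i j) = Matrix.single i j 1
  he' : ∀ i j, ε (e i j) = 0
  hf : π f = 0
  hf' : ε f = 1

variable {π : A →ₐ[ℂ] Matrix (Fin 2) (Fin 2) ℂ} {ε : A →ₐ[ℂ] ℂ}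

/-- The homomorphism induced on a quotient. -/
def quotHom {V : Type*} [AddCommGroup V] [Module ℂ V] (Φ : A →ₐ[ℂ] Module.End ℂ V)
    (W : Submodule ℂ V) (hW : ∀ a, W ≤ W.comap (Φ a)) : A →ₐ[ℂ] Module.End ℂ (V ⧸ W) :=
  AlgHom.ofLinearMap
    { toFun := fun a => W.mapQ W (Φ a) (hW a)
      map_add' := fun a b => by
        refine Submodule.linearMap_qext _ (LinearMap.ext fun u => ?_)
        simp
      map_smul' := fun c a => by
        refine Submodule.linearMap_qext _ (LinearMap.ext fun u => ?_)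
        simp }
    (by
      refine Submodule.linearMap_qext _ (LinearMap.ext fun u => ?_)
      simp)
    (fun a b => by
      refine Submodule.linearMap_qext _ (LinearMap.ext fun u => ?_)
      simp)

theorem quotHom_apply {V : Type*} [AddCommGroup V] [Module ℂ V] (Φ : A →ₐ[ℂ] Module.End ℂ V)
    (W : Submodule ℂ V) (hW : ∀ a, W ≤ W.comap (Φ a)) (a : A) :
    quotHom Φ W hW a = W.mapQ W (Φ a) (hW a) := rfl

theorem quotHom_nil {V : Type*} [AddCommGroup V] [Module ℂ V] (Φ : A →ₐ[ℂ] Module.End ℂ V)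
    (W : Submodule ℂ V) (hW : ∀ a, W ≤ W.comap (Φ a)) {a : A} (h : IsNilpotent (Φ a)) :
    IsNilpotent (quotHom Φ W hW a) := by
  obtain ⟨k, hk⟩ := h
  refine ⟨k, ?_⟩
  rw [← map_pow, quotHom_apply]
  refine Submodule.linearMap_qext _ (LinearMap.ext fun u => ?_)
  simp [map_pow, hk]

/-- reordering of indices -/
def e1 (ι κ : Type*) : ((ι × Fin 2) ⊕ (Unit ⊕ κ)) ≃ (Unit ⊕ ((ι × Fin 2) ⊕ κ)) where
  toFun
    | Sum.inl x => Sum.inr (Sum.inl x)
    | Sum.inr (Sum.inl u) => Sum.inl u
    | Sum.inr (Sum.inr k) => Sum.inr (Sum.inr k)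
  invFun
    | Sum.inl u => Sum.inr (Sum.inl u)
    | Sum.inr (Sum.inl x) => Sum.inl x
    | Sum.inr (Sum.inr k) => Sum.inr (Sum.inr k)
  left_inv := by rintro (x | (u | k)) <;> rfl
  right_inv := by rintro (u | (x | k)) <;> rfl

/-- reordering of indices -/
def e2 (ι κ : Type*) : (((Unit ⊕ ι) × Fin 2) ⊕ κ) ≃ (Fin 2 ⊕ ((ι × Fin 2) ⊕ κ)) where
  toFun
    | Sum.inl (Sum.inl _, x) => Sum.inl x
    | Sum.inl (Sum.inr i, x) => Sum.inr (Sum.inl (i, x))
    | Sum.inr k => Sum.inr (Sum.inr k)
  invFun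
    | Sum.inl x => Sum.inl (Sum.inl (), x)
    | Sum.inr (Sum.inl (i, x)) => Sum.inl (Sum.inr i, x)
    | Sum.inr (Sum.inr k) => Sum.inr k
  left_inv := by rintro (⟨(u | i), x⟩ | k) <;> rfl
  right_inv := by rintro (x | (⟨i, x⟩ | k)) <;> rfl

theorem deg_model_aux (u : Units2 π ε) (n : ℕ) :
    ∀ (V : Type) [AddCommGroup V] [Module ℂ V] [Module.Finite ℂ V], finrank ℂ V = n →
      ∀ (Φ : A →ₐ[ℂ] Module.End ℂ V), (∀ a, π a = 0 → ε a = 0 → IsNilpotent (Φ a)) →
      ∃ (ι κ : Type) (_ : Fintype ι) (_ : DecidableEq ι) (_ : Fintype κ) (_ : DecidableEq κ),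
        Deg (fun a => Φ a) (model ι κ π ε) := by
  induction n using Nat.strong_induction_on with
  | _ n ih =>
  intro V _ _ _ hn Φ hnil
  rcases Nat.eq_zero_or_pos n with rfl | hpos
  · refine ⟨Empty, Empty, inferInstance, inferInstance, inferInstance, inferInstance, ?_⟩
    intro F ε' hε'
    have e : Fin 0 ≃ (Empty × Fin 2) ⊕ Empty := Fintype.equivOfCardEq (by simp)
    exact ⟨(finBasisOfFinrankEq ℂ V hn).reindex e, fun r _ i => by
      rcases i with ⟨i, _⟩ | i <;> exact i.elim⟩
  have : Nontrivial V := nontrivial_of_finrank_pos (R := ℂ) (by omega)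
  -- the ideal
  set N : Submodule ℂ (Module.End ℂ V) :=
    Submodule.map Φ.toLinearMap (LinearMap.ker π.toLinearMap ⊓ LinearMap.ker ε.toLinearMap) with hN
  have hNm : ∀ x ∈ N, ∃ a, π a = 0 ∧ ε a = 0 ∧ Φ a = x := by
    rintro x ⟨a, ⟨h1, h2⟩, rfl⟩
    exact ⟨a, h1, h2, rfl⟩
  have hNm' : ∀ a, π a = 0 → ε a = 0 → Φ a ∈ N := fun a h1 h2 => ⟨a, ⟨h1, h2⟩, rfl⟩
  obtain ⟨v, hv, hNv⟩ := exists_common_kernel N (by
      intro x hx y hy
      obtain ⟨a, h1, h2, rfl⟩ := hNm x hx
      obtain ⟨b, h3, h4, rfl⟩ := hNm y hy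
      rw [← map_mul]
      exact hNm' _ (by rw [map_mul, h1, zero_mul]) (by rw [map_mul, h2, zero_mul])) (by
      intro x hx
      obtain ⟨a, h1, h2, rfl⟩ := hNm x hx
      exact hnil a h1 h2)
  have hI : ∀ a b, π a = π b → ε a = ε b → Φ a v = Φ b v := by
    intro a b h1 h2
    have := hNv _ (hNm' (a - b) (by rw [map_sub, h1, sub_self]) (by rw [map_sub, h2, sub_self]))
    rw [map_sub, LinearMap.sub_apply, sub_eq_zero] at this
    exact this
  by_cases hf : Φ u.f v = 0
  · -- a copy of `π`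
    have hv' : v = Φ (u.e 0 0) v + Φ (u.e 1 1) v := by
      have := hI 1 (u.e 0 0 + u.e 1 1 + u.f) (by
        rw [map_one, map_add, map_add, u.he, u.he, u.hf]
        ext i j
        fin_cases i <;> fin_cases j <;> simp [Matrix.single]) (by
        rw [map_one, map_add, map_add, u.he', u.he', u.hf']; simp)
      rw [map_one, map_add, map_add, LinearMap.add_apply, LinearMap.add_apply, hf, add_zero] at this
      exact this
    obtain ⟨i, hi⟩ : ∃ i, Φ (u.e i i) v ≠ 0 := by
      by_contra hcon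
      push Not at hcon
      rw [hcon 0, hcon 1, add_zero] at hv'
      exact hv hv'
    set w : Fin 2 → V := fun j => Φ (u.e j i) v with hw
    have hact : ∀ a j, Φ a (w j) = ∑ l, π a l j • w l := by
      intro a j
      have := hI (a * u.e j i) (∑ l, π a l j • u.e l i) (by
        rw [map_mul, map_sum, u.he]
        simp only [map_smul, u.he]
        ext x y
        fin_cases x <;> fin_cases y <;> fin_cases i <;> fin_cases j <;>
          simp [Matrix.single, Matrix.mul_apply, Fin.sum_univ_two, Matrix.add_apply,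
            Matrix.smul_apply]) (by
        rw [map_mul, map_sum, u.he']
        simp only [map_smul, u.he']; simp)
      rw [map_mul, Module.End.mul_apply, map_sum, LinearMap.sum_apply] at this
      simp only [map_smul, LinearMap.smul_apply] at this
      exact this
    have hdual : ∀ j l, Φ (u.e i j) (w l) = if j = l then Φ (u.e i i) v else 0 := by
      intro j l
      have := hI (u.e i j * u.e l i) (if j = l then u.e i i else 0) (by
        rw [map_mul, u.he, u.he]
        split_ifs with h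
        · subst h
          rw [u.he]
          simp
        · rw [map_zero, Matrix.single_mul_single_of_ne _ _ _ _ h]) (by
        rw [map_mul, u.he', u.he', zero_mul]
        split_ifs
        · rw [u.he']
        · rw [map_zero])
      rw [map_mul, Module.End.mul_apply] at this
      rw [hw]
      simp only
      rw [this]
      split_ifs <;> simp
    have hli : LinearIndependent ℂ w := by
      rw [Fintype.linearIndependent_iff]
      intro g hg j
      have h1 := congrArg (Φ (u.e i j)) hg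
      rw [map_sum, map_zero] at h1
      simp only [map_smul, hdual, smul_ite, smul_zero, Finset.sum_ite_eq, Finset.mem_univ,
        if_true] at h1
      exact (smul_eq_zero.1 h1).resolve_right hi
    set W := Submodule.span ℂ (Set.range w) with hWdef
    set bW : Basis (Fin 2) ℂ W := Basis.span hli with hbW
    have hbWv : ∀ j, (bW j : V) = w j := fun j => by rw [hbW, Basis.span_apply]
    have hWinv : ∀ a, W ≤ W.comap (Φ a) := by
      intro a
      rw [hWdef, Submodule.span_le]
      rintro _ ⟨j, rfl⟩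
      show Φ a (w j) ∈ W
      rw [hact]
      exact Submodule.sum_mem _ fun l _ => Submodule.smul_mem _ _ (Submodule.subset_span ⟨l, rfl⟩)
    have hfr : finrank ℂ (V ⧸ W) + 2 = n := by
      have h1 := Submodule.finrank_quotient_add_finrank W
      have h2 : finrank ℂ W = 2 := by rw [finrank_eq_card_basis bW]; simp
      omega
    obtain ⟨ι, κ, i1, i2, i3, i4, hdeg⟩ := ih (finrank ℂ (V ⧸ W)) (by omega) (V ⧸ W) rfl
      (quotHom Φ W hWinv) (fun a h1 h2 => quotHom_nil Φ W hWinv (hnil a h1 h2))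
    refine ⟨Unit ⊕ ι, κ, inferInstance, inferInstance, i3, i4, ?_⟩
    have hstep := Deg.step (fun a => Φ a) W hWinv bW (fun a => π a) (fun a j => by
      simp only [hbWv]; exact hact a j) (model ι κ π ε) hdeg
    refine (hstep.reindex (e2 ι κ)).congr fun a => ?_
    ext x y
    rcases x with ⟨(x | x), x'⟩ | x <;> rcases y with ⟨(y | y), y'⟩ | y <;>
      simp [model, e2, Matrix.fromBlocks, Matrix.submatrix_apply]
  · -- a trivial submodule
    set w := Φ u.f v with hw
    have hact : ∀ a, Φ a w = ε a • w := by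
      intro a
      have := hI (a * u.f) (ε a • u.f) (by rw [map_mul, map_smul, u.hf]; simp)
        (by rw [map_mul, map_smul, u.hf']; simp)
      rw [map_mul, Module.End.mul_apply, map_smul, LinearMap.smul_apply] at this
      exact this
    obtain ⟨bW, hbW⟩ := exists_basis_span (K := ℂ) hf
    have hWinv : ∀ a, (ℂ ∙ w) ≤ (ℂ ∙ w).comap (Φ a) := by
      intro a
      rw [Submodule.span_le, Set.singleton_subset_iff]
      show Φ a w ∈ (ℂ ∙ w)
      rw [hact]
      exact Submodule.smul_mem _ _ (Submodule.mem_span_singleton_self w)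
    have hfr : finrank ℂ (V ⧸ (ℂ ∙ w)) + 1 = n := by
      have h1 := Submodule.finrank_quotient_add_finrank (ℂ ∙ w)
      rw [finrank_span_singleton hf] at h1
      omega
    obtain ⟨ι, κ, i1, i2, i3, i4, hdeg⟩ := ih (finrank ℂ (V ⧸ (ℂ ∙ w))) (by omega)
      (V ⧸ (ℂ ∙ w)) rfl (quotHom Φ (ℂ ∙ w) hWinv)
      (fun a h1 h2 => quotHom_nil Φ _ hWinv (hnil a h1 h2))
    refine ⟨ι, Unit ⊕ κ, i1, i2, inferInstance, inferInstance, ?_⟩
    have hstep := Deg.step (fun a => Φ a) (ℂ ∙ w) hWinv bW
      (fun a => Matrix.of fun _ _ => ε a) (fun a j => by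
      obtain rfl : j = () := rfl
      rw [hbW, hact]; simp [hbW]) (model ι κ π ε) hdeg
    refine (hstep.reindex (e1 ι κ)).congr fun a => ?_
    ext x y
    rcases x with x | (x | x) <;> rcases y with y | (y | y) <;>
      simp [model, e1, Matrix.fromBlocks, Matrix.submatrix_apply]

/-- The trace is continuous under degeneration. -/
theorem Deg.trace {V R ι : Type*} [AddCommGroup V] [Module ℂ V]
    [Fintype ι] [DecidableEq ι] {T : R → Module.End ℂ V} {D : R → Matrix ι ι ℂ} (h : Deg T D)
    (r : R) : LinearMap.trace ℂ V (T r) = (D r).trace := by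
  by_contra hne
  have hpos : 0 < ‖LinearMap.trace ℂ V (T r) - (D r).trace‖ := norm_pos_iff.2 (sub_ne_zero.2 hne)
  set c := ‖LinearMap.trace ℂ V (T r) - (D r).trace‖ with hc
  obtain ⟨b, hb⟩ := h {r} (c / (Fintype.card ι + 1)) (by positivity)
  have h1 : LinearMap.trace ℂ V (T r) - (D r).trace =
      ∑ i, (LinearMap.toMatrix b b (T r) i i - D r i i) := by
    rw [LinearMap.trace_eq_matrix_trace ℂ b, Finset.sum_sub_distrib]; rfl
  have h2 : c ≤ ∑ _i : ι, c / (Fintype.card ι + 1) := by
    rw [hc, h1]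
    refine (norm_sum_le _ _).trans (Finset.sum_le_sum fun i _ => ?_)
    rw [← h1, ← hc]
    exact (hb r (Finset.mem_singleton_self r) i i).le
  rw [Finset.sum_const, Finset.card_univ, nsmul_eq_mul, mul_div_assoc', le_div_iff₀ (by positivity)]
    at h2
  nlinarith

/-- Structure theorem: a homomorphism with the trace of `π ^ p ⊕ ε ^ q` degenerates to
`π ^ p ⊕ ε ^ q`. -/
theorem deg_model (u : Units2 π ε) (V : Type) [AddCommGroup V] [Module ℂ V] [Module.Finite ℂ V]
    (Φ : A →ₐ[ℂ] Module.End ℂ V) (p q : ℕ)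
    (htr : ∀ a, LinearMap.trace ℂ V (Φ a) = p * (π a).trace + q * ε a) :
    Deg (fun a => Φ a) (model (Fin p) (Fin q) π ε) := by
  have hnil : ∀ a, π a = 0 → ε a = 0 → IsNilpotent (Φ a) := by
    intro a h1 h2
    apply Pool.Agent.H914.isNilpotent_of_trace_pow
    intro r
    rw [← map_pow, htr, map_pow, map_pow, h1, h2]
    simp
  obtain ⟨ι, κ, i1, i2, i3, i4, hdeg⟩ := deg_model_aux u _ V rfl Φ hnil
  have ht : ∀ a, (Fintype.card ι : ℂ) * (π a).trace + Fintype.card κ * ε a =
      p * (π a).trace + q * ε a := by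
    intro a
    rw [← htr, hdeg.trace a, model_trace]
  have hp : Fintype.card ι = p := by
    have := ht (u.e 0 0)
    rw [u.he, u.he'] at this
    simpa using this
  have hq : Fintype.card κ = q := by
    have := ht u.f
    rw [u.hf, u.hf'] at this
    simpa using this
  set eι : Fin p ≃ ι := (Fintype.equivFinOfCardEq hp).symm
  set eκ : Fin q ≃ κ := (Fintype.equivFinOfCardEq hq).symm
  refine (hdeg.reindex (Equiv.sumCongr (Equiv.prodCongr eι (Equiv.refl _)) eκ)).congr fun a => ?_
  ext x y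
  rcases x with ⟨x, x'⟩ | x <;> rcases y with ⟨y, y'⟩ | y <;>
    simp [model, Matrix.fromBlocks, Matrix.submatrix_apply]

end model

end Pool.Agent.W599.SA
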