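import Pool.Agent.W599.SA.NotIn

/-!
# The simple `k`-Anosov domain is not a maximal domain of discontinuity for `d ≥ 4`
-/

open Matrix Topology Filter Module UpperHalfPlane

namespace Pool.Agent.W599.SA

variable {Γ : Subgroup SL2}

theorem tangent_flow {g : SL2} (hg : TangentToSimpleClosed Γ g) (u : ℝ) :
    TangentToSimpleClosed Γ (g * flow u) := by
  obtain ⟨T, hT, ⟨γ, hγ, hd⟩, h⟩ := hg
  have hcomm : flow T * flow u = flow u * flow T := by
    rw [← flow_add, ← flow_add, add_comm]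
  refine ⟨T, hT, ⟨γ, hγ, ?_⟩, fun s t η hη hst => ?_⟩
  · rcases hd with hd | hd
    · left; rw [← mul_assoc, hd, mul_assoc, hcomm, mul_assoc]
    · right; rw [← mul_assoc, hd, neg_mul, mul_assoc, hcomm, mul_assoc]
  · obtain ⟨n, hn⟩ := h (u + s) (u + t) η hη (by
      rw [flow_add, flow_add, ← mul_assoc, ← mul_assoc]; exact hst)
    exact ⟨n, by linarith⟩

theorem cx_flow_pow_trace (u : ℝ) (n : ℕ) : ((cx (flow u)) ^ n).trace =
    ((Real.exp (u / 2) : ℝ) : ℂ) ^ n + ((Real.exp (-(u / 2)) : ℝ) : ℂ) ^ n := by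
  have h : cx (flow u) = Matrix.diagonal ![((Real.exp (u / 2) : ℝ) : ℂ),
      ((Real.exp (-(u / 2)) : ℝ) : ℂ)] := by
    ext i j
    rw [cx_apply]
    fin_cases i <;> fin_cases j <;> simp
  rw [h, Matrix.diagonal_pow, Matrix.trace_diagonal, Fin.sum_univ_two]
  rfl

theorem not_mem (hΓ : IsClosedSurfaceGroup Γ) {d p q k : ℕ} (hd : d = 2 * p + q) (hp : 0 < p)
    (hk : 1 ≤ k) (hkd : k < d) (hkp : k ≠ p) (hkq : k ≠ p + q) (y : CharVar Γ d)
    (hy : ∀ γ, y.1 γ = (p : ℂ) * (cx γ).trace + q) : y ∉ simpleAnosovDomain Γ d k := by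
  rintro ⟨ρ, ⟨P, N, C, c, hP, hN, hC, hc, hdom⟩, hρ⟩
  obtain ⟨h, γ, T, hT, hγ, hd', hsimple⟩ := exists_simple_closed hΓ
  have hF : h ∈ BirmanSeries Γ := subset_closure hsimple
  have hFu : ∀ u, h * flow u ∈ BirmanSeries Γ := fun u => subset_closure (tangent_flow hsimple u)
  set γ' : Γ := ⟨γ, hγ⟩ with hγ'
  set A : Module.End ℂ (Fin d → ℂ) := Matrix.toLin' (mat ρ γ'⁻¹) with hA
  set P' : Module.End ℂ (Fin d → ℂ) := Matrix.toLin' (P h) with hP'
  have hmm : mat ρ γ' * mat ρ γ'⁻¹ = 1 := by rw [← map_mul, mul_inv_cancel, map_one]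
  have hmm' : mat ρ γ'⁻¹ * mat ρ γ' = 1 := by rw [← map_mul, inv_mul_cancel, map_one]
  have hinvc : ((ρ γ')⁻¹ : Matrix.SpecialLinearGroup (Fin d) ℂ).1 = mat ρ γ'⁻¹ := by
    show _ = (ρ γ'⁻¹ : Matrix.SpecialLinearGroup (Fin d) ℂ).1
    rw [map_inv]
  -- commutation
  have hPcomm : P h * mat ρ γ'⁻¹ = mat ρ γ'⁻¹ * P h := by
    have h1 := hP.equivariant h hF γ'
    have h2 : P ((γ' : SL2) * h) = P h := by
      show P (γ * h) = P h
      rcases hd' with hd' | hd'
      · rw [hd', hP.flow_invariant h hF]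
      · rw [hd', hP.neg _ (hFu T), hP.flow_invariant h hF]
    rw [h2, hinvc] at h1
    have h3 : P h * mat ρ γ' = mat ρ γ' * P h := by
      calc P h * mat ρ γ' = mat ρ γ' * P h * mat ρ γ'⁻¹ * mat ρ γ' := by
            conv_lhs => rw [h1]
            rfl
        _ = mat ρ γ' * P h * (mat ρ γ'⁻¹ * mat ρ γ') := by rw [mul_assoc]
        _ = _ := by rw [hmm', mul_one]
    calc P h * mat ρ γ'⁻¹ = (mat ρ γ'⁻¹ * mat ρ γ') * P h * mat ρ γ'⁻¹ := by rw [hmm', one_mul]
      _ = mat ρ γ'⁻¹ * (mat ρ γ' * P h) * mat ρ γ'⁻¹ := by simp only [mul_assoc]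
      _ = mat ρ γ'⁻¹ * P h * (mat ρ γ' * mat ρ γ'⁻¹) := by rw [← h3]; simp only [mul_assoc]
      _ = _ := by rw [hmm, mul_one]
  have hPP : P' * P' = P' := by
    rw [hP']
    have := hP.idem h hF
    calc Matrix.toLin' (P h) * Matrix.toLin' (P h) = Matrix.toLin' (P h * P h) :=
          (Matrix.toLin'_mul _ _).symm
      _ = _ := by rw [this]
  have hPA : P' * A = A * P' := by
    calc P' * A = Matrix.toLin' (P h * mat ρ γ'⁻¹) := (Matrix.toLin'_mul _ _).symm
      _ = Matrix.toLin' (mat ρ γ'⁻¹ * P h) := by rw [hPcomm]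
      _ = _ := Matrix.toLin'_mul _ _
  have hPk : LinearMap.trace ℂ (Fin d → ℂ) P' = k := by
    rw [Pool.Agent.H914.trace_idem hPP]
    have := hP.rank h hF
    rw [← this]
    rfl
  -- powers
  have hApow : ∀ n : ℕ, A ^ n = Matrix.toLin' (mat ρ (γ'⁻¹ ^ n)) := by
    intro n
    induction n with
    | zero => rw [pow_zero, pow_zero, map_one, Matrix.toLin'_one]; rfl
    | succ n ih =>
      rw [pow_succ, ih, pow_succ, map_mul, Matrix.toLin'_mul]; rfl
  -- the eigenvalues
  obtain ⟨σ, hσ, hσγ⟩ : ∃ σ : ℂ, ‖σ‖ = 1 ∧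
      cx γ⁻¹ = σ • (cx h * cx (flow (-T)) * cx h⁻¹) := by
    rcases hd' with hd' | hd'
    · refine ⟨1, norm_one, ?_⟩
      rw [one_smul, ← map_mul, ← map_mul, ← flow_inv]
      congr 1
      have : γ = h * flow T * h⁻¹ := by rw [← hd']; group
      rw [this]; group
    · refine ⟨-1, by simp, ?_⟩
      have h1 : γ⁻¹ = -(h * flow (-T) * h⁻¹) := by
        rw [inv_eq_iff_mul_eq_one, mul_neg, ← flow_inv]
        have : γ = -(h * flow T * h⁻¹) := by rw [← neg_mul, ← hd']; group
        rw [this, neg_mul, neg_neg]; group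
      rw [h1, ← map_mul, ← map_mul]
      ext i j
      rw [cx_apply, neg_apply', Matrix.smul_apply, cx_apply]
      push_cast; simp
  have hcxpow : ∀ n : ℕ, (cx (γ⁻¹) ^ n).trace =
      (σ * ((Real.exp (T / 2) : ℝ) : ℂ)) ^ n + (σ * ((Real.exp (-(T / 2)) : ℝ) : ℂ)) ^ n := by
    intro n
    have hHH : cx h⁻¹ * cx h = 1 := by rw [← map_mul, inv_mul_cancel, map_one]
    have hHH' : cx h * cx h⁻¹ = 1 := by rw [← map_mul, mul_inv_cancel, map_one]
    have h1 : cx γ⁻¹ ^ n = σ ^ n • (cx h * cx (flow (-T)) ^ n * cx h⁻¹) := by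
      rw [hσγ, smul_pow]
      congr 1
      induction n with
      | zero => rw [pow_zero, pow_zero, mul_one, hHH']
      | succ n ih =>
        rw [pow_succ, ih, pow_succ]
        calc cx h * cx (flow (-T)) ^ n * cx h⁻¹ * (cx h * cx (flow (-T)) * cx h⁻¹) =
            cx h * cx (flow (-T)) ^ n * (cx h⁻¹ * cx h) * (cx (flow (-T)) * cx h⁻¹) := by
              simp only [mul_assoc]
          _ = _ := by rw [hHH, mul_one]; simp only [mul_assoc]
    rw [h1, Matrix.trace_smul, Matrix.trace_mul_comm, ← mul_assoc, hHH, one_mul, cx_flow_pow_trace,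
      smul_eq_mul, mul_pow, mul_pow, show -T / 2 = -(T / 2) by ring, neg_neg]
    ring
  have hl : 1 < Real.exp (T / 2) := Real.one_lt_exp_iff.2 (by linarith)
  have hm : Real.exp (-(T / 2)) < 1 := by rw [Real.exp_lt_one_iff]; linarith
  have key := separation hd hp A P' hPP hPA hPk
    ![σ * ((Real.exp (T / 2) : ℝ) : ℂ), 1, σ * ((Real.exp (-(T / 2)) : ℝ) : ℂ)] (by
      constructor
      · simp only [Matrix.cons_val, Matrix.cons_val_one]
        rw [norm_mul, hσ, one_mul, Complex.norm_real, Real.norm_eq_abs, Real.abs_exp, norm_one]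
        exact hm
      · simp only [Matrix.cons_val_zero, Matrix.cons_val_one]
        rw [norm_mul, hσ, one_mul, Complex.norm_real, Real.norm_eq_abs, Real.abs_exp, norm_one]
        exact hl) (by
      intro n
      rw [hApow, Matrix.trace_toLin'_eq]
      have h1 : (mat ρ (γ'⁻¹ ^ n)).trace = y.1 (γ'⁻¹ ^ n) := (hρ _).symm
      rw [h1, hy]
      have h2 : cx ((γ'⁻¹ ^ n : Γ) : SL2) = cx γ⁻¹ ^ n := by
        rw [← map_pow]; rfl
      rw [h2, hcxpow]
      simp only [Matrix.cons_val_zero, Matrix.cons_val_one, Matrix.cons_val, one_pow]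
      ring) (by
      -- domination
      intro v w μ ν hv hw hPv hPw hAv hAw
      have hpowv : ∀ n : ℕ, ∀ (z : Fin d → ℂ) (lam : ℂ), A z = lam • z →
          N (h * flow (n * T)) z = ‖lam‖ ^ n * N h z := by
        intro n z lam hz
        have h1 : N (h * flow (n * T)) z = N (γ ^ n * h) z := by
          have h2 := zpow_flow hd' n
          rw [_root_.zpow_natCast, Int.cast_natCast] at h2
          rcases h2 with h2 | h2
          · rw [h2]
          · rw [h2, hN.neg _ (hFu _)]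
        have h3 := hN.equivariant h hF (γ' ^ n) ((A ^ n) z)
        have h4 : ((ρ (γ' ^ n) : Matrix (Fin d) (Fin d) ℂ) *ᵥ ((A ^ n) z)) = z := by
          rw [hApow, Matrix.toLin'_apply, Matrix.mulVec_mulVec]
          have : (ρ (γ' ^ n) : Matrix (Fin d) (Fin d) ℂ) * mat ρ (γ'⁻¹ ^ n) = 1 := by
            show mat ρ (γ' ^ n) * mat ρ (γ'⁻¹ ^ n) = 1
            rw [← map_mul, inv_pow, mul_inv_cancel, map_one]
          rw [this, Matrix.one_mulVec]
        rw [h4] at h3
        have h5 : ∀ n : ℕ, (A ^ n) z = lam ^ n • z := by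
          intro n
          induction n with
          | zero => simp
          | succ n ih => rw [pow_succ', Module.End.mul_apply, ih, map_smul, hz, smul_smul, pow_succ]
        have h6 : ((γ' ^ n : Γ) : SL2) = γ ^ n := by rfl
        rw [h1, ← h6, h3, h5, (hN.norm h hF).smul, norm_pow]
      have hNv : 0 < N h v := lt_of_le_of_ne ((hN.norm h hF).nonneg v)
        (fun h0 => hv ((hN.norm h hF).eq_zero v h0.symm))
      have hNw : 0 < N h w := lt_of_le_of_ne ((hN.norm h hF).nonneg w)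
        (fun h0 => hw ((hN.norm h hF).eq_zero w h0.symm))
      have hPv' : P h *ᵥ v = v := by rw [← Matrix.toLin'_apply]; exact hPv
      have hPw' : P h *ᵥ w = 0 := by rw [← Matrix.toLin'_apply]; exact hPw
      have hμ : μ ≠ 0 := by
        rintro rfl
        rw [zero_smul] at hAv
        apply hv
        have h1 : v = (mat ρ γ' * mat ρ γ'⁻¹) *ᵥ v := by rw [hmm, Matrix.one_mulVec]
        rw [h1, ← Matrix.mulVec_mulVec]
        rw [hA, Matrix.toLin'_apply] at hAv
        rw [hAv, Matrix.mulVec_zero]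
      have hμpos : 0 < ‖μ‖ := norm_pos_iff.2 hμ
      have hle : ‖ν‖ ≤ Real.exp (-(c * T)) * ‖μ‖ := by
        apply le_of_pow_le (K := C) (by positivity) (norm_nonneg _)
        intro n _
        have h1 := hdom h hF v w hv hw hPv' hPw' (n * T) (by positivity)
        rw [hpowv n w ν hAw, hpowv n v μ hAv, mul_div_assoc, div_self hNw.ne', mul_one,
          mul_div_assoc, div_self hNv.ne', mul_one] at h1
        refine h1.trans (le_of_eq ?_)
        rw [mul_pow, ← Real.exp_nat_mul, mul_assoc]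
        congr 3
        ring
      refine lt_of_le_of_lt hle ?_
      have h2 : Real.exp (-(c * T)) < 1 := by
        rw [Real.exp_lt_one_iff]
        have : 0 < c * T := by positivity
        linarith
      nlinarith) hk hkd
  rcases key with h1 | h1
  · exact hkp h1
  · exact hkq h1

theorem det_cx (g : SL2) : (cx g).det = 1 := by
  rw [det_fin_two]
  simp only [cx_apply]
  have := sl2_det g
  exact_mod_cast this

theorem det_Mo (p q : ℕ) (g : SL2) : (Mo p q g).det = 1 := by
  unfold Mo model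
  rw [Matrix.det_fromBlocks_zero₂₁]
  have h1 : (Matrix.of fun i j : Fin q => if i = j then (1 : ℂ) else 0) = 1 := by
    ext i j; simp [Matrix.one_apply]
  have h2 : (Matrix.of fun i j : Fin p × Fin 2 => if i.1 = j.1 then
      (Matrix.of fun i j => ((g i j : ℝ) : ℂ)) i.2 j.2 else 0) =
      (Matrix.blockDiagonal (fun _ : Fin p => cx g)).submatrix (Equiv.prodComm _ _)
        (Equiv.prodComm _ _) := by
    ext ⟨i, x⟩ ⟨j, y⟩
    simp only [Matrix.of_apply, Matrix.submatrix_apply, Equiv.prodComm_apply, Prod.swap_prod_mk,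
      Matrix.blockDiagonal_apply]
    rfl
  rw [h1, Matrix.det_one, mul_one, h2, Matrix.det_submatrix_equiv_self, Matrix.det_blockDiagonal]
  simp [det_cx]

/-- the model character -/
theorem exists_model_char (Γ : Subgroup SL2) (d p q : ℕ) (hd : d = 2 * p + q) :
    ∃ y : CharVar Γ d, ∀ γ, y.1 γ = (p : ℂ) * (cx γ).trace + q := by
  have e : Fin d ≃ J p q := Fintype.equivOfCardEq (by simp [hd, mul_comm])
  refine ⟨⟨fun γ => (p : ℂ) * (cx γ).trace + q, ⟨{
    toFun := fun γ => ⟨(Mo p q γ).submatrix e e, by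
      rw [Matrix.det_submatrix_equiv_self, det_Mo]⟩
    map_one' := by
      apply Subtype.ext
      show (Mo p q ((1 : Γ) : SL2)).submatrix e e = 1
      rw [Subgroup.coe_one, Mo_one]; simp
    map_mul' := fun γ η => by
      apply Subtype.ext
      show (Mo p q ((γ * η : Γ) : SL2)).submatrix e e = (Mo p q γ).submatrix e e *
        (Mo p q η).submatrix e e
      rw [Subgroup.coe_mul, Mo_mul, Matrix.submatrix_mul_equiv] }, fun γ => ?_⟩⟩, fun γ => rfl⟩
  show _ = ((Mo p q γ).submatrix e e).trace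
  have h1 : ((Mo p q γ).submatrix e e).trace = (Mo p q γ).trace := by
    simp only [Matrix.trace, Matrix.diag, Matrix.submatrix_apply]
    exact Equiv.sum_comp e (fun i => Mo p q γ i i)
  rw [h1, Mo, model_trace]
  simp only [Fintype.card_fin, mul_one]
  rfl

theorem main (hΓ : IsClosedSurfaceGroup Γ) (d k : ℕ) (hd : 4 ≤ d) (hk : 1 ≤ k) (hkd : k < d) :
    ∃ U : Set (CharVar Γ d), ¬ U ⊆ simpleAnosovDomain Γ d k ∧
      ∀ D, IsDomainOfDiscontinuity Γ d D → IsDomainOfDiscontinuity Γ d (D ∪ U) := by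
  obtain ⟨p, q, hp, hpq, h1, h2⟩ : ∃ p q : ℕ, 0 < p ∧ d = 2 * p + q ∧ k ≠ p ∧ k ≠ p + q := by
    by_cases h : k = 1 ∨ k = d - 1
    · exact ⟨2, d - 4, by norm_num, by omega, by omega, by omega⟩
    · exact ⟨1, d - 2, by norm_num, by omega, by omega, by omega⟩
  obtain ⟨y, hy⟩ := exists_model_char Γ d p q hpq
  obtain ⟨U, hyU, hU⟩ := union_domain hΓ d p q hp y hy
  exact ⟨U, fun h => not_mem hΓ hpq hp hk hkd h1 h2 y hy (h hyU), hU⟩

end Pool.Agent.W599.SA
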