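import Pool.Agent.W599.SA.LA
import Pool.Agent.W599.SA.Fuchs3

/-!
# The Fuchsian representation and the trivial representation generate `M₂(ℂ) × ℂ`
-/

open Matrix

namespace Pool.Agent.W599.SA

/-- complexification -/
def cx : SL2 →* Matrix (Fin 2) (Fin 2) ℂ where
  toFun g := (Matrix.of fun i j => ((g i j : ℝ) : ℂ))
  map_one' := by
    ext i j
    fin_cases i <;> fin_cases j <;> simp
  map_mul' g h := by
    ext i j
    rw [Matrix.mul_apply, Fin.sum_univ_two]
    simp only [of_apply]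
    rw [sl2_mul]
    push_cast
    ring

theorem cx_apply (g : SL2) (i j : Fin 2) : cx g i j = ((g i j : ℝ) : ℂ) := rfl

variable {Γ : Subgroup SL2}

/-- the standard representation -/
noncomputable def piHom (Γ : Subgroup SL2) :
    MonoidAlgebra ℂ Γ →ₐ[ℂ] Matrix (Fin 2) (Fin 2) ℂ :=
  MonoidAlgebra.lift ℂ _ Γ (cx.comp Γ.subtype)

/-- the trivial representation -/
noncomputable def epsHom (Γ : Subgroup SL2) : MonoidAlgebra ℂ Γ →ₐ[ℂ] ℂ :=
  MonoidAlgebra.lift ℂ _ Γ 1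

theorem piHom_of (γ : Γ) : piHom Γ (MonoidAlgebra.of ℂ Γ γ) = cx γ := by
  simp [piHom]

theorem epsHom_of (γ : Γ) : epsHom Γ (MonoidAlgebra.of ℂ Γ γ) = 1 := by
  simp [epsHom]

theorem single_mul_mul_single (i j : Fin 2) (X : Matrix (Fin 2) (Fin 2) ℂ) :
    Matrix.single i i 1 * X * Matrix.single j j 1 = X i j • Matrix.single i j (1 : ℂ) := by
  ext a b
  fin_cases i <;> fin_cases j <;> fin_cases a <;> fin_cases b <;>
    simp [Matrix.mul_apply, Fin.sum_univ_two, Matrix.single, Matrix.smul_apply]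

theorem exists_units2 (hΓ : IsClosedSurfaceGroup Γ) : Nonempty (Units2 (piHom Γ) (epsHom Γ)) := by
  obtain ⟨γ, hγ, h1⟩ := exists_ne_one hΓ
  obtain ⟨h, T, hT, hd⟩ := exists_diag γ (two_lt_tr hΓ hγ h1)
  set S : Subalgebra ℂ (Matrix (Fin 2) (Fin 2) ℂ × ℂ) := ((piHom Γ).prod (epsHom Γ)).range with hS
  have hmem : ∀ η : Γ, ((cx η, 1) : Matrix (Fin 2) (Fin 2) ℂ × ℂ) ∈ S := fun η =>
    ⟨MonoidAlgebra.of ℂ Γ η, Prod.ext (piHom_of η) (epsHom_of η)⟩
  set H := cx h with hH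
  set H' := cx h⁻¹ with hH'
  have hHH' : H * H' = 1 := by rw [hH, hH', ← map_mul, mul_inv_cancel, map_one]
  have hH'H : H' * H = 1 := by rw [hH, hH', ← map_mul, inv_mul_cancel, map_one]
  -- the eigenvalues
  obtain ⟨x, hx1, hxD⟩ : ∃ x : Fin 2 → ℝ, (x 0 ≠ x 1 ∧ x 0 ≠ 1 ∧ x 1 ≠ 1) ∧
      cx γ = H * Matrix.diagonal (fun i => ((x i : ℝ) : ℂ)) * H' := by
    have hl : 1 < Real.exp (T / 2) := Real.one_lt_exp_iff.2 (by linarith)
    have hm : Real.exp (-(T / 2)) < 1 := by rw [Real.exp_lt_one_iff]; linarith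
    have hm0 : 0 < Real.exp (-(T / 2)) := Real.exp_pos _
    have hfl : cx (flow T) = Matrix.diagonal
        (fun i => (((![Real.exp (T / 2), Real.exp (-(T / 2))] i : ℝ)) : ℂ)) := by
      ext i j
      rw [cx_apply]
      fin_cases i <;> fin_cases j <;> simp
    rcases hd with hd | hd
    · refine ⟨![Real.exp (T / 2), Real.exp (-(T / 2))], ⟨?_, ?_, ?_⟩, ?_⟩
      · simp only [cons_val_zero, cons_val_one]; exact (hm.trans hl).ne'
      · simp only [cons_val_zero]; exact hl.ne'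
      · simp only [cons_val_one]; exact hm.ne
      · rw [← hfl, hH, hH', ← map_mul, ← map_mul]; congr 1; rw [← hd]; group
    · refine ⟨fun i => -(![Real.exp (T / 2), Real.exp (-(T / 2))] i), ⟨?_, ?_, ?_⟩, ?_⟩
      · simp only [cons_val_zero, cons_val_one]; intro h; linarith
      · simp only [cons_val_zero]; intro h; linarith
      · simp only [cons_val_one, cons_val_fin_one]; intro h; linarith
      · have e1 : cx γ = -(cx (h * flow T * h⁻¹)) := by
          have : γ = -(h * flow T * h⁻¹) := by rw [← neg_mul, ← hd]; group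
          rw [this]
          ext i j
          rw [cx_apply, neg_apply', Matrix.neg_apply, cx_apply]
          push_cast; rfl
        rw [e1, map_mul, map_mul, hfl, ← hH, ← hH']
        have e2 : Matrix.diagonal (fun i => (((-(![Real.exp (T / 2), Real.exp (-(T / 2))] i) : ℝ)) : ℂ)) =
            -Matrix.diagonal
              (fun i => (((![Real.exp (T / 2), Real.exp (-(T / 2))] i : ℝ)) : ℂ)) := by
          ext i j
          fin_cases i <;> fin_cases j <;> simp
        rw [e2, mul_neg, neg_mul]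
  obtain ⟨hx01, hx0, hx1'⟩ := hx1
  set y : Matrix (Fin 2) (Fin 2) ℂ × ℂ := (cx γ, 1) with hy
  have hyS : y ∈ S := hmem ⟨γ, hγ⟩
  have hconst : ∀ c : ℂ, ((Matrix.scalar (Fin 2) c, c) : Matrix (Fin 2) (Fin 2) ℂ × ℂ) ∈ S := by
    intro c
    have : ((Matrix.scalar (Fin 2) c, c) : Matrix (Fin 2) (Fin 2) ℂ × ℂ) =
        algebraMap ℂ (Matrix (Fin 2) (Fin 2) ℂ × ℂ) c := rfl
    rw [this]
    exact S.algebraMap_mem c
  -- polynomials in `y`
  have hpoly : ∀ a b : ℂ, ((H * Matrix.diagonal (fun i => (((x i : ℝ) : ℂ) - a) *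
      (((x i : ℝ) : ℂ) - b)) * H', (1 - a) * (1 - b)) : Matrix (Fin 2) (Fin 2) ℂ × ℂ) ∈ S := by
    intro a b
    have h2 := S.mul_mem (S.sub_mem hyS (hconst a)) (S.sub_mem hyS (hconst b))
    convert h2 using 1
    refine Prod.ext ?_ rfl
    show _ = (cx γ - Matrix.scalar (Fin 2) a) * (cx γ - Matrix.scalar (Fin 2) b)
    have e1 : ∀ c : ℂ, cx γ - Matrix.scalar (Fin 2) c =
        H * Matrix.diagonal (fun i => (((x i : ℝ) : ℂ) - c)) * H' := by
      intro c
      have : Matrix.diagonal (fun i => (((x i : ℝ) : ℂ) - c)) =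
          Matrix.diagonal (fun i => ((x i : ℝ) : ℂ)) - Matrix.scalar (Fin 2) c := by
        ext i j
        by_cases hij : i = j
        · subst hij; simp
        · simp [hij]
      rw [this, mul_sub, sub_mul, ← hxD]
      congr 1
      have : H * Matrix.scalar (Fin 2) c * H' = c • (H * H') := by
        rw [Matrix.scalar_apply, ← Matrix.smul_one_eq_diagonal, mul_smul_comm, mul_one,
          smul_mul_assoc]
      rw [this, hHH', Matrix.scalar_apply, ← Matrix.smul_one_eq_diagonal]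
    rw [e1, e1]
    calc H * Matrix.diagonal (fun i => (((x i : ℝ) : ℂ) - a) * (((x i : ℝ) : ℂ) - b)) * H' =
        H * (Matrix.diagonal (fun i => (((x i : ℝ) : ℂ) - a)) *
          Matrix.diagonal (fun i => (((x i : ℝ) : ℂ) - b))) * H' := by
          rw [Matrix.diagonal_mul_diagonal]
      _ = H * (Matrix.diagonal (fun i => (((x i : ℝ) : ℂ) - a)) * (H' * H) *
          Matrix.diagonal (fun i => (((x i : ℝ) : ℂ) - b))) * H' := by rw [hH'H, mul_one]
      _ = _ := by simp only [mul_assoc]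
  have hc01 : ((x 0 : ℝ) : ℂ) - ((x 1 : ℝ) : ℂ) ≠ 0 := by
    rw [sub_ne_zero]; exact_mod_cast hx01
  have hc10 : ((x 1 : ℝ) : ℂ) - ((x 0 : ℝ) : ℂ) ≠ 0 := by
    rw [sub_ne_zero]; exact_mod_cast hx01.symm
  have hc0 : ((x 0 : ℝ) : ℂ) - 1 ≠ 0 := by rw [sub_ne_zero]; exact_mod_cast hx0
  have hc1 : ((x 1 : ℝ) : ℂ) - 1 ≠ 0 := by rw [sub_ne_zero]; exact_mod_cast hx1'
  have hd0 : (1 : ℂ) - ((x 0 : ℝ) : ℂ) ≠ 0 := by rw [sub_ne_zero]; exact_mod_cast hx0.symm
  have hd1 : (1 : ℂ) - ((x 1 : ℝ) : ℂ) ≠ 0 := by rw [sub_ne_zero]; exact_mod_cast hx1'.symm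
  set Q : Matrix (Fin 2) (Fin 2) ℂ → Matrix (Fin 2) (Fin 2) ℂ × ℂ := fun X => (H * X * H', 0) with hQ
  have hQsmul : ∀ (c : ℂ) X, Q (c • X) = c • Q X := by
    intro c X
    simp only [hQ, Prod.smul_mk, mul_smul_comm, smul_mul_assoc, smul_zero]
  have hQmul : ∀ X Y, Q X * Q Y = Q (X * Y) := by
    intro X Y
    simp only [hQ, Prod.mk_mul_mk, mul_zero]
    congr 1
    calc H * X * H' * (H * Y * H') = H * X * (H' * H) * (Y * H') := by simp only [mul_assoc]
      _ = _ := by rw [hH'H, mul_one]; simp only [mul_assoc]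
  have hQ00 : Q (Matrix.single 0 0 1) ∈ S := by
    have h2 := S.smul_mem (hpoly ((x 1 : ℝ) : ℂ) 1)
      ((((x 0 : ℝ) : ℂ) - ((x 1 : ℝ) : ℂ)) * (((x 0 : ℝ) : ℂ) - 1))⁻¹
    convert h2 using 1
    simp only [hQ, Prod.smul_mk, sub_self, mul_zero, smul_zero]
    congr 1
    rw [← smul_mul_assoc, ← mul_smul_comm]
    congr 2
    ext i j
    fin_cases i <;> fin_cases j <;> simp [Matrix.single, Matrix.diagonal]
    field_simp
  have hQ11 : Q (Matrix.single 1 1 1) ∈ S := by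
    have h2 := S.smul_mem (hpoly ((x 0 : ℝ) : ℂ) 1)
      ((((x 1 : ℝ) : ℂ) - ((x 0 : ℝ) : ℂ)) * (((x 1 : ℝ) : ℂ) - 1))⁻¹
    convert h2 using 1
    simp only [hQ, Prod.smul_mk, sub_self, mul_zero, smul_zero]
    congr 1
    rw [← smul_mul_assoc, ← mul_smul_comm]
    congr 2
    ext i j
    fin_cases i <;> fin_cases j <;> simp [Matrix.single, Matrix.diagonal]
    field_simp
  have hf : ((0, 1) : Matrix (Fin 2) (Fin 2) ℂ × ℂ) ∈ S := by
    have h2 := S.smul_mem (hpoly ((x 0 : ℝ) : ℂ) ((x 1 : ℝ) : ℂ))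
      (((1 : ℂ) - ((x 0 : ℝ) : ℂ)) * (1 - ((x 1 : ℝ) : ℂ)))⁻¹
    convert h2 using 1
    refine Prod.ext ?_ ?_
    · simp only [Prod.smul_mk]
      have : Matrix.diagonal (fun i => (((x i : ℝ) : ℂ) - ((x 0 : ℝ) : ℂ)) *
          (((x i : ℝ) : ℂ) - ((x 1 : ℝ) : ℂ))) = 0 := by
        ext i j
        fin_cases i <;> fin_cases j <;> simp [Matrix.diagonal]
      rw [this]; simp
    · simp only [Prod.smul_mk, smul_eq_mul]
      rw [inv_mul_cancel₀ (mul_ne_zero hd0 hd1)]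
  have hQconj : ∀ (η : Γ) (i j : Fin 2), Q (Matrix.single i i 1) ∈ S → Q (Matrix.single j j 1) ∈ S →
      (h⁻¹ * η * h) i j ≠ 0 → Q (Matrix.single i j 1) ∈ S := by
    intro η i j hi hj hne
    have h2 := S.mul_mem (S.mul_mem hi (hmem η)) hj
    have h3 := S.smul_mem h2 (((h⁻¹ * η * h) i j : ℝ) : ℂ)⁻¹
    convert h3 using 1
    have e1 : Q (Matrix.single i i 1) * ((cx η, 1) : Matrix (Fin 2) (Fin 2) ℂ × ℂ) *
        Q (Matrix.single j j 1) = Q (Matrix.single i i 1 * cx (h⁻¹ * η * h) *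
          Matrix.single j j 1) := by
      simp only [hQ, Prod.mk_mul_mk, mul_zero, zero_mul]
      congr 1
      rw [map_mul, map_mul, ← hH, ← hH']
      simp only [mul_assoc]
    rw [e1, single_mul_mul_single, cx_apply, hQsmul, smul_smul, inv_mul_cancel₀, one_smul]
    exact_mod_cast hne
  obtain ⟨η, hη, hη1⟩ := exists_lower_ne hΓ hγ hT hd
  obtain ⟨η', hη', hη1'⟩ := exists_upper_ne hΓ hγ hT hd
  have hQall : ∀ i j, Q (Matrix.single i j 1) ∈ S := by
    intro i j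
    fin_cases i <;> fin_cases j <;> simp only [Fin.zero_eta, Fin.mk_one, Fin.isValue]
    · exact hQ00
    · exact hQconj ⟨η', hη'⟩ 0 1 hQ00 hQ11 hη1'
    · exact hQconj ⟨η, hη⟩ 1 0 hQ11 hQ00 hη1
    · exact hQ11
  have hQX : ∀ X, Q X ∈ S := by
    intro X
    have e1 : X = ∑ i, ∑ j, X i j • Matrix.single i j (1 : ℂ) := by
      conv_lhs => rw [Matrix.matrix_eq_sum_single X]
      refine Finset.sum_congr rfl fun i _ => Finset.sum_congr rfl fun j _ => ?_
      rw [Matrix.smul_single, smul_eq_mul, mul_one]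
    have e2 : Q X = ∑ i, ∑ j, X i j • Q (Matrix.single i j 1) := by
      refine Prod.ext ?_ ?_
      · conv_lhs => rw [hQ, e1]
        simp only [Prod.fst_sum, Prod.smul_fst, hQ, Finset.mul_sum, Finset.sum_mul, mul_smul_comm,
          smul_mul_assoc]
      · simp only [Prod.snd_sum, Prod.smul_snd, hQ, smul_zero, Finset.sum_const_zero]
    rw [e2]
    exact S.sum_mem fun i _ => S.sum_mem fun j _ => S.smul_mem (hQall i j) _
  have hX0 : ∀ X : Matrix (Fin 2) (Fin 2) ℂ, ((X, 0) : Matrix (Fin 2) (Fin 2) ℂ × ℂ) ∈ S := by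
    intro X
    have e1 : ((X, 0) : Matrix (Fin 2) (Fin 2) ℂ × ℂ) = Q (H' * X * H) := by
      simp only [hQ]
      congr 1
      calc X = 1 * X * 1 := by rw [one_mul, mul_one]
        _ = _ := by rw [← hHH']; simp only [mul_assoc]
    rw [e1]; exact hQX _
  choose e he using fun i j => hX0 (Matrix.single i j 1)
  obtain ⟨f, hf⟩ := hf
  exact ⟨⟨e, f, fun i j => congrArg Prod.fst (he i j), fun i j => congrArg Prod.snd (he i j),
    congrArg Prod.fst hf, congrArg Prod.snd hf⟩⟩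

end Pool.Agent.W599.SA
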