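import Pool.Agent.W599.SA.Growth
import Pool.Agent.W599.SA.Span

/-!
# Representations with character near the character of the model are conjugate to
representations near the model
-/

open Matrix Topology Filter Module

open scoped Matrix.Norms.Operator

namespace Pool.Agent.W599.SA

variable {Γ : Subgroup SL2}

theorem exists_word (S : Finset Γ) (hS : Submonoid.closure (S : Set Γ) = ⊤) (γ : Γ) :
    ∃ w : List S, (w.map (fun s : S => (s : Γ))).prod = γ := by
  have h1 : γ ∈ Submonoid.closure (S : Set Γ) := by rw [hS]; trivial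
  obtain ⟨l, hl, rfl⟩ := Submonoid.exists_list_of_mem_closure h1
  refine ⟨l.pmap (fun x hx => ⟨x, hx⟩) hl, ?_⟩
  congr 1
  rw [List.map_pmap]
  simp

theorem countable_group (hΓ : IsClosedSurfaceGroup Γ) : Countable Γ := by
  obtain ⟨S, -, hS⟩ := exists_generators hΓ
  exact (Function.Surjective.countable (f := fun w : List S => (w.map (fun s : S => (s : Γ))).prod)
    (fun γ => exists_word S hS γ))

theorem word_hom {d : ℕ} (S : Finset Γ) (R : Γ →* Matrix (Fin d) (Fin d) ℂ) (w : List S) :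
    word (fun s : S => R s) w = R ((w.map (fun s : S => (s : Γ))).prod) := by
  induction w with
  | nil => simp [word]
  | cons s w ih => rw [word_cons, ih, List.map_cons, List.prod_cons, map_mul]

/-- the underlying matrices of a representation -/
def mat {d : ℕ} (ρ : Γ →* Matrix.SpecialLinearGroup (Fin d) ℂ) : Γ →* Matrix (Fin d) (Fin d) ℂ where
  toFun γ := (ρ γ : Matrix (Fin d) (Fin d) ℂ)
  map_one' := by rw [map_one]; rfl
  map_mul' γ η := by rw [map_mul]; rfl

theorem conj_hom_mul {d : ℕ} (g : GL (Fin d) ℂ) (R : Γ →* Matrix (Fin d) (Fin d) ℂ) (γ η : Γ) :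
    g.1 * R (γ * η) * (g⁻¹).1 = (g.1 * R γ * (g⁻¹).1) * (g.1 * R η * (g⁻¹).1) := by
  rw [map_mul]
  calc g.1 * (R γ * R η) * (g⁻¹).1 = g.1 * R γ * 1 * (R η * (g⁻¹).1) := by
        rw [mul_one]; simp only [mul_assoc]
    _ = _ := by rw [← gl_inv_mul g]; simp only [mul_assoc]

theorem continuous_toMatrix_toLin {d : ℕ} {J' : Type} [Fintype J'] [DecidableEq J']
    (b : Basis J' ℂ (Fin d → ℂ)) :
    Continuous (fun M : Matrix (Fin d) (Fin d) ℂ => LinearMap.toMatrix b b (Matrix.toLin' M)) := by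
  have h : (fun M : Matrix (Fin d) (Fin d) ℂ => LinearMap.toMatrix b b (Matrix.toLin' M)) =
      ((LinearMap.toMatrix b b).toLinearMap ∘ₗ (Matrix.toLin' : Matrix (Fin d) (Fin d) ℂ ≃ₗ[ℂ] _).toLinearMap) := rfl
  rw [h]
  exact LinearMap.continuous_of_finiteDimensional _

/-- the change of basis absorbs a conjugation -/
theorem exists_basis_conj {d : ℕ} {J' : Type} [Fintype J'] [DecidableEq J']
    (b : Basis J' ℂ (Fin d → ℂ)) (g : GL (Fin d) ℂ) : ∃ b' : Basis J' ℂ (Fin d → ℂ),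
      ∀ M : Matrix (Fin d) (Fin d) ℂ, LinearMap.toMatrix b' b' (Matrix.toLin' M) =
        LinearMap.toMatrix b b (Matrix.toLin' (g.1 * M * (g⁻¹).1)) := by
  have h1 : (g⁻¹).1 * g.1 = 1 := gl_inv_mul g
  have h2 : g.1 * (g⁻¹).1 = 1 := by rw [← Units.val_mul, mul_inv_cancel, Units.val_one]
  set G : (Fin d → ℂ) ≃ₗ[ℂ] (Fin d → ℂ) :=
    LinearEquiv.ofLinear (Matrix.toLin' (g⁻¹).1) (Matrix.toLin' g.1)
      (by rw [← Matrix.toLin'_mul, h1, Matrix.toLin'_one])
      (by rw [← Matrix.toLin'_mul, h2, Matrix.toLin'_one]) with hG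
  refine ⟨b.map G, fun M => ?_⟩
  ext i j
  rw [LinearMap.toMatrix_apply, LinearMap.toMatrix_apply, Basis.map_apply, Basis.map_repr]
  rw [Matrix.toLin'_mul, Matrix.toLin'_mul]
  rfl

/-- Near the character of the model, every representation is conjugate to one near the model. -/
theorem near (hΓ : IsClosedSurfaceGroup Γ) (d p q : ℕ) (F : Finset Γ) (δ : ℝ) (hδ : 0 < δ) :
    ∀ᶠ x in 𝓝 (fun γ : Γ => (p : ℂ) * (cx γ).trace + q),
      ∀ R : Γ →* Matrix (Fin d) (Fin d) ℂ, (∀ γ, x γ = (R γ).trace) →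
        ∃ b : Basis (J p q) ℂ (Fin d → ℂ), ∀ γ ∈ F,
          ‖LinearMap.toMatrix b b (Matrix.toLin' (R γ)) - Mo p q γ‖ ≤ δ := by
  have hcount := countable_group hΓ
  obtain ⟨S, -, hS⟩ := exists_generators hΓ
  by_contra hcon
  rw [not_eventually] at hcon
  obtain ⟨x, hx, hbad⟩ := exists_seq_forall_of_frequently hcon
  push Not at hbad
  choose R hR hnb using hbad
  have hx' : ∀ γ, Tendsto (fun n => x n γ) atTop (𝓝 ((p : ℂ) * (cx γ).trace + q)) :=
    fun γ => (tendsto_pi_nhds.1 hx) γ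
  -- bounded conjugation
  obtain ⟨M, hM⟩ := exists_bounded_conj (K := ℂ) (d := d) (fun (n : ℕ) (s : S) => R n s) (by
    intro w _
    obtain ⟨C, hC⟩ := (Metric.isBounded_range_of_tendsto _
      (hx' ((w.map (fun s : S => (s : Γ))).prod))).exists_norm_le
    refine ⟨C, fun n => ?_⟩
    rw [word_hom, ← hR]
    exact hC _ ⟨n, rfl⟩)
  choose g hg using hM
  set B : ℕ → (S → Matrix (Fin d) (Fin d) ℂ) := fun n s => (g n).1 * R n s * ((g n)⁻¹).1 with hB
  have hpr : ProperSpace (S → Matrix (Fin d) (Fin d) ℂ) := FiniteDimensional.proper_rclike ℂ _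
  have hM0 : ∀ n, ‖B n‖ ≤ max M 0 := fun n =>
    (pi_norm_le_iff_of_nonneg (le_max_right _ _)).2 fun s => (hg n s).trans (le_max_left _ _)
  obtain ⟨B₀, -, φ, hφ, hlim⟩ := (isCompact_closedBall (0 : S → Matrix (Fin d) (Fin d) ℂ)
    (max M 0)).tendsto_subseq (x := B) (fun n => by
      rw [mem_closedBall_zero_iff]; exact hM0 n)
  choose w hw using exists_word S hS
  -- the conjugates converge
  have hwB : ∀ n γ, word (B n) (w γ) = (g n).1 * R n γ * ((g n)⁻¹).1 := by
    intro n γ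
    rw [hB]
    simp only
    rw [word_conj (g n) (fun s : S => R n s) (w γ), word_hom, hw]
  have hconv : ∀ γ, Tendsto (fun m => (g (φ m)).1 * R (φ m) γ * ((g (φ m))⁻¹).1) atTop
      (𝓝 (word B₀ (w γ))) := by
    intro γ
    have h1 : Tendsto (fun m => word (B (φ m)) (w γ)) atTop (𝓝 (word B₀ (w γ))) :=
      ((continuous_word (w γ)).tendsto B₀).comp hlim
    simpa only [hwB] using h1
  set R₀ : Γ →* Matrix (Fin d) (Fin d) ℂ :=
    { toFun := fun γ => word B₀ (w γ)
      map_one' := by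
        have h1 := hconv 1
        have h2 : ∀ m, (g (φ m)).1 * R (φ m) 1 * ((g (φ m))⁻¹).1 = 1 := by
          intro m
          rw [map_one, mul_one, ← Units.val_mul, mul_inv_cancel, Units.val_one]
        simp only [h2] at h1
        exact tendsto_nhds_unique h1 tendsto_const_nhds |>.symm ▸ rfl
      map_mul' := by
        intro γ η
        have h1 := hconv (γ * η)
        simp only [conj_hom_mul] at h1
        exact tendsto_nhds_unique h1 ((hconv γ).mul (hconv η)) } with hR₀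
  have hR₀a : ∀ γ, R₀ γ = word B₀ (w γ) := fun γ => rfl
  have htr : ∀ γ, (R₀ γ).trace = (p : ℂ) * (cx γ).trace + q := by
    intro γ
    have h1 : Tendsto (fun m => ((g (φ m)).1 * R (φ m) γ * ((g (φ m))⁻¹).1).trace) atTop
        (𝓝 (R₀ γ).trace) := (continuous_trace'.tendsto _).comp (hconv γ)
    simp only [trace_conj', ← hR] at h1
    exact tendsto_nhds_unique h1 ((hx' γ).comp hφ.tendsto_atTop)
  -- the limit algebra homomorphism
  set Φ : MonoidAlgebra ℂ Γ →ₐ[ℂ] Module.End ℂ (Fin d → ℂ) :=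
    MonoidAlgebra.lift ℂ _ Γ (((Matrix.toLinAlgEquiv' : Matrix (Fin d) (Fin d) ℂ ≃ₐ[ℂ] _) :
      Matrix (Fin d) (Fin d) ℂ →* Module.End ℂ (Fin d → ℂ)).comp R₀) with hΦ
  have hΦof : ∀ γ, Φ (MonoidAlgebra.of ℂ Γ γ) = Matrix.toLin' (R₀ γ) := by
    intro γ
    rw [hΦ, MonoidAlgebra.lift_of]
    rfl
  have hΦtr : ∀ a, LinearMap.trace ℂ (Fin d → ℂ) (Φ a) =
      p * (piHom Γ a).trace + q * epsHom Γ a := by
    intro a
    induction a using MonoidAlgebra.induction_on with
    | of γ =>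
      rw [hΦof, Matrix.trace_toLin'_eq, htr, piHom_of, epsHom_of, mul_one]
    | add a b ha hb =>
      rw [map_add, map_add, map_add, map_add, Matrix.trace_add, ha, hb]; ring
    | smul c a ha =>
      rw [map_smul, map_smul, map_smul, map_smul, Matrix.trace_smul, ha]
      simp only [smul_eq_mul]; ring
  obtain ⟨u⟩ := exists_units2 hΓ
  have hdeg := deg_model u (Fin d → ℂ) Φ p q hΦtr
  classical
  set c : ℝ := Fintype.card (J p q) + 1 with hc
  have hcpos : 0 < c := by rw [hc]; positivity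
  obtain ⟨b, hb⟩ := hdeg (F.image (MonoidAlgebra.of ℂ Γ)) (δ / 2 / c) (by positivity)
  have hb' : ∀ γ ∈ F, ‖LinearMap.toMatrix b b (Matrix.toLin' (R₀ γ)) - Mo p q γ‖ < δ := by
    intro γ hγ
    have h1 := hb _ (Finset.mem_image_of_mem _ hγ)
    simp only [hΦof] at h1
    have h2 : model (Fin p) (Fin q) (piHom Γ) (epsHom Γ) (MonoidAlgebra.of ℂ Γ γ) = Mo p q γ := by
      unfold model Mo
      rw [piHom_of, epsHom_of]
      rfl
    rw [h2] at h1
    have h3 := norm_lt_of_entries (M := LinearMap.toMatrix b b (Matrix.toLin' (R₀ γ)) - Mo p q γ)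
      (ε := δ / 2 / c) (by positivity) (fun i j => (h1 i j).le)
    refine h3.trans_lt ?_
    rw [mul_div_assoc', div_lt_iff₀ hcpos, hc]
    nlinarith [(Nat.cast_nonneg (Fintype.card (J p q)) : (0 : ℝ) ≤ _)]
  -- pass to a member of the sequence
  have hev : ∀ᶠ m in atTop, ∀ γ ∈ F, ‖LinearMap.toMatrix b b (Matrix.toLin'
      ((g (φ m)).1 * R (φ m) γ * ((g (φ m))⁻¹).1)) - Mo p q γ‖ < δ := by
    rw [Filter.eventually_all_finset]
    intro γ hγ
    have h1 : Tendsto (fun m => ‖LinearMap.toMatrix b b (Matrix.toLin'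
        ((g (φ m)).1 * R (φ m) γ * ((g (φ m))⁻¹).1)) - Mo p q γ‖) atTop
        (𝓝 ‖LinearMap.toMatrix b b (Matrix.toLin' (R₀ γ)) - Mo p q γ‖) :=
      ((((continuous_toMatrix_toLin b).tendsto _).comp (hconv γ)).sub_const _).norm
    exact h1.eventually (gt_mem_nhds (hb' γ hγ))
  obtain ⟨m, hm⟩ := hev.exists
  obtain ⟨b', hb'⟩ := exists_basis_conj b (g (φ m))
  obtain ⟨γ, hγ, hlt⟩ := hnb (φ m) b'
  rw [hb'] at hlt
  exact absurd (hm γ hγ) (not_lt.2 hlt.le)

end Pool.Agent.W599.SA
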