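import Pool.Agent.W599.SA.Trans

/-!
# The model character does not lie in the simple `k`-Anosov domain
-/

open Matrix Topology Filter Module Polynomial

namespace Pool.Agent.W599.SA

section algebra

variable {V : Type*} [AddCommGroup V] [Module ℂ V] [Module.Finite ℂ V]

/-- an eigenvector in the range of a nonzero `X` killed by a power of `A - x` -/
theorem exists_eig {A X P : Module.End ℂ V} {x : ℂ} {N : ℕ} (hX : X ≠ 0)
    (hN : (A - algebraMap ℂ _ x) ^ N * X = 0) (hPX : P * X = X) (hPA : P * A = A * P) :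
    ∃ v, v ≠ 0 ∧ P v = v ∧ A v = x • v := by
  obtain ⟨u, hu⟩ : ∃ u, X u ≠ 0 := by
    by_contra hcon
    push Not at hcon
    exact hX (LinearMap.ext hcon)
  set B := A - algebraMap ℂ (Module.End ℂ V) x with hB
  have hex : ∃ j, (B ^ (j + 1)) (X u) = 0 := by
    refine ⟨N, ?_⟩
    have : (B ^ N * X) u = 0 := by rw [hN]; rfl
    rw [pow_succ', Module.End.mul_apply]
    rw [Module.End.mul_apply] at this
    rw [this, map_zero]
  classical
  set j := Nat.find hex with hj
  have hj1 : (B ^ (j + 1)) (X u) = 0 := Nat.find_spec hex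
  have hj0 : (B ^ j) (X u) ≠ 0 := by
    rcases Nat.eq_zero_or_pos j with h0 | hpos
    · rw [h0, pow_zero]; exact hu
    · obtain ⟨i, hi⟩ : ∃ i, j = i + 1 := ⟨j - 1, by omega⟩
      rw [hi]
      exact Nat.find_min hex (by omega)
  have hPB : P * B = B * P := by
    rw [hB, mul_sub, sub_mul, hPA, Algebra.commutes]
  have hPBj : P * B ^ j = B ^ j * P := (show Commute P B from hPB).pow_right j
  refine ⟨(B ^ j) (X u), hj0, ?_, ?_⟩
  · have h1 : (P * B ^ j * X) u = (B ^ j * (P * X)) u := by rw [hPBj, mul_assoc]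
    rw [hPX] at h1
    exact h1
  · have h1 : B ((B ^ j) (X u)) = 0 := by
      rw [← Module.End.mul_apply, ← pow_succ']; exact hj1
    rw [hB, LinearMap.sub_apply, sub_eq_zero] at h1
    rw [← hB] at h1
    rw [h1, Module.algebraMap_end_apply]

/-- splitting off the generalized eigenspace of `x` -/
theorem exists_split_poly (x : ℂ) (g : ℂ[X]) (hg : g.eval x ≠ 0) (N : ℕ) : ∃ f : ℂ[X],
    ((X - C x) * g) ^ N ∣ (X - C x) ^ N * f ∧ ((X - C x) * g) ^ N ∣ f * (f - 1) ∧
      (X - C x) ^ N ∣ 1 - f ∧ g ^ N ∣ f := by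
  have hco : IsCoprime ((X - C x) ^ N) (g ^ N) := by
    apply IsCoprime.pow
    exact (Polynomial.irreducible_X_sub_C x).coprime_iff_not_dvd.2
      (fun h => hg (dvd_iff_isRoot.1 h))
  obtain ⟨u, v, huv⟩ := hco
  refine ⟨v * g ^ N, ?_, ?_, ?_, ?_⟩
  · exact ⟨v, by rw [mul_pow]; ring⟩
  · refine ⟨-(u * v), ?_⟩
    have : v * g ^ N - 1 = -(u * (X - C x) ^ N) := by rw [← huv]; ring
    rw [this, mul_pow]; ring
  · exact ⟨u, by rw [← huv]; ring⟩
  · exact ⟨v, by ring⟩

/-- Spectral separation: three groups of eigenvalues. -/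
theorem separation {d p q k : ℕ} (hd : d = 2 * p + q) (hp : 0 < p)
    (A P : Module.End ℂ (Fin d → ℂ)) (hPP : P * P = P) (hPA : P * A = A * P)
    (hPk : LinearMap.trace ℂ (Fin d → ℂ) P = k)
    (x : Fin 3 → ℂ) (hx : ‖x 2‖ < ‖x 1‖ ∧ ‖x 1‖ < ‖x 0‖)
    (htr : ∀ n : ℕ, LinearMap.trace ℂ (Fin d → ℂ) (A ^ n) = p * x 0 ^ n + q * x 1 ^ n + p * x 2 ^ n)
    (hdom : ∀ (v w : Fin d → ℂ) (μ ν : ℂ), v ≠ 0 → w ≠ 0 → P v = v → P w = 0 → A v = μ • v →
      A w = ν • w → ‖ν‖ < ‖μ‖) (hk : 1 ≤ k) (hkd : k < d) : k = p ∨ k = p + q := by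
  have hne01 : x 0 ≠ x 1 := fun h => by rw [h] at hx; exact lt_irrefl _ hx.2
  have hne12 : x 1 ≠ x 2 := fun h => by rw [h] at hx; exact lt_irrefl _ hx.1
  have hne02 : x 0 ≠ x 2 := fun h => by
    rw [h] at hx; exact lt_irrefl _ (hx.1.trans hx.2)
  have htrf : ∀ f : ℂ[X], LinearMap.trace ℂ (Fin d → ℂ) (aeval A f) =
      p * f.eval (x 0) + q * f.eval (x 1) + p * f.eval (x 2) := by
    intro f
    induction f using Polynomial.induction_on' with
    | add f g hf hg => rw [map_add, map_add, hf, hg, eval_add, eval_add, eval_add]; ring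
    | monomial n a =>
      rw [aeval_monomial, eval_monomial, eval_monomial, eval_monomial, ← Algebra.smul_def, map_smul,
        htr, smul_eq_mul]
      ring
  set m : ℂ[X] := (X - C (x 0)) * (X - C (x 1)) * (X - C (x 2)) with hm
  have hmnil : IsNilpotent (aeval A m) := by
    apply Pool.Agent.H914.isNilpotent_of_trace_pow
    intro r
    rw [← map_pow, htrf, hm]
    simp
  obtain ⟨N, hN⟩ := hmnil
  have hdvd : ∀ f : ℂ[X], m ^ N ∣ f → aeval A f = 0 := by
    rintro _ ⟨g, rfl⟩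
    rw [map_mul, map_pow, hN, zero_mul]
  have hN0 : N ≠ 0 := by
    rintro rfl
    rw [pow_zero] at hN
    have h1 := htrf 1
    rw [map_one, hN, map_zero] at h1
    simp only [eval_one, mul_one] at h1
    have h2 : ((p + q + p : ℕ) : ℂ) = 0 := by push_cast; exact h1.symm
    have h3 : p + q + p = 0 := by exact_mod_cast h2
    omega
  -- the three polynomials
  obtain ⟨f0, a0, b0, c0, e0⟩ := exists_split_poly (x 0) ((X - C (x 1)) * (X - C (x 2))) (by
    simp [sub_eq_zero, hne01, hne02]) N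
  obtain ⟨f1, a1, b1, c1, e1⟩ := exists_split_poly (x 1) ((X - C (x 0)) * (X - C (x 2))) (by
    simp [sub_eq_zero, hne01.symm, hne12]) N
  obtain ⟨f2, a2, b2, c2, e2⟩ := exists_split_poly (x 2) ((X - C (x 0)) * (X - C (x 1))) (by
    simp [sub_eq_zero, hne02.symm, hne12.symm]) N
  have m0 : (X - C (x 0)) * ((X - C (x 1)) * (X - C (x 2))) = m := by rw [hm]; ring
  have m1 : (X - C (x 1)) * ((X - C (x 0)) * (X - C (x 2))) = m := by rw [hm]; ring
  have m2 : (X - C (x 2)) * ((X - C (x 0)) * (X - C (x 1))) = m := by rw [hm]; ring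
  rw [m0] at a0 b0
  rw [m1] at a1 b1
  rw [m2] at a2 b2
  have hcop : ∀ i j : Fin 3, x i ≠ x j → IsCoprime ((X - C (x i)) ^ N) ((X - C (x j)) ^ N) :=
    fun i j h => (isCoprime_X_sub_C_of_isUnit_sub (sub_ne_zero.2 h).isUnit).pow
  have hsum : m ^ N ∣ 1 - (f0 + f1 + f2) := by
    have d0 : (X - C (x 0)) ^ N ∣ 1 - (f0 + f1 + f2) := by
      have h1 : (X - C (x 0)) ^ N ∣ f1 := (pow_dvd_pow_of_dvd (Dvd.intro _ rfl) N).trans e1
      have h2 : (X - C (x 0)) ^ N ∣ f2 := (pow_dvd_pow_of_dvd (Dvd.intro _ rfl) N).trans e2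
      have : 1 - (f0 + f1 + f2) = (1 - f0) - f1 - f2 := by ring
      rw [this]; exact dvd_sub (dvd_sub c0 h1) h2
    have d1 : (X - C (x 1)) ^ N ∣ 1 - (f0 + f1 + f2) := by
      have h1 : (X - C (x 1)) ^ N ∣ f0 := (pow_dvd_pow_of_dvd (Dvd.intro _ rfl) N).trans e0
      have h2 : (X - C (x 1)) ^ N ∣ f2 := (pow_dvd_pow_of_dvd (Dvd.intro_left _ rfl) N).trans e2
      have : 1 - (f0 + f1 + f2) = (1 - f1) - f0 - f2 := by ring
      rw [this]; exact dvd_sub (dvd_sub c1 h1) h2
    have d2 : (X - C (x 2)) ^ N ∣ 1 - (f0 + f1 + f2) := by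
      have h1 : (X - C (x 2)) ^ N ∣ f0 := (pow_dvd_pow_of_dvd (Dvd.intro_left _ rfl) N).trans e0
      have h2 : (X - C (x 2)) ^ N ∣ f1 := (pow_dvd_pow_of_dvd (Dvd.intro_left _ rfl) N).trans e1
      have : 1 - (f0 + f1 + f2) = (1 - f2) - f0 - f1 := by ring
      rw [this]; exact dvd_sub (dvd_sub c2 h1) h2
    rw [hm, mul_pow, mul_pow]
    exact ((hcop 0 2 hne02).mul_left (hcop 1 2 hne12)).mul_dvd ((hcop 0 1 hne01).mul_dvd d0 d1) d2
  -- evaluation
  have ev : ∀ (i : Fin 3) (f : ℂ[X]), (X - C (x i)) ^ N ∣ 1 - f → f.eval (x i) = 1 := by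
    rintro i f ⟨g, hg⟩
    have h1 := congrArg (eval (x i)) hg
    simp [hN0] at h1
    linear_combination -h1
  have ev' : ∀ (i : Fin 3) (f : ℂ[X]), (X - C (x i)) ^ N ∣ f → f.eval (x i) = 0 := by
    rintro i f ⟨g, rfl⟩
    simp [hN0]
  have t0 : LinearMap.trace ℂ (Fin d → ℂ) (aeval A f0) = p := by
    rw [htrf, ev 0 f0 c0, ev' 1 f0 ((pow_dvd_pow_of_dvd (Dvd.intro _ rfl) N).trans e0),
      ev' 2 f0 ((pow_dvd_pow_of_dvd (Dvd.intro_left _ rfl) N).trans e0)]
    ring
  have t1 : LinearMap.trace ℂ (Fin d → ℂ) (aeval A f1) = q := by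
    rw [htrf, ev 1 f1 c1, ev' 0 f1 ((pow_dvd_pow_of_dvd (Dvd.intro _ rfl) N).trans e1),
      ev' 2 f1 ((pow_dvd_pow_of_dvd (Dvd.intro_left _ rfl) N).trans e1)]
    ring
  have t2 : LinearMap.trace ℂ (Fin d → ℂ) (aeval A f2) = p := by
    rw [htrf, ev 2 f2 c2, ev' 0 f2 ((pow_dvd_pow_of_dvd (Dvd.intro _ rfl) N).trans e2),
      ev' 1 f2 ((pow_dvd_pow_of_dvd (Dvd.intro_left _ rfl) N).trans e2)]
    ring
  -- the idempotents
  set f : Fin 3 → ℂ[X] := ![f0, f1, f2] with hf
  have hnil : ∀ i, (A - algebraMap ℂ _ (x i)) ^ N * aeval A (f i) = 0 := by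
    intro i
    have h1 : A - algebraMap ℂ _ (x i) = aeval A (X - C (x i)) := by simp
    rw [h1, ← map_pow, ← map_mul]
    apply hdvd
    fin_cases i
    · exact a0
    · exact a1
    · exact a2
  have hcomm : ∀ i, P * aeval A (f i) = aeval A (f i) * P := by
    intro i
    have h1 : Commute A P := hPA.symm
    have h2 : Commute (aeval A (f i)) P := by
      induction f i using Polynomial.induction_on' with
      | add f g hf hg => rw [map_add]; exact hf.add_left hg
      | monomial n a =>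
        rw [aeval_monomial]
        exact (Algebra.commute_algebraMap_left a P).mul_left (h1.pow_left n)
    exact h2.symm.eq
  have hkey : ∀ i j : Fin 3, ‖x j‖ ≤ ‖x i‖ → aeval A (f i) * (1 - P) = 0 ∨ aeval A (f j) * P = 0 := by
    intro i j hij
    by_contra hcon
    push Not at hcon
    obtain ⟨h1, h2⟩ := hcon
    have hP1 : (1 - P) * (1 - P) = 1 - P := by rw [mul_sub, sub_mul, sub_mul, hPP]; simp
    obtain ⟨w, hw0, hw1, hw2⟩ := exists_eig (A := A) (P := 1 - P) (x := x i) (N := N) h1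
      (by rw [← mul_assoc, hnil, zero_mul])
      (by
        have h3 : (1 - P) * aeval A (f i) = aeval A (f i) * (1 - P) := by
          rw [sub_mul, mul_sub, one_mul, mul_one, hcomm]
        rw [← mul_assoc, h3, mul_assoc, hP1]) (by rw [sub_mul, mul_sub, hPA]; simp)
    obtain ⟨v, hv0, hv1, hv2⟩ := exists_eig (A := A) (P := P) (x := x j) (N := N) h2
      (by rw [← mul_assoc, hnil, zero_mul])
      (by rw [← mul_assoc, hcomm, mul_assoc, hPP]) hPA
    have hw3 : P w = 0 := by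
      rw [LinearMap.sub_apply, Module.End.one_apply, sub_eq_self] at hw1; exact hw1
    exact absurd (hdom v w (x j) (x i) hv0 hw0 hv1 hw3 hv2 hw2) (not_lt.2 hij)
  -- trace of `P`
  have hPsum : P = aeval A (f 0) * P + aeval A (f 1) * P + aeval A (f 2) * P := by
    have h1 := hdvd _ hsum
    rw [map_sub, map_one, sub_eq_zero] at h1
    rw [← add_mul, ← add_mul, ← map_add, ← map_add]
    show P = aeval A (f0 + f1 + f2) * P
    rw [← h1, one_mul]
  have hfull : ∀ i, aeval A (f i) * (1 - P) = 0 → aeval A (f i) * P = aeval A (f i) := by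
    intro i h
    rw [mul_sub, mul_one, sub_eq_zero] at h
    exact h.symm
  have htk : (k : ℂ) = LinearMap.trace ℂ (Fin d → ℂ) (aeval A (f 0) * P) +
      LinearMap.trace ℂ (Fin d → ℂ) (aeval A (f 1) * P) +
      LinearMap.trace ℂ (Fin d → ℂ) (aeval A (f 2) * P) := by
    rw [← hPk, ← map_add, ← map_add, ← hPsum]
  have T0 : LinearMap.trace ℂ (Fin d → ℂ) (aeval A (f 0)) = p := t0
  have T1 : LinearMap.trace ℂ (Fin d → ℂ) (aeval A (f 1)) = q := t1
  have T2 : LinearMap.trace ℂ (Fin d → ℂ) (aeval A (f 2)) = p := t2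
  by_cases h2 : aeval A (f 2) * P = 0
  · rw [h2, map_zero, add_zero] at htk
    by_cases h1 : aeval A (f 1) * P = 0
    · rw [h1, map_zero, add_zero] at htk
      rcases hkey 0 0 le_rfl with h | h
      · rw [hfull 0 h, T0] at htk
        left; exact_mod_cast htk
      · rw [h, map_zero] at htk
        have : k = 0 := by exact_mod_cast htk
        omega
    · have g1 := (hkey 1 1 le_rfl).resolve_right h1
      have g0 := (hkey 0 1 hx.2.le).resolve_right h1
      rw [hfull 0 g0, hfull 1 g1, T0, T1] at htk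
      right; exact_mod_cast htk
  · exfalso
    have g2 := (hkey 2 2 le_rfl).resolve_right h2
    have g1 := (hkey 1 2 hx.1.le).resolve_right h2
    have g0 := (hkey 0 2 (hx.1.trans hx.2).le).resolve_right h2
    rw [hfull 0 g0, hfull 1 g1, hfull 2 g2, T0, T1, T2] at htk
    have : k = p + q + p := by exact_mod_cast htk
    omega

end algebra

end Pool.Agent.W599.SA
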