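import Pool.Agent.W599.SA.AutFin

/-!
# The transporter of a neighbourhood of the model character is finite
-/

open Matrix Topology Filter Module

open scoped Matrix.Norms.Operator

namespace Pool.Agent.W599.SA

variable {Γ : Subgroup SL2}

theorem le_of_pow_le {a b K : ℝ} (hb : 0 < b) (ha : 0 ≤ a)
    (h : ∀ j : ℕ, 1 ≤ j → a ^ j ≤ K * b ^ j) : a ≤ b := by
  by_contra hcon
  push Not at hcon
  have h1 : 1 < a / b := by rwa [lt_div_iff₀ hb, one_mul]
  have h2 := tendsto_pow_atTop_atTop_of_one_lt h1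
  obtain ⟨j, hj, hj1⟩ := ((h2.eventually_gt_atTop K).and (eventually_ge_atTop 1)).exists
  have h3 := h j hj1
  rw [div_pow, lt_div_iff₀ (by positivity)] at hj
  linarith

/-- matrices in a basis -/
noncomputable def toJ {d : ℕ} {J' : Type} [Fintype J'] [DecidableEq J']
    (b : Basis J' ℂ (Fin d → ℂ)) : Matrix (Fin d) (Fin d) ℂ →* Matrix J' J' ℂ where
  toFun M := LinearMap.toMatrix b b (Matrix.toLin' M)
  map_one' := by rw [Matrix.toLin'_one, LinearMap.toMatrix_id]
  map_mul' M N := by rw [Matrix.toLin'_mul, LinearMap.toMatrix_comp b b b]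

theorem toJ_bound {d : ℕ} {J' : Type} [Fintype J'] [DecidableEq J']
    (b : Basis J' ℂ (Fin d → ℂ)) : ∃ K : ℝ, 0 ≤ K ∧ ∀ M, ‖toJ b M‖ ≤ K * ‖M‖ := by
  set f : Matrix (Fin d) (Fin d) ℂ →ₗ[ℂ] Matrix J' J' ℂ :=
    (LinearMap.toMatrix b b).toLinearMap ∘ₗ
      (Matrix.toLin' : Matrix (Fin d) (Fin d) ℂ ≃ₗ[ℂ] _).toLinearMap with hf
  obtain ⟨C, hC, h⟩ := SemilinearMapClass.bound_of_continuous f (continuous_toMatrix_toLin b)
  exact ⟨C, hC.le, h⟩

theorem trans_finite (hΓ : IsClosedSurfaceGroup Γ) (d p q : ℕ) (hp : 0 < p) :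
    ∃ V : Set (Γ → ℂ), IsOpen V ∧ (fun γ : Γ => (p : ℂ) * (cx γ).trace + q) ∈ V ∧
      ∀ (x : ℕ → CharVar Γ d) (x₀ : CharVar Γ d), Tendsto x atTop (𝓝 x₀) →
        ∀ θ : ℕ → MulAut Γ, (∀ n, (twist (θ n) (x n)).1 ∈ V) →
          ((fun φ : MulAut Γ => (φ : Out Γ)) '' Set.range θ).Finite := by
  obtain ⟨F, δ, L, hδ, hL, hgr⟩ := growth hΓ p q hp
  have hnear := near hΓ d p q F δ hδ
  obtain ⟨V, hV, hVo, hVy⟩ := eventually_nhds_iff.1 hnear
  refine ⟨V, hVo, hVy, fun x x₀ hx θ hθ => ?_⟩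
  apply aut_finite hΓ
  obtain ⟨S, -, hS⟩ := exists_generators hΓ
  have hxt : ∀ γ, Tendsto (fun n => (x n).1 γ) atTop (𝓝 (x₀.1 γ)) := by
    intro γ
    have h1 : Tendsto (fun n => (x n).1) atTop (𝓝 x₀.1) :=
      (continuous_subtype_val.tendsto x₀).comp hx
    exact (tendsto_pi_nhds.1 h1) γ
  choose ρ hρ using fun n => (x n).2
  obtain ⟨M, hM⟩ := exists_bounded_conj (K := ℂ) (d := d)
    (fun (n : ℕ) (s : S) => mat (ρ n) s) (by
      intro w _
      obtain ⟨C, hC⟩ := (Metric.isBounded_range_of_tendsto _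
        (hxt ((w.map (fun s : S => (s : Γ))).prod))).exists_norm_le
      refine ⟨C, fun n => ?_⟩
      rw [word_hom]
      exact (congrArg norm (hρ n _)).symm.le.trans (hC _ ⟨n, rfl⟩))
  choose g hg using hM
  -- bounds for all elements
  have hbd : ∀ η : Γ, ∃ C : ℝ, 1 ≤ C ∧ ∀ n, ‖(g n).1 * mat (ρ n) η * ((g n)⁻¹).1‖ ≤ C := by
    intro η
    obtain ⟨w, hw⟩ := exists_word S hS η
    have h1 : ∀ w : List S, ∃ C : ℝ, ∀ n,
        ‖word (fun s : S => (g n).1 * mat (ρ n) s * ((g n)⁻¹).1) w‖ ≤ C := by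
      intro w
      induction w with
      | nil => exact ⟨‖(1 : Matrix (Fin d) (Fin d) ℂ)‖, fun n => by simp [word]⟩
      | cons s w ih =>
        obtain ⟨C, hC⟩ := ih
        refine ⟨M * C, fun n => ?_⟩
        rw [word_cons]
        exact (norm_mul_le _ _).trans (mul_le_mul (hg n s) (hC n) (norm_nonneg _)
          ((norm_nonneg _).trans (hg n s)))
    obtain ⟨C, hC⟩ := h1 w
    refine ⟨max C 1, le_max_right _ _, fun n => le_trans ?_ (le_max_left _ _)⟩
    have h2 := hC n
    rwa [word_conj (g n) (fun s : S => mat (ρ n) s) w, word_hom, hw] at h2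
  intro η
  obtain ⟨C, hC1, hC⟩ := hbd η
  have hlog3 : 0 < Real.log 3 := Real.log_pos (by norm_num)
  have hlogC : 0 ≤ Real.log C := Real.log_nonneg hC1
  refine ⟨2 * Real.exp (L * (1 + Real.log C / Real.log 3) / 2), ?_⟩
  rintro _ ⟨n, rfl⟩
  set A := L * (1 + Real.log C / Real.log 3) with hA
  have hLA : L ≤ A := by
    rw [hA]
    have : 0 ≤ Real.log C / Real.log 3 := by positivity
    nlinarith
  have hA0 : 0 ≤ A := by linarith
  by_cases h1 : ((θ n η : Γ) : SL2) = 1
  · rw [h1]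
    have : 1 ≤ Real.exp (A / 2) := Real.one_le_exp (by linarith)
    have h2 : |tr (1 : SL2)| = 2 := by
      simp [tr]; norm_num
    rw [h2]; linarith
  obtain ⟨h, T, hT, hd⟩ := exists_diag _ (two_lt_tr hΓ (θ n η).2 h1)
  have hTA : T ≤ A := by
    rcases lt_or_ge T L with h2 | h2
    · linarith
    · -- growth
      set R' : Γ →* Matrix (Fin d) (Fin d) ℂ :=
        (mat (ρ n)).comp ((θ n)⁻¹ : MulAut Γ).toMonoidHom with hR'
      obtain ⟨b, hb⟩ := hV _ (hθ n) R' (fun γ => hρ n _)
      obtain ⟨m, hm1, hm2, P, Q, hPQ⟩ := hgr ((toJ b).comp R') hb (θ n η) h T h2 hd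
      have hR'η : R' (θ n η) = mat (ρ n) η := by
        rw [hR']
        simp
      obtain ⟨K, hK0, hK⟩ := toJ_bound b
      have hmC : (3 : ℝ) ^ m ≤ C := by
        apply le_of_pow_le (K := ‖P‖ * (K * (‖((g n)⁻¹).1‖ * ‖(g n).1‖)) * ‖Q‖) (by linarith)
          (by positivity)
        intro j hj
        have e1 : ((toJ b).comp R') (θ n η) ^ j = toJ b (((g n)⁻¹).1 *
            ((g n).1 * mat (ρ n) η * ((g n)⁻¹).1) ^ j * (g n).1) := by
          rw [MonoidHom.comp_apply, hR'η, ← map_pow]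
          congr 1
          have e2 : ∀ j : ℕ, ((g n).1 * mat (ρ n) η * ((g n)⁻¹).1) ^ j =
              (g n).1 * mat (ρ n) η ^ j * ((g n)⁻¹).1 := by
            intro j
            rw [← map_pow]
            induction j with
            | zero =>
              rw [pow_zero, pow_zero, map_one, mul_one, ← Units.val_mul, mul_inv_cancel,
                Units.val_one]
            | succ j ih => rw [pow_succ, ih, pow_succ, conj_hom_mul]
          rw [e2]
          calc mat (ρ n) η ^ j = 1 * mat (ρ n) η ^ j * 1 := by rw [one_mul, mul_one]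
            _ = _ := by rw [← gl_inv_mul (g n)]; simp only [mul_assoc]
        have h3 := hPQ j
        rw [e1] at h3
        refine h3.trans ?_
        have hj0 : 0 < j := hj
        calc ‖P * toJ b (((g n)⁻¹).1 * ((g n).1 * mat (ρ n) η * ((g n)⁻¹).1) ^ j * (g n).1) * Q‖
            ≤ ‖P‖ * ‖toJ b (((g n)⁻¹).1 * ((g n).1 * mat (ρ n) η * ((g n)⁻¹).1) ^ j *
              (g n).1)‖ * ‖Q‖ :=
              (norm_mul_le _ _).trans (mul_le_mul_of_nonneg_right (norm_mul_le _ _) (norm_nonneg _))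
          _ ≤ ‖P‖ * (K * (‖((g n)⁻¹).1‖ * C ^ j * ‖(g n).1‖)) * ‖Q‖ := by
            gcongr
            refine (hK _).trans ?_
            gcongr
            refine (norm_mul_le _ _).trans ?_
            gcongr
            refine (norm_mul_le _ _).trans ?_
            gcongr
            refine (norm_pow_le' _ hj0).trans ?_
            gcongr
            exact hC n
          _ = _ := by ring
      have hm3 : (m : ℝ) * Real.log 3 ≤ Real.log C := by
        rw [← Real.log_pow]
        exact Real.log_le_log (by positivity) hmC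
      have hm4 : (m : ℝ) ≤ Real.log C / Real.log 3 := by rwa [le_div_iff₀ hlog3]
      rw [hA]
      nlinarith
  rw [tr_diag hd]
  have h3 : Real.exp (T / 2) ≤ Real.exp (A / 2) := Real.exp_le_exp.2 (by linarith)
  have h4 : Real.exp (-(T / 2)) ≤ Real.exp (A / 2) := Real.exp_le_exp.2 (by linarith)
  linarith

theorem twist_mul {d : ℕ} (φ ψ : MulAut Γ) (x : CharVar Γ d) :
    twist φ (twist ψ x) = twist (φ * ψ) x := by
  apply Subtype.ext
  funext γ
  show x.1 (ψ⁻¹ (φ⁻¹ γ)) = x.1 ((φ * ψ)⁻¹ γ)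
  rw [_root_.mul_inv_rev, MulAut.mul_apply]

theorem twist_one {d : ℕ} (x : CharVar Γ d) : twist (1 : MulAut Γ) x = x := by
  apply Subtype.ext
  funext γ
  show x.1 ((1 : MulAut Γ)⁻¹ γ) = x.1 γ
  rw [inv_one, MulAut.one_apply]

theorem continuous_twist {d : ℕ} (φ : MulAut Γ) :
    Continuous (fun x : CharVar Γ d => twist φ x) := by
  refine Continuous.subtype_mk ?_ _
  exact continuous_pi fun γ => (continuous_apply (φ⁻¹ γ)).comp continuous_subtype_val

theorem out_eq_iff (φ ψ : MulAut Γ) : (φ : Out Γ) = (ψ : Out Γ) ↔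
    φ⁻¹ * ψ ∈ (MulAut.conj : Γ →* MulAut Γ).range := QuotientGroup.eq

theorem inner_conj (φ ψ : MulAut Γ) (h : ψ ∈ (MulAut.conj : Γ →* MulAut Γ).range) :
    φ * ψ * φ⁻¹ ∈ (MulAut.conj : Γ →* MulAut Γ).range := by
  obtain ⟨γ, rfl⟩ := h
  refine ⟨φ γ, ?_⟩
  apply MulEquiv.ext
  intro η
  simp only [MulAut.mul_apply, MulAut.conj_apply, map_mul, MulAut.apply_inv_self]
  rw [map_inv φ γ]

/-- The transporter argument for domains of discontinuity. -/
theorem union_domain (hΓ : IsClosedSurfaceGroup Γ) (d p q : ℕ) (hp : 0 < p)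
    (y : CharVar Γ d) (hy : ∀ γ, y.1 γ = (p : ℂ) * (cx γ).trace + q) :
    ∃ U : Set (CharVar Γ d), y ∈ U ∧ ∀ D, IsDomainOfDiscontinuity Γ d D →
      IsDomainOfDiscontinuity Γ d (D ∪ U) := by
  obtain ⟨V, hVo, hVy, hV⟩ := trans_finite hΓ d p q hp
  have hyV : y.1 ∈ V := by
    have : y.1 = (fun γ : Γ => (p : ℂ) * (cx γ).trace + q) := funext hy
    rw [this]; exact hVy
  set U : Set (CharVar Γ d) := {x | ∃ φ : MulAut Γ, (twist φ x).1 ∈ V} with hU
  have hUo : IsOpen U := by
    have : U = ⋃ φ : MulAut Γ, (fun x : CharVar Γ d => (twist φ x).1) ⁻¹' V := by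
      ext x; simp [hU]
    rw [this]
    exact isOpen_iUnion fun φ =>
      hVo.preimage (continuous_subtype_val.comp (continuous_twist φ))
  have hUi : ∀ (φ : MulAut Γ), ∀ x ∈ U, twist φ x ∈ U := by
    rintro φ x ⟨ψ, hψ⟩
    refine ⟨ψ * φ⁻¹, ?_⟩
    rw [twist_mul, mul_assoc, inv_mul_cancel, mul_one]
    exact hψ
  refine ⟨U, ⟨1, by rw [twist_one]; exact hyV⟩, fun D hD => ⟨hD.isOpen.union hUo, ?_, ?_⟩⟩
  · rintro φ x (hx | hx)
    · exact Or.inl (hD.invariant φ x hx)
    · exact Or.inr (hUi φ x hx)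
  · intro K hK hKc
    by_contra hinf
    have hcount := countable_group hΓ
    have hfc : FirstCountableTopology (CharVar Γ d) :=
      (Topology.IsInducing.subtypeVal).firstCountableTopology
    -- a sequence of distinct classes
    obtain ⟨c, hc⟩ : ∃ c : ℕ → Out Γ, Function.Injective c ∧ ∀ n, c n ∈
        ((fun φ : MulAut Γ => (φ : Out Γ)) '' {φ | ∃ x ∈ K, twist φ x ∈ K}) :=
      ⟨fun n => (Set.Infinite.natEmbedding _ hinf n).1,
        fun a b h => (Set.Infinite.natEmbedding _ hinf).injective (Subtype.ext h),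
        fun n => (Set.Infinite.natEmbedding _ hinf n).2⟩
    obtain ⟨hcinj, hcm⟩ := hc
    choose φ hφ hφc using hcm
    choose x hxK hzK using hφ
    obtain ⟨x₀, hx₀, a, ha, hxlim⟩ := hKc.tendsto_subseq hxK
    obtain ⟨z₀, hz₀, b, hb, hzlim⟩ := hKc.tendsto_subseq (x := fun n => twist (φ (a n)) (x (a n)))
      (fun n => hzK (a n))
    -- rename the subsequence
    set x' : ℕ → CharVar Γ d := fun n => x (a (b n)) with hx'
    set φ' : ℕ → MulAut Γ := fun n => φ (a (b n)) with hφ'
    have hxl : Tendsto x' atTop (𝓝 x₀) := hxlim.comp hb.tendsto_atTop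
    have hzl : Tendsto (fun n => twist (φ' n) (x' n)) atTop (𝓝 z₀) := hzlim
    have hφinj : ∀ m n, (φ' m : Out Γ) = (φ' n : Out Γ) → m = n := by
      intro m n h
      have h1 : c (a (b m)) = c (a (b n)) := by
        rw [← hφc, ← hφc]; exact h
      exact hb.injective (ha.injective (hcinj h1))
    -- the two symmetric cases
    have hcase : ∀ (u : ℕ → CharVar Γ d) (u₀ v₀ : CharVar Γ d) (ψ : ℕ → MulAut Γ),
        Tendsto u atTop (𝓝 u₀) → Tendsto (fun n => twist (ψ n) (u n)) atTop (𝓝 v₀) → v₀ ∈ U →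
        ∃ (χ : MulAut Γ) (N : ℕ),
          ((fun φ : MulAut Γ => (φ : Out Γ)) '' Set.range (fun n => χ * ψ (n + N))).Finite := by
      rintro u u₀ v₀ ψ hu hv ⟨χ, hχ⟩
      have h1 : Tendsto (fun n => (twist χ (twist (ψ n) (u n))).1) atTop (𝓝 (twist χ v₀).1) :=
        ((continuous_subtype_val.comp (continuous_twist χ)).tendsto v₀).comp hv
      obtain ⟨N, hN⟩ := eventually_atTop.1 (h1.eventually (hVo.mem_nhds hχ))
      refine ⟨χ, N, hV (fun n => u (n + N)) u₀ (hu.comp (tendsto_add_atTop_nat N)) _ fun n => ?_⟩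
      have := hN (n + N) (Nat.le_add_left _ _)
      rwa [twist_mul] at this
    rcases hK hz₀ with hzD | hzU
    · rcases hK hx₀ with hxD | hxU
      · -- both limits in `D`
        obtain ⟨N₁, hN₁⟩ := eventually_atTop.1 (hxl.eventually (hD.isOpen.mem_nhds hxD))
        obtain ⟨N₂, hN₂⟩ := eventually_atTop.1 (hzl.eventually (hD.isOpen.mem_nhds hzD))
        set N := max N₁ N₂ with hN
        set K' : Set (CharVar Γ d) := insert x₀ (Set.range fun n => x' (n + N)) ∪
          insert z₀ (Set.range fun n => twist (φ' (n + N)) (x' (n + N))) with hK'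
        have hK'c : IsCompact K' :=
          (hxl.comp (tendsto_add_atTop_nat N)).isCompact_insert_range.union
            (hzl.comp (tendsto_add_atTop_nat N)).isCompact_insert_range
        have hK'D : K' ⊆ D := by
          rintro u ((rfl | ⟨n, rfl⟩) | (rfl | ⟨n, rfl⟩))
          · exact hxD
          · exact hN₁ _ (le_trans (le_max_left _ _) (Nat.le_add_left _ _))
          · exact hzD
          · exact hN₂ _ (le_trans (le_max_right _ _) (Nat.le_add_left _ _))
        have hfin := hD.discontinuous K' hK'D hK'c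
        have hinj : Set.InjOn (fun n : ℕ => (φ' (n + N) : Out Γ)) Set.univ := by
          intro m _ n _ h
          have := hφinj _ _ h
          omega
        have h3 : (Set.univ : Set ℕ).Finite := by
          refine Set.Finite.of_finite_image (hfin.subset ?_) hinj
          rintro _ ⟨n, -, rfl⟩
          exact ⟨φ' (n + N), ⟨x' (n + N), Or.inl (Or.inr ⟨n, rfl⟩), Or.inr (Or.inr ⟨n, rfl⟩)⟩, rfl⟩
        exact Set.infinite_univ h3
      · -- the first limit lies in `U`
        obtain ⟨χ, N, hfin⟩ := hcase (fun n => twist (φ' n) (x' n)) z₀ x₀ (fun n => (φ' n)⁻¹) hzl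
          (by
            refine hxl.congr fun n => ?_
            rw [twist_mul, inv_mul_cancel, twist_one]) hxU
        have h3 : (Set.univ : Set ℕ).Finite := by
          refine Set.Finite.of_finite_image (f := fun n : ℕ =>
            ((χ * (φ' (n + N))⁻¹ : MulAut Γ) : Out Γ)) (hfin.subset ?_) ?_
          · rintro _ ⟨n, -, rfl⟩
            exact ⟨_, ⟨n, rfl⟩, rfl⟩
          · intro m _ n _ h
            have h4 := (out_eq_iff _ _).1 h
            have h5 : (χ * (φ' (m + N))⁻¹)⁻¹ * (χ * (φ' (n + N))⁻¹) =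
                φ' (m + N) * (φ' (n + N))⁻¹ := by group
            rw [h5] at h4
            have h6 := inner_conj (φ' (m + N))⁻¹ _ h4
            have h7 : (φ' (m + N))⁻¹ * (φ' (m + N) * (φ' (n + N))⁻¹) * (φ' (m + N))⁻¹⁻¹ =
                ((φ' (m + N))⁻¹ * φ' (n + N))⁻¹ := by group
            rw [h7] at h6
            have h8 := (Subgroup.inv_mem_iff _).1 h6
            have := hφinj _ _ ((out_eq_iff _ _).2 h8)
            omega
        exact Set.infinite_univ h3
    · -- the second limit lies in `U`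
      obtain ⟨χ, N, hfin⟩ := hcase x' x₀ z₀ φ' hxl hzl hzU
      have h3 : (Set.univ : Set ℕ).Finite := by
        refine Set.Finite.of_finite_image (f := fun n : ℕ =>
          ((χ * φ' (n + N) : MulAut Γ) : Out Γ)) (hfin.subset ?_) ?_
        · rintro _ ⟨n, -, rfl⟩
          exact ⟨_, ⟨n, rfl⟩, rfl⟩
        · intro m _ n _ h
          have h4 := (out_eq_iff _ _).1 h
          have h5 : (χ * φ' (m + N))⁻¹ * (χ * φ' (n + N)) = (φ' (m + N))⁻¹ * φ' (n + N) := by group
          rw [h5] at h4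
          have := hφinj _ _ ((out_eq_iff _ _).2 h4)
          omega
      exact Set.infinite_univ h3

end Pool.Agent.W599.SA
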